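import Mathlib

set_option autoImplicit false

namespace Pool.Agent.H2.Ana

open Finset Complex Filter Topology MeasureTheory Asymptotics

/-- A Dirichlet series whose coefficients have partial sums `O(√n)` extends to `Re s > 1/2`. -/
theorem holo_series (a : ℕ → ℂ) (B C : ℝ) (hB : ∀ n, ‖a n‖ ≤ B) (hC : ∀ n : ℕ, ‖∑ k ∈ Icc 1 n, a k‖ ≤ C * √n) :
    ∃ h : ℂ → ℂ, DifferentiableOn ℂ h {s | 1 / 2 < s.re} ∧
      ∀ s : ℂ, 1 < s.re → LSeriesSummable a s ∧ LSeries a s = h s := by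
  set f : ℝ → ℂ := fun t => ∑ k ∈ Icc 1 ⌊t⌋₊, a k with hf
  have hC0 : 0 ≤ C := by
    have := (norm_nonneg _).trans (hC 1)
    simpa using this
  have hO : (fun n : ℕ => ∑ k ∈ Icc 1 n, a k) =O[atTop] fun n => (n : ℝ) ^ (1 / 2 : ℝ) := by
    refine IsBigO.of_bound C (Eventually.of_forall fun n => ?_)
    rw [Real.norm_of_nonneg (by positivity), ← Real.sqrt_eq_rpow]
    exact hC n
  have hbound : ∀ t : ℝ, 0 ≤ t → ‖f t‖ ≤ C * t ^ (1 / 2 : ℝ) := by
    intro t ht
    refine (hC _).trans ?_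
    rw [← Real.sqrt_eq_rpow]
    exact mul_le_mul_of_nonneg_left (Real.sqrt_le_sqrt (Nat.floor_le ht)) hC0
  have hzero : ∀ t : ℝ, t < 1 → f t = 0 := by
    intro t ht
    rw [hf]
    simp only []
    rw [Nat.floor_eq_zero.2 ht]
    simp
  have hloc : LocallyIntegrableOn f (Set.Ioi 0) := by
    have h1 := locallyIntegrableOn_mul_sum_Icc (𝕜 := ℂ) (c := a) (m := 1) (le_refl (0 : ℝ)) (g := fun _ => 1)
      (locallyIntegrableOn_const 1)
    have h2 : (fun t : ℝ => (1 : ℂ) * ∑ k ∈ Icc 1 ⌊t⌋₊, a k) = f := by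
      funext t
      rw [one_mul]
    rw [h2] at h1
    exact h1.mono_set Set.Ioi_subset_Ici_self
  have htop : f =O[atTop] fun t : ℝ => t ^ (-(-1 / 2 : ℝ)) := by
    refine IsBigO.of_bound C ?_
    filter_upwards [eventually_ge_atTop (0 : ℝ)] with t ht
    rw [Real.norm_of_nonneg (by positivity)]
    have := hbound t ht
    rwa [show (-(-1 / 2) : ℝ) = 1 / 2 by norm_num]
  have hbot : ∀ b : ℝ, f =O[𝓝[>] 0] fun t : ℝ => t ^ (-b) := by
    intro b
    have h1 : f =ᶠ[𝓝[>] 0] fun _ => 0 := by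
      have : Set.Ioo (0 : ℝ) 1 ∈ 𝓝[>] (0 : ℝ) := Ioo_mem_nhdsGT one_pos
      filter_upwards [this] with t ht
      exact hzero t ht.2
    exact h1.trans_isBigO (isBigO_zero _ _)
  refine ⟨fun s => s * mellin f (-s), ?_, ?_⟩
  · intro s hs
    have hs' : 1 / 2 < s.re := hs
    have h1 : DifferentiableAt ℂ (mellin f) (-s) := by
      apply mellin_differentiableAt_of_isBigO_rpow hloc htop (by rw [neg_re]; linarith) (hbot (-s.re - 1))
      rw [neg_re]
      linarith
    have h2 : DifferentiableAt ℂ (mellin f ∘ fun s : ℂ => -s) s := h1.comp s differentiableAt_id.neg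
    exact (differentiableAt_id.mul h2).differentiableWithinAt
  · intro s hs
    have hsum : LSeriesSummable a s := by
      apply LSeriesSummable_of_bounded_of_one_lt_re (m := B) (fun n _ => hB n) hs
    refine ⟨hsum, ?_⟩
    have hm : mellin f (-s) = ∫ t in Set.Ioi (0 : ℝ), (t : ℂ) ^ (-s - 1) • f t := rfl
    rw [LSeries_eq_mul_integral a (by norm_num : (0 : ℝ) ≤ 1 / 2) (by linarith) hsum hO]
    show _ = s * mellin f (-s)
    rw [hm]
    congr 1
    have h3 : Set.Ioi (0 : ℝ) = Set.Ioo 0 1 ∪ Set.Ici 1 := by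
      rw [Set.Ioo_union_Ici_eq_Ioi one_pos]
    have h4 : ∀ t ∈ Set.Ioi (0 : ℝ) \ Set.Ioi 1, (t : ℂ) ^ (-s - 1) • f t = 0 ∨ t = 1 := by
      intro t ht
      rcases lt_trichotomy t 1 with h | h | h
      · left
        rw [hzero t h, smul_zero]
      · right; exact h
      · exact absurd h ht.2
    have h6 : ∫ t in Set.Ioi (0 : ℝ), (t : ℂ) ^ (-s - 1) • f t = ∫ t in Set.Ioi (1 : ℝ), (t : ℂ) ^ (-s - 1) • f t := by
      apply setIntegral_eq_of_subset_of_ae_sdiff_eq_zero measurableSet_Ioi.nullMeasurableSet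
        (Set.Ioi_subset_Ioi zero_le_one)
      have h5 : ∀ᵐ t : ℝ ∂volume, t ≠ 1 := by
        rw [ae_iff]
        simp
      filter_upwards [h5] with t ht ht'
      exact (h4 t ht').resolve_right ht
    rw [h6]
    refine setIntegral_congr_fun measurableSet_Ioi fun t _ => ?_
    simp only [smul_eq_mul]
    rw [show -(s + 1) = -s - 1 by ring, mul_comm]

end Pool.Agent.H2.Ana
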