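import Mathlib

/-!
# Systems of Satake parameters of `PGL(2)` over `ℚ`, their symmetric powers, and Euler products
-/

set_option autoImplicit false

namespace Pool.Agent.H2.SymDefs

open Filter Topology Finset

/-- An Euler product of degree `deg` over the primes whose parameters have absolute value at most one. -/
structure EulerProduct where
  deg : ℕ
  β : Nat.Primes → Fin deg → ℂ
  norm_le : ∀ p m, ‖β p m‖ ≤ 1

/-- The local factor of `L(s, τ)` at `p`. -/
noncomputable def EulerProduct.factor (τ : EulerProduct) (s : ℂ) (p : Nat.Primes) : ℂ :=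
  ∏ m, (1 - τ.β p m * ((p : ℕ) : ℂ) ^ (-s))⁻¹

/-- The eigenvalues `a ^ (i - 2 l)`, `0 ≤ l ≤ i`, of `Sym^i diag(a, 1 / a)`. -/
noncomputable def eig (a : ℂ) (i : ℕ) (l : Fin (i + 1)) : ℂ := a ^ ((i : ℤ) - 2 * ((l : ℕ) : ℤ))

/-- The trace of `Sym^i diag(a, 1 / a)`. -/
noncomputable def tr (a : ℂ) (i : ℕ) : ℂ := ∑ l, eig a i l

/-- The local factor of `L(s, Sym^i Π × Sym^j Π × τ)` at `p`, where `Π_p` has the Satake parameters `α_p`, `1 / α_p`. -/
noncomputable def factor (α : Nat.Primes → ℂ) (i j : ℕ) (τ : EulerProduct) (s : ℂ) (p : Nat.Primes) : ℂ :=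
  ∏ k, ∏ l, ∏ m, (1 - eig (α p) i k * eig (α p) j l * τ.β p m * ((p : ℕ) : ℂ) ^ (-s))⁻¹

/-- `α_p`, `1 / α_p` are the Satake parameters of an irreducible unitary generic unramified representation of
`PGL_2(ℚ_p)`: tempered, or a complementary series. -/
def Unitary (α : Nat.Primes → ℂ) : Prop :=
  ∀ p : Nat.Primes, ‖α p‖ = 1 ∨
    ((α p).im = 0 ∧ ((p : ℕ) : ℝ) ^ (-(1 / 2) : ℝ) < ‖α p‖ ∧ ‖α p‖ < ((p : ℕ) : ℝ) ^ (1 / 2 : ℝ))

/-- The Hecke eigenvalue `λ_p = α_p + 1 / α_p`, a real number for the parameters of `Unitary`. -/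
noncomputable def lam (α : Nat.Primes → ℂ) (p : Nat.Primes) : ℝ := (α p + (α p)⁻¹).re

/-- The primes `p ≤ x`. -/
def primesLE (x : ℕ) : Finset Nat.Primes := (Finset.range (x + 1)).subtype Nat.Prime

open Classical in
/-- The proportion of the primes `p ≤ x` that lie in `A`. -/
noncomputable def share (A : Set Nat.Primes) (x : ℕ) : ℝ :=
  ((primesLE x).filter (fun p => p ∈ A)).card / (primesLE x).card

/-- The traces of `Sym^i`, `i ≤ M`, are orthonormal on average over the primes. For a cuspidal `Π` this follows from the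
Rankin–Selberg method whenever `Sym^i Π` is cuspidal on `GL(i + 1)` for all `i ≤ M`. -/
def Orthonormal (α : Nat.Primes → ℂ) (M : ℕ) : Prop :=
  ∀ i j : ℕ, i ≤ M → j ≤ M → Tendsto
    (fun x : ℕ => (∑ p ∈ primesLE x, tr (α p) i * tr (α p) j) / ((primesLE x).card : ℂ)) atTop
    (𝓝 (if i = j then 1 else 0))

/-- For all `i, j ≤ M`, `L(s, Sym^i Π × Sym^j Π × τ)` behaves like `L(s, τ)` (`i = j`) or like `1` (`i ≠ j`) as far as
`Re s > 1/2`: the sums of the coefficients at primes show square root cancellation, and for `Re s > 1` the Euler product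
converges to `L(s, τ)` resp. `1` times a function that continues to a holomorphic function without zeros on `Re s > 1/2`. -/
def Nice (α : Nat.Primes → ℂ) (M : ℕ) (τ : EulerProduct) : Prop :=
  ∀ i j : ℕ, i ≤ M → j ≤ M →
    (∃ C : ℝ, ∀ x : ℕ,
      ‖∑ p ∈ primesLE x, (tr (α p) i * tr (α p) j - if i = j then 1 else 0) * ∑ m, τ.β p m‖ ≤ C * √x) ∧
    ∃ h : ℂ → ℂ, DifferentiableOn ℂ h {s | 1 / 2 < s.re} ∧ ∀ s : ℂ, 1 < s.re →
      HasProd (factor α i j τ s) ((if i = j then ∏' p, τ.factor s p else 1) * Complex.exp (h s))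

/-- `∑ S_i(T)²` over the `i ≤ M` of the parity of `M`; `S_i` is the Chebyshev polynomial with
`S_i(a + 1 / a) = a^i + a^(i - 2) + ⋯ + a^(-i)`. -/
noncomputable def Δ (M : ℕ) (T : ℝ) : ℝ :=
  ∑ i ∈ range (M + 1) with i % 2 = M % 2, ((Polynomial.Chebyshev.S ℝ i).eval T) ^ 2

/-- `∑ S_i(T)²` over all `i ≤ M`. -/
noncomputable def Δ₁ (M : ℕ) (T : ℝ) : ℝ := ∑ i ∈ range (M + 1), ((Polynomial.Chebyshev.S ℝ i).eval T) ^ 2

end Pool.Agent.H2.SymDefs
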