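import Pool.Agent.H2.Ana
import Pool.Agent.H2.SymDefs

set_option autoImplicit false

namespace Pool.Agent.H2.Eul

open Finset Complex Filter Topology Pool.Agent.H2.SymDefs

theorem norm_p (p : Nat.Primes) (s : ℂ) : ‖((p : ℕ) : ℂ) ^ (-s)‖ = ((p : ℕ) : ℝ) ^ (-s.re) := by
  rw [Complex.norm_natCast_cpow_of_pos p.2.pos, neg_re]

theorem p_le {p : Nat.Primes} {σ τ : ℝ} (h : σ ≤ τ) : ((p : ℕ) : ℝ) ^ (-τ) ≤ ((p : ℕ) : ℝ) ^ (-σ) :=
  Real.rpow_le_rpow_of_exponent_le (by exact_mod_cast p.2.one_lt.le) (by linarith)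

theorem aux_norm (z : ℂ) : ‖-log (1 - z) - z‖ = ‖log (1 + -z) - -z‖ := by
  rw [show log (1 + -z) - -z = -(-log (1 - z) - z) by rw [← sub_eq_add_neg]; ring, norm_neg]

/-- the contributions of the prime powers -/
theorem euler {μ : Type} [Fintype μ] (Z : Nat.Primes → μ → ℂ) (B κ : ℝ) (hB : ∀ p m, ‖Z p m‖ ≤ B) (hκ : κ < 1)
    (hZ : ∀ p m, ‖Z p m‖ * ((p : ℕ) : ℝ) ^ (-(1 / 2) : ℝ) ≤ κ) :
    ∃ R : ℂ → ℂ, DifferentiableOn ℂ R {s | 1 / 2 < s.re} ∧ ∀ s : ℂ, 1 / 2 < s.re →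
      HasSum (fun p => ∑ m, (-log (1 - Z p m * ((p : ℕ) : ℂ) ^ (-s)) - Z p m * ((p : ℕ) : ℂ) ^ (-s))) (R s) := by
  set F : Nat.Primes → ℂ → ℂ := fun p s =>
    ∑ m, (-log (1 - Z p m * ((p : ℕ) : ℂ) ^ (-s)) - Z p m * ((p : ℕ) : ℂ) ^ (-s)) with hF
  have hz : ∀ p m, ∀ s : ℂ, 1 / 2 < s.re → ‖Z p m * ((p : ℕ) : ℂ) ^ (-s)‖ ≤ κ := by
    intro p m s hs
    rw [norm_mul, norm_p]
    exact (mul_le_mul_of_nonneg_left (p_le hs.le) (norm_nonneg _)).trans (hZ p m)
  have hlt : ∀ p m, ∀ s : ℂ, 1 / 2 < s.re → ‖Z p m * ((p : ℕ) : ℂ) ^ (-s)‖ < 1 := fun p m s hs =>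
    (hz p m s hs).trans_lt hκ
  have hdiff : ∀ p, DifferentiableOn ℂ (F p) {s | 1 / 2 < s.re} := by
    intro p
    have hp0 : ((p : ℕ) : ℂ) ≠ 0 := by exact_mod_cast p.2.ne_zero
    have h1 : Differentiable ℂ fun s : ℂ => ((p : ℕ) : ℂ) ^ (-s) := by
      intro s
      exact DifferentiableAt.const_cpow differentiableAt_id.neg (Or.inl hp0)
    intro s hs
    apply DifferentiableAt.differentiableWithinAt
    apply DifferentiableAt.fun_sum
    intro m _
    apply DifferentiableAt.sub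
    · apply DifferentiableAt.neg
      apply DifferentiableAt.clog
      · exact (differentiableAt_const _).sub ((differentiableAt_const _).mul (h1 s))
      · rw [sub_eq_add_neg]
        apply mem_slitPlane_of_norm_lt_one
        rw [norm_neg]
        exact hlt p m s hs
    · exact (differentiableAt_const _).mul (h1 s)
  set K : ℝ := (Fintype.card μ : ℝ) * (B ^ 2 * (1 - κ)⁻¹ / 2) with hK
  have hbd : ∀ p, ∀ s : ℂ, 1 / 2 < s.re → ‖F p s‖ ≤ K * ((p : ℕ) : ℝ) ^ (-(2 * s.re)) := by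
    intro p s hs
    rw [hF]
    simp only []
    refine (norm_sum_le _ _).trans ?_
    have h1 : ∀ m ∈ (univ : Finset μ), ‖-log (1 - Z p m * ((p : ℕ) : ℂ) ^ (-s)) - Z p m * ((p : ℕ) : ℂ) ^ (-s)‖ ≤
        (B ^ 2 * (1 - κ)⁻¹ / 2) * ((p : ℕ) : ℝ) ^ (-(2 * s.re)) := by
      intro m _
      set z := Z p m * ((p : ℕ) : ℂ) ^ (-s) with hzdef
      have h2 := norm_log_one_add_sub_self_le (z := -z) (by rw [norm_neg]; exact hlt p m s hs)
      have h3 : ‖-log (1 - z) - z‖ = ‖log (1 + -z) - -z‖ := aux_norm z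
      rw [h3]
      refine h2.trans ?_
      rw [norm_neg]
      have h4 : ‖z‖ ≤ B * ((p : ℕ) : ℝ) ^ (-s.re) := by
        rw [hzdef, norm_mul, norm_p]
        exact mul_le_mul_of_nonneg_right (hB p m) (by positivity)
      have h5 : ‖z‖ ^ 2 ≤ B ^ 2 * ((p : ℕ) : ℝ) ^ (-(2 * s.re)) := by
        have h6 := pow_le_pow_left₀ (norm_nonneg z) h4 2
        rw [mul_pow, ← Real.rpow_natCast (((p : ℕ) : ℝ) ^ (-s.re)), ← Real.rpow_mul (by positivity)] at h6
        rw [show -(2 * s.re) = -s.re * ((2 : ℕ) : ℝ) by push_cast; ring]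
        exact h6
      have h7 : (1 - ‖z‖)⁻¹ ≤ (1 - κ)⁻¹ := by
        apply inv_anti₀ (by linarith)
        linarith [hz p m s hs]
      have h8 : 0 ≤ (1 - ‖z‖)⁻¹ := inv_nonneg.2 (by linarith [hlt p m s hs])
      calc ‖z‖ ^ 2 * (1 - ‖z‖)⁻¹ / 2 ≤ (B ^ 2 * ((p : ℕ) : ℝ) ^ (-(2 * s.re))) * (1 - κ)⁻¹ / 2 := by
            gcongr
        _ = _ := by ring
    refine (Finset.sum_le_sum h1).trans ?_
    rw [Finset.sum_const, Finset.card_univ, nsmul_eq_mul, hK]
    apply le_of_eq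
    ring
  have hKsum : ∀ σ : ℝ, 1 / 2 < σ → Summable fun p : Nat.Primes => K * ((p : ℕ) : ℝ) ^ (-(2 * σ)) := by
    intro σ hσ
    apply Summable.mul_left
    rw [Nat.Primes.summable_rpow]
    linarith
  have hK0 : 0 ≤ K := by
    have h2 : (2 : ℕ).Prime := Nat.prime_two
    have : 0 < (1 - κ)⁻¹ := inv_pos.2 (by linarith)
    positivity
  refine ⟨fun s => ∑' p, F p s, ?_, ?_⟩
  · intro s hs
    have hs' : 1 / 2 < s.re := hs
    obtain ⟨σ, hσ1, hσ2⟩ := exists_between hs'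
    have hopen : IsOpen {s : ℂ | σ < s.re} := isOpen_lt continuous_const continuous_re
    have h1 : DifferentiableOn ℂ (fun s => ∑' p, F p s) {s : ℂ | σ < s.re} := by
      apply differentiableOn_tsum_of_summable_norm (hKsum σ hσ1)
      · intro p
        exact (hdiff p).mono fun z hz => lt_trans hσ1 hz
      · exact hopen
      · intro p w hw
        have hw' : σ < w.re := hw
        refine (hbd p w (lt_trans hσ1 hw')).trans ?_
        exact mul_le_mul_of_nonneg_left (p_le (by linarith)) hK0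
    exact ((h1 s hσ2).differentiableAt (hopen.mem_nhds hσ2)).differentiableWithinAt
  · intro s hs
    have : Summable fun p => F p s :=
      Summable.of_norm_bounded (hKsum s.re hs) fun p => hbd p s hs
    exact this.hasSum

/-- sums over the primes as Dirichlet series -/
theorem prime_series (a : Nat.Primes → ℂ) (B C : ℝ) (hB : ∀ p, ‖a p‖ ≤ B)
    (hC : ∀ x : ℕ, ‖∑ p ∈ primesLE x, a p‖ ≤ C * √x) :
    ∃ h : ℂ → ℂ, DifferentiableOn ℂ h {s | 1 / 2 < s.re} ∧
      ∀ s : ℂ, 1 < s.re → HasSum (fun p => a p * ((p : ℕ) : ℂ) ^ (-s)) (h s) := by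
  classical
  set b : ℕ → ℂ := fun n => if h : n.Prime then a ⟨n, h⟩ else 0 with hb
  have hbp : ∀ p : Nat.Primes, b p = a p := fun p => dif_pos p.2
  have hB0 : 0 ≤ B := (norm_nonneg _).trans (hB ⟨2, Nat.prime_two⟩)
  have hbB : ∀ n, ‖b n‖ ≤ B := by
    intro n
    by_cases h : n.Prime
    · rw [hbp ⟨n, h⟩]
      exact hB _
    · rw [hb]
      simp only []
      rw [dif_neg h, norm_zero]
      exact hB0
  have hsum : ∀ n : ℕ, ∑ k ∈ Icc 1 n, b k = ∑ p ∈ primesLE n, a p := by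
    intro n
    have h1 : ∑ k ∈ Icc 1 n, b k = ∑ k ∈ (range (n + 1)).filter Nat.Prime, b k := by
      symm
      apply Finset.sum_subset_zero_on_sdiff
      · intro k hk
        rw [Finset.mem_filter, Finset.mem_range] at hk
        rw [Finset.mem_Icc]
        exact ⟨hk.2.one_lt.le, by omega⟩
      · intro k hk
        rw [Finset.mem_sdiff, Finset.mem_Icc, Finset.mem_filter, Finset.mem_range] at hk
        rw [hb]
        simp only []
        rw [dif_neg]
        intro h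
        exact hk.2 ⟨by omega, h⟩
      · intro k _
        rfl
    rw [h1, ← Finset.sum_subtype_eq_sum_filter]
    refine Finset.sum_congr rfl fun p _ => ?_
    exact hbp p
  obtain ⟨h, hd, hh⟩ := Ana.holo_series b B C hbB (fun n => by rw [hsum]; exact hC n)
  refine ⟨h, hd, fun s hs => ?_⟩
  obtain ⟨h1, h2⟩ := hh s hs
  have h3 : HasSum (LSeries.term b s) (h s) := by
    rw [← h2]
    exact h1.hasSum
  have h4 : Function.support (LSeries.term b s) ⊆ {n | n.Prime} := by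
    intro n hn
    by_contra hnp
    apply hn
    have : b n = 0 := dif_neg hnp
    rw [LSeries.term, this]
    simp
  have h5 : HasSum (LSeries.term b s ∘ fun p : Nat.Primes => (p : ℕ)) (h s) :=
    (hasSum_subtype_iff_of_support_subset h4).2 h3
  convert h5 using 1
  funext p
  have hp0 : (p : ℕ) ≠ 0 := p.2.ne_zero
  rw [Function.comp_apply, LSeries.term_of_ne_zero hp0, hbp, cpow_neg, div_eq_mul_inv]

end Pool.Agent.H2.Eul
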