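import Pool.Agent.H2.Quad

set_option autoImplicit false

namespace Pool.Agent.H2.Quad

open Polynomial Finset Real

/-- the Chebyshev polynomials `S_n`, `S_n(x)` is the trace of `Sym^n` of a matrix of determinant one and trace `x` -/
noncomputable abbrev S (n : ℕ) : ℝ[X] := Polynomial.Chebyshev.S ℝ (n : ℤ)

theorem S_succ_succ (n : ℕ) : S (n + 2) = X * S (n + 1) - S n := by
  exact Polynomial.Chebyshev.S_add_two ℝ (n : ℤ)

theorem S_zero : S 0 = 1 := by simp [S]

theorem S_one : S 1 = X := by simp [S]

theorem S_monic_deg (n : ℕ) : ((S n).Monic ∧ (S n).natDegree = n) ∧ ((S (n + 1)).Monic ∧ (S (n + 1)).natDegree = n + 1) := by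
  induction n with
  | zero =>
    simp [S_zero, S_one, monic_X]
  | succ n ih =>
    refine ⟨ih.2, ?_⟩
    rw [S_succ_succ]
    have h1 : (X * S (n + 1)).Monic := monic_X.mul ih.2.1
    have h2 : (X * S (n + 1)).natDegree = n + 2 := by
      rw [natDegree_X_mul ih.2.1.ne_zero, ih.2.2]
    have h3 : (S n).degree < (X * S (n + 1)).degree := by
      rw [degree_eq_natDegree ih.1.1.ne_zero, degree_eq_natDegree h1.ne_zero, h2, ih.1.2]
      exact_mod_cast (by omega : n < n + 2)
    refine ⟨h1.sub_of_left h3, ?_⟩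
    rw [natDegree_sub_eq_left_of_natDegree_lt (by rw [h2, ih.1.2]; omega), h2]

theorem S_monic (n : ℕ) : (S n).Monic := (S_monic_deg n).1.1

theorem natDegree_S (n : ℕ) : (S n).natDegree = n := (S_monic_deg n).1.2

theorem S_eval_neg (n : ℕ) (x : ℝ) : (S n).eval (-x) = (-1) ^ n * (S n).eval x := by
  induction n using Nat.twoStepInduction with
  | zero => simp [S_zero]
  | one => simp [S_one]
  | more n ih1 ih2 =>
    rw [S_succ_succ, eval_sub, eval_mul, eval_X, ih1, ih2, eval_sub, eval_mul, eval_X]
    ring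

/-- the functional of the Sato-Tate measure -/
noncomputable def L : ℝ[X] →ₗ[ℝ] ℝ where
  toFun F := (2 / π) * ∫ θ in (0 : ℝ)..π, F.eval (2 * cos θ) * sin θ ^ 2
  map_add' F G := by
    rw [← mul_add, ← intervalIntegral.integral_add]
    · congr 1
      apply intervalIntegral.integral_congr
      intro θ _
      simp only [eval_add]
      ring
    · apply Continuous.intervalIntegrable
      fun_prop
    · apply Continuous.intervalIntegrable
      fun_prop
  map_smul' c F := by
    simp only [eval_smul, smul_eq_mul, RingHom.id_apply]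
    have h : ∫ θ in (0 : ℝ)..π, c * F.eval (2 * cos θ) * sin θ ^ 2 =
        c * ∫ θ in (0 : ℝ)..π, F.eval (2 * cos θ) * sin θ ^ 2 := by
      rw [← intervalIntegral.integral_const_mul]
      apply intervalIntegral.integral_congr
      intro θ _
      simp only []
      ring
    rw [h]
    ring

theorem L_apply (F : ℝ[X]) : L F = (2 / π) * ∫ θ in (0 : ℝ)..π, F.eval (2 * cos θ) * sin θ ^ 2 := rfl

theorem integral_cos_int (k : ℤ) : ∫ θ in (0 : ℝ)..π, cos (k * θ) = if k = 0 then π else 0 := by
  by_cases hk : k = 0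
  · simp [hk]
  · rw [if_neg hk]
    have hk' : (k : ℝ) ≠ 0 := by exact_mod_cast hk
    rw [intervalIntegral.integral_comp_mul_left (fun x => cos x) hk', integral_cos]
    simp [sin_int_mul_pi]

theorem L_orth (i j : ℕ) : L (S i * S j) = if i = j then 1 else 0 := by
  rw [L_apply]
  have h1 : ∀ θ : ℝ, (S i * S j).eval (2 * cos θ) * sin θ ^ 2 =
      (cos (((i : ℤ) - j : ℤ) * θ) - cos (((i : ℤ) + j + 2 : ℤ) * θ)) / 2 := by
    intro θ
    have hi : (S i).eval (2 * cos θ) * sin θ = sin ((i + 1) * θ) := by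
      simp
    have hj : (S j).eval (2 * cos θ) * sin θ = sin ((j + 1) * θ) := by
      simp
    have h2 : (S i * S j).eval (2 * cos θ) * sin θ ^ 2 = sin ((i + 1) * θ) * sin ((j + 1) * θ) := by
      rw [eval_mul, ← hi, ← hj]
      ring
    rw [h2]
    have e1 : ((((i : ℤ) - j : ℤ) : ℝ)) * θ = (i + 1) * θ - (j + 1) * θ := by
      push_cast
      ring
    have e2 : ((((i : ℤ) + j + 2 : ℤ) : ℝ)) * θ = (i + 1) * θ + (j + 1) * θ := by
      push_cast
      ring
    rw [e1, e2, cos_sub, cos_add]
    ring
  rw [intervalIntegral.integral_congr (g := fun θ => (cos (((i : ℤ) - j : ℤ) * θ) - cos (((i : ℤ) + j + 2 : ℤ) * θ)) / 2)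
    (fun θ _ => h1 θ), intervalIntegral.integral_div, intervalIntegral.integral_sub
    (by apply Continuous.intervalIntegrable; fun_prop) (by apply Continuous.intervalIntegrable; fun_prop),
    integral_cos_int, integral_cos_int]
  have h3 : ((i : ℤ) + j + 2 : ℤ) ≠ 0 := by omega
  rw [if_neg h3]
  by_cases hij : i = j
  · subst hij
    have : π ≠ 0 := pi_ne_zero
    simp
  · rw [if_neg hij, if_neg (by omega)]
    simp

theorem L_pos : Pos L (-2) 2 := by
  intro F hF hnn
  rw [L_apply]
  apply mul_pos (by positivity)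
  apply intervalIntegral.integral_pos pi_pos
  · apply Continuous.continuousOn
    fun_prop
  · intro θ _
    apply mul_nonneg _ (sq_nonneg _)
    apply hnn
    constructor <;> nlinarith [neg_one_le_cos θ, cos_le_one θ]
  · have hinf : (Set.Ioo (-2 : ℝ) 2).Infinite := Set.Ioo_infinite (by norm_num)
    obtain ⟨x, hx, hx0⟩ : ∃ x ∈ Set.Ioo (-2 : ℝ) 2, F.eval x ≠ 0 := by
      by_contra h
      push Not at h
      apply hinf
      apply (F.roots.toFinset.finite_toSet).subset
      intro x hx
      simp only [Finset.mem_coe, Multiset.mem_toFinset]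
      exact (mem_roots hF).2 (h x hx)
    have h1 : -1 ≤ x / 2 := by linarith [hx.1]
    have h2 : x / 2 ≤ 1 := by linarith [hx.2]
    refine ⟨arccos (x / 2), ⟨arccos_nonneg _, arccos_le_pi _⟩, ?_⟩
    rw [cos_arccos h1 h2, show 2 * (x / 2) = x by ring]
    apply mul_pos
    · exact lt_of_le_of_ne (hnn x ⟨hx.1.le, hx.2.le⟩) hx0.symm
    · rw [sin_arccos]
      have : 0 < 1 - (x / 2) ^ 2 := by nlinarith [hx.1, hx.2]
      have h3 : 0 < √(1 - (x / 2) ^ 2) := Real.sqrt_pos.2 this
      positivity

/-- expansion with respect to the `S_i` -/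
theorem expansion (M : ℕ) (P : ℝ[X]) (hP : P.degree < (M + 1 : ℕ)) :
    P = ∑ i ∈ range (M + 1), C (L (S i * P)) * S i := by
  have key : ∀ n : ℕ, n ≤ M + 1 → ∀ P : ℝ[X], P.degree < (n : ℕ) → P = ∑ i ∈ range (M + 1), C (L (S i * P)) * S i := by
    intro n
    induction n with
    | zero =>
      intro _ P hP
      have : P = 0 := by
        rw [Nat.cast_zero] at hP
        exact degree_eq_bot.1 (by simpa using hP)
      rw [this]
      simp
    | succ n ih =>
      intro hn P hP
      set c := P.coeff n with hc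
      have h1 : (P - C c * S n).degree < (n : ℕ) := by
        rw [degree_lt_iff_coeff_zero]
        intro k hk
        rw [coeff_sub, coeff_C_mul]
        rcases eq_or_lt_of_le hk with h | h
        · subst h
          have := (S_monic n).coeff_natDegree
          rw [natDegree_S] at this
          rw [this, mul_one, hc, sub_self]
        · rw [coeff_eq_zero_of_degree_lt (lt_of_lt_of_le hP (by exact_mod_cast h)),
            coeff_eq_zero_of_natDegree_lt (by rw [natDegree_S]; exact h), mul_zero, sub_zero]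
      have h2 := ih (by omega) _ h1
      have h3 : C c * S n = ∑ i ∈ range (M + 1), C (L (S i * (C c * S n))) * S i := by
        rw [Finset.sum_eq_single_of_mem n (Finset.mem_range.2 (by omega))]
        · rw [show S n * (C c * S n) = c • (S n * S n) by rw [smul_eq_C_mul]; ring, map_smul, L_orth, if_pos rfl,
            smul_eq_mul, mul_one]
        · intro i _ hin
          rw [show S i * (C c * S n) = c • (S i * S n) by rw [smul_eq_C_mul]; ring, map_smul, L_orth, if_neg hin,
            smul_eq_mul, mul_zero, C_0, zero_mul]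
      calc P = (P - C c * S n) + C c * S n := by ring
        _ = ∑ i ∈ range (M + 1), C (L (S i * (P - C c * S n))) * S i +
            ∑ i ∈ range (M + 1), C (L (S i * (C c * S n))) * S i := by rw [← h2, ← h3]
        _ = _ := by
          rw [← Finset.sum_add_distrib]
          refine Finset.sum_congr rfl fun i _ => ?_
          rw [← add_mul, ← C_add, ← map_add, ← mul_add, sub_add_cancel]
  exact key (M + 1) le_rfl P hP

/-- the parity of `S_n` -/
theorem S_parity (n : ℕ) : (∃ p : ℝ[X], S n = X ^ (n % 2) * expand ℝ 2 p ∧ p.natDegree ≤ n / 2) ∧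
    ∃ p : ℝ[X], S (n + 1) = X ^ ((n + 1) % 2) * expand ℝ 2 p ∧ p.natDegree ≤ (n + 1) / 2 := by
  induction n with
  | zero => exact ⟨⟨1, by simp [S_zero]⟩, ⟨1, by simp [S_one]⟩⟩
  | succ n ih =>
    obtain ⟨⟨p, hp, hpd⟩, ⟨p', hp', hpd'⟩⟩ := ih
    refine ⟨⟨p', hp', hpd'⟩, ?_⟩
    rcases Nat.even_or_odd n with h | h
    · refine ⟨X * p' - p, ?_, ?_⟩
      · have h0 : n % 2 = 0 := Nat.even_iff.1 h
        have h1 : (n + 1) % 2 = 1 := by omega
        have h2 : (n + 1 + 1) % 2 = 0 := by omega
        rw [S_succ_succ, hp, hp', h0, h1, h2, map_sub, map_mul, expand_X]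
        ring
      · refine (natDegree_sub_le _ _).trans (max_le ?_ ?_)
        · refine natDegree_mul_le.trans ?_
          rw [natDegree_X]
          obtain ⟨k, hk⟩ := h
          omega
        · omega
    · refine ⟨p' - p, ?_, ?_⟩
      · have h0 : n % 2 = 1 := Nat.odd_iff.1 h
        have h1 : (n + 1) % 2 = 0 := by omega
        have h2 : (n + 1 + 1) % 2 = 1 := by omega
        rw [S_succ_succ, hp, hp', h0, h1, h2, map_sub]
        ring
      · refine (natDegree_sub_le _ _).trans (max_le ?_ ?_) <;> omega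

/-- products of two `S_i` of the same parity are even polynomials -/
theorem S_mul_even {M i j : ℕ} (hi : i ≤ M) (hj : j ≤ M) (hij : i % 2 = j % 2) :
    ∃ G : ℝ[X], S i * S j = expand ℝ 2 G ∧ G.degree < (M + 1 : ℕ) := by
  obtain ⟨p, hp, hpd⟩ := (S_parity i).1
  obtain ⟨p', hp', hpd'⟩ := (S_parity j).1
  refine ⟨X ^ (i % 2) * (p * p'), ?_, ?_⟩
  · rw [hp, hp', ← hij, map_mul, map_mul, map_pow, expand_X]
    ring
  · refine lt_of_le_of_lt degree_le_natDegree ?_
    have h1 : (X ^ (i % 2) * (p * p')).natDegree ≤ i % 2 + (i / 2 + j / 2) := by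
      refine natDegree_mul_le.trans (add_le_add ?_ ?_)
      · rw [natDegree_X_pow]
      · exact natDegree_mul_le.trans (add_le_add hpd hpd')
    have h2 : i % 2 + (i / 2 + j / 2) < M + 1 := by omega
    exact_mod_cast lt_of_le_of_lt h1 h2

/-- the functional `F ↦ L (x^(2 ε) F(x²))` -/
noncomputable def Lam (ε : ℕ) : ℝ[X] →ₗ[ℝ] ℝ :=
  L ∘ₗ (LinearMap.mulLeft ℝ (X ^ (2 * ε))) ∘ₗ (expand ℝ 2).toLinearMap

theorem Lam_apply (ε : ℕ) (F : ℝ[X]) : Lam ε F = L (X ^ (2 * ε) * expand ℝ 2 F) := rfl

theorem Lam_pos (ε : ℕ) : Pos (Lam ε) 0 4 := by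
  intro F hF hnn
  rw [Lam_apply]
  apply L_pos
  · apply mul_ne_zero (pow_ne_zero _ X_ne_zero)
    exact (expand_ne_zero (by norm_num)).2 hF
  · intro x hx
    rw [eval_mul, eval_pow, eval_X, expand_eval]
    apply mul_nonneg
    · rw [pow_mul]
      positivity
    · apply hnn
      constructor
      · positivity
      · nlinarith [hx.1, hx.2]

/-- `∑ S_i(T)²`, `i ≤ M`, `i ≡ M mod 2` -/
noncomputable def D (M : ℕ) (T : ℝ) : ℝ := ∑ i ∈ range (M + 1) with i % 2 = M % 2, (S i).eval T ^ 2

/-- `∑ S_i(T)²`, `i ≤ M` -/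
noncomputable def D₁ (M : ℕ) (T : ℝ) : ℝ := ∑ i ∈ range (M + 1), (S i).eval T ^ 2

theorem S_mono (n : ℕ) {x y : ℝ} (hy : 2 ≤ y) (hxy : y ≤ x) : (1 ≤ (S n).eval y ∧ (S n).eval y ≤ (S n).eval x) ∧
    (0 ≤ (S (n + 1)).eval y - (S n).eval y) ∧
    (S (n + 1)).eval y - (S n).eval y ≤ (S (n + 1)).eval x - (S n).eval x := by
  induction n with
  | zero =>
    simp only [zero_add, S_zero, S_one, eval_one, eval_X]
    refine ⟨⟨le_rfl, le_rfl⟩, ?_, ?_⟩ <;> linarith
  | succ n ih =>
    obtain ⟨⟨h1, h2⟩, h3, h4⟩ := ih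
    refine ⟨⟨by linarith, by linarith⟩, ?_, ?_⟩
    · rw [S_succ_succ, eval_sub, eval_mul, eval_X]
      nlinarith
    · rw [S_succ_succ, eval_sub, eval_mul, eval_X, eval_sub, eval_mul, eval_X]
      have h5 : (S (n + 1)).eval y ≤ (S (n + 1)).eval x := by linarith
      have h6 : 1 ≤ (S (n + 1)).eval y := by linarith
      nlinarith

theorem D_pos (M : ℕ) {T : ℝ} (hT : 2 ≤ T) : 0 < D M T := by
  unfold D
  have h : M ∈ (range (M + 1)).filter (fun i => i % 2 = M % 2) := by simp
  refine Finset.sum_pos' (fun i _ => sq_nonneg _) ⟨M, h, ?_⟩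
  have := (S_mono M hT le_rfl).1.1
  positivity

/-- the node polynomial of a finite set -/
theorem node_prod (N : Finset ℝ) : (∏ z ∈ N, (X - C z) : ℝ[X]).degree = (N.card : ℕ) ∧
    (∀ x ∈ N, (∏ z ∈ N, (X - C z) : ℝ[X]).eval x = 0) ∧ ∀ x, x ∉ N → (∏ z ∈ N, (X - C z) : ℝ[X]).eval x ≠ 0 := by
  refine ⟨by rw [degree_prod]; simp, ?_, ?_⟩
  · intro x hx
    rw [eval_prod, Finset.prod_eq_zero hx (by simp)]
  · intro x hx
    rw [eval_prod]
    refine Finset.prod_ne_zero_iff.2 fun z hz => ?_
    rw [eval_sub, eval_X, eval_C]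
    intro h
    have h4 : x = z := sub_eq_zero.1 h
    exact hx (h4 ▸ hz)

theorem one_sided (M : ℕ) {T : ℝ} (hT : 2 ≤ T) : ∃ (N : Finset ℝ) (w : ℝ → ℝ), (∀ x ∈ N, x ∈ Set.Ioo (-2 : ℝ) 2) ∧
    (∀ x ∈ N, 0 < w x) ∧ w T = 1 / D₁ M T ∧
    ∀ F : ℝ[X], F.degree < (2 * M + 1 : ℕ) → L F = ∑ x ∈ N, w x * F.eval x + w T * F.eval T := by
  obtain ⟨N, w, hcard, hN, hw, hwt, hex⟩ := radau (by norm_num : (-2 : ℝ) < 2) hT L_pos M
  refine ⟨N, w, hN, hw, ?_, hex⟩
  set P : ℝ[X] := ∏ z ∈ N, (X - C z) with hP
  obtain ⟨hPd, hPz, hPnz⟩ := node_prod N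
  have hTN : T ∉ N := fun h => by
    have := (hN T h).2
    linarith
  set K : ℝ[X] := ∑ i ∈ range (M + 1), C ((S i).eval T) * S i with hK
  have hKT : K.eval T = D₁ M T := by
    rw [hK, eval_finsetSum, D₁]
    refine Finset.sum_congr rfl fun i _ => ?_
    rw [eval_mul, eval_C, sq]
  have hrep : L (K * P) = P.eval T := by
    have h1 := expansion M P (by rw [hPd, hcard]; exact_mod_cast Nat.lt_succ_self M)
    have h2 : P.eval T = ∑ i ∈ range (M + 1), L (S i * P) * (S i).eval T := by
      conv_lhs => rw [h1]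
      rw [eval_finsetSum]
      refine Finset.sum_congr rfl fun i _ => ?_
      rw [eval_mul, eval_C]
    rw [h2, hK, Finset.sum_mul, map_sum]
    refine Finset.sum_congr rfl fun i _ => ?_
    rw [mul_assoc, ← smul_eq_C_mul, map_smul, smul_eq_mul, mul_comm]
  have hdeg : (K * P).degree < (2 * M + 1 : ℕ) := by
    rw [degree_mul, hPd, hcard]
    have hKd : K.degree ≤ (M : ℕ) := by
      rw [hK]
      refine (degree_sum_le _ _).trans ?_
      rw [Finset.sup_le_iff]
      intro i hi
      refine degree_le_natDegree.trans ?_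
      have h1 := natDegree_C_mul_le ((S i).eval T) (S i)
      rw [natDegree_S] at h1
      exact_mod_cast h1.trans (Nat.lt_succ_iff.1 (Finset.mem_range.1 hi))
    calc K.degree + (M : ℕ) ≤ (M : ℕ) + (M : ℕ) := by gcongr
      _ < (2 * M + 1 : ℕ) := by
        have : M + M < 2 * M + 1 := by omega
        exact_mod_cast this
  rw [hex _ hdeg, Finset.sum_eq_zero (fun x hx => by rw [eval_mul, hPz x hx, mul_zero, mul_zero]), zero_add,
    eval_mul, hKT] at hrep
  have hPT := hPnz T hTN
  have h3 : (w T * D₁ M T - 1) * P.eval T = 0 := by linear_combination hrep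
  rcases mul_eq_zero.1 h3 with h | h
  · rw [eq_div_iff (by
      intro h0
      rw [h0, mul_zero] at h
      norm_num at h)]
    linarith
  · exact absurd h hPT

theorem two_sided (M : ℕ) {T : ℝ} (hT : 2 ≤ T) : ∃ (N : Finset ℝ) (w : ℝ → ℝ), (∀ y ∈ N, y ∈ Set.Ico (0 : ℝ) 4) ∧
    (∀ y ∈ N, 0 < w y) ∧ w (T ^ 2) = 1 / D M T ∧
    ∀ G : ℝ[X], G.degree < (M + 1 : ℕ) → L (expand ℝ 2 G) = ∑ y ∈ N, w y * G.eval y + w (T ^ 2) * G.eval (T ^ 2) := by
  have ht : (4 : ℝ) ≤ T ^ 2 := by nlinarith
  -- a quadrature and a polynomial that vanishes at all its nodes but `T²`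
  obtain ⟨N, w, hN, hw, hex, P, hPd, hPz, hPt⟩ : ∃ (N : Finset ℝ) (w : ℝ → ℝ), (∀ y ∈ N, y ∈ Set.Ico (0 : ℝ) 4) ∧
      (∀ y ∈ N, 0 < w y) ∧
      (∀ G : ℝ[X], G.degree < (M + 1 : ℕ) →
        L (expand ℝ 2 G) = ∑ y ∈ N, w y * G.eval y + w (T ^ 2) * G.eval (T ^ 2)) ∧
      ∃ P : ℝ[X], P.degree < (M / 2 + 1 : ℕ) ∧ (∀ y ∈ N, (X ^ (M % 2) * P).eval y = 0) ∧ P.eval (T ^ 2) ≠ 0 := by
    rcases Nat.even_or_odd' M with ⟨m, hm | hm⟩
    · obtain ⟨N, w, hcard, hN, hw, hwt, hex⟩ := radau (by norm_num : (0 : ℝ) < 4) ht (Lam_pos 0) m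
      obtain ⟨hPd, hPz, hPnz⟩ := node_prod N
      refine ⟨N, w, fun y hy => ⟨(hN y hy).1.le, (hN y hy).2⟩, hw, ?_, ∏ z ∈ N, (X - C z), ?_, ?_, ?_⟩
      · intro G hG
        have := hex G (by rwa [hm] at hG)
        rw [Lam_apply] at this
        simpa using this
      · rw [hPd, hcard]
        have : m < M / 2 + 1 := by omega
        exact_mod_cast this
      · intro y hy
        rw [eval_mul, hPz y hy, mul_zero]
      · apply hPnz
        intro h
        have := (hN _ h).2
        linarith
    · obtain ⟨N, w, hcard, hN, hw, hwt, hex⟩ := radau (by norm_num : (0 : ℝ) < 4) ht (Lam_pos 1) m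
      obtain ⟨hPd, hPz, hPnz⟩ := node_prod N
      set P : ℝ[X] := ∏ z ∈ N, (X - C z) with hP
      have h0N : (0 : ℝ) ∉ N := fun h => lt_irrefl _ (hN 0 h).1
      have htN : T ^ 2 ∉ N := fun h => by
        have := (hN _ h).2
        linarith
      have ht0 : T ^ 2 ≠ 0 := by positivity
      set w' : ℝ → ℝ := fun y => if y = 0 then 1 - ∑ z ∈ N, w z / z - w (T ^ 2) / T ^ 2 else w y / y with hw'
      have hw'0 : w' 0 = 1 - ∑ z ∈ N, w z / z - w (T ^ 2) / T ^ 2 := by simp [hw']
      have hw'y : ∀ y, y ≠ 0 → w' y = w y / y := fun y hy => by simp [hw', hy]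
      have hex' : ∀ G : ℝ[X], G.degree < (M + 1 : ℕ) →
          L (expand ℝ 2 G) = ∑ y ∈ insert 0 N, w' y * G.eval y + w' (T ^ 2) * G.eval (T ^ 2) := by
        intro G hG
        have hdiv : G.divX * X + C (G.coeff 0) = G := divX_mul_X_add G
        set F := G.divX with hF
        set g := G.coeff 0 with hg
        have hFd : F.degree < (2 * m + 1 : ℕ) := by
          by_cases hF0 : F = 0
          · rw [hF0, degree_zero]
            exact WithBot.bot_lt_coe _
          have h1 : G.natDegree < 2 * m + 1 + 1 := by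
            have hG0 : G ≠ 0 := by
              rintro rfl
              exact hF0 (by simp [hF])
            have := (natDegree_lt_iff_degree_lt hG0).2 hG
            omega
          have h2 : F.natDegree = G.natDegree - 1 := natDegree_divX_eq_natDegree_tsub_one
          rw [← natDegree_lt_iff_degree_lt hF0]
          have h3 : G.natDegree ≠ 0 := by
            intro h
            apply hF0
            rw [hF]
            rw [divX_eq_zero_iff]
            exact eq_C_of_natDegree_eq_zero h
          omega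
        have h1 : L (expand ℝ 2 G) = Lam 1 F + g := by
          rw [Lam_apply]
          conv_lhs => rw [← hdiv]
          rw [map_add, map_mul, expand_X, expand_C, map_add]
          congr 1
          · congr 1
            ring
          · have := L_orth 0 0
            rw [S_zero, if_pos rfl, one_mul] at this
            rw [← mul_one (C g), ← smul_eq_C_mul, map_smul, this, smul_eq_mul, mul_one]
        have heval : ∀ y, G.eval y = F.eval y * y + g := by
          intro y
          conv_lhs => rw [← hdiv]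
          simp
        rw [h1, hex F hFd, Finset.sum_insert h0N, hw'0, hw'y _ ht0, heval 0, heval (T ^ 2),
          Finset.sum_congr rfl (fun y hy => show w' y * G.eval y = w y * F.eval y + g * (w y / y) by
            have hy0 : y ≠ 0 := fun h => h0N (h ▸ hy)
            rw [hw'y y hy0, heval y]
            field_simp), Finset.sum_add_distrib, ← Finset.mul_sum]
        field_simp
        ring
      refine ⟨insert 0 N, w', ?_, ?_, hex', P, ?_, ?_, ?_⟩
      · intro y hy
        rcases Finset.mem_insert.1 hy with rfl | hy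
        · constructor <;> norm_num
        · exact ⟨(hN y hy).1.le, (hN y hy).2⟩
      · intro y hy
        rcases Finset.mem_insert.1 hy with rfl | hy
        · -- test function
          have htX : C (T ^ 2) - X ≠ (0 : ℝ[X]) := by
            intro h
            have : (X : ℝ[X]) = C (T ^ 2) := (sub_eq_zero.1 h).symm
            exact X_ne_C _ this
          have hP0 : P ≠ 0 := by
            intro h
            apply hPnz _ htN
            rw [h, eval_zero]
          have h1 : 0 < Lam 0 (P ^ 2 * (C (T ^ 2) - X)) := by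
            apply Lam_pos 0
            · exact mul_ne_zero (pow_ne_zero _ hP0) htX
            · intro x hx
              rw [eval_mul, eval_pow, eval_sub, eval_C, eval_X]
              exact mul_nonneg (sq_nonneg _) (by linarith [hx.2])
          rw [Lam_apply, mul_zero, pow_zero, one_mul, hex' _ (by
            rw [degree_mul, degree_pow, hPd, hcard, nsmul_eq_mul,
              show (C (T ^ 2) - X : ℝ[X]) = -(X - C (T ^ 2)) by ring, degree_neg, degree_X_sub_C]
            have : 2 * m + 1 < M + 1 := by omega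
            exact_mod_cast this), Finset.sum_insert h0N, Finset.sum_eq_zero (fun y hy => by
              rw [eval_mul, eval_pow, hP, hPz y hy]
              simp), add_zero] at h1
          have h2 : (P ^ 2 * (C (T ^ 2) - X)).eval (T ^ 2) = 0 := by simp
          rw [h2, mul_zero, add_zero] at h1
          refine (pos_iff_pos_of_mul_pos h1).2 ?_
          rw [eval_mul, eval_pow, eval_sub, eval_C, eval_X]
          have := hPnz 0 h0N
          have h3 : 0 < T ^ 2 - 0 := by linarith
          positivity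
        · have hy0 : 0 < y := (hN y hy).1
          rw [hw'y y hy0.ne']
          exact div_pos (hw y hy) hy0
      · rw [hPd, hcard]
        have : m < M / 2 + 1 := by omega
        exact_mod_cast this
      · intro y hy
        have hM2 : M % 2 = 1 := by omega
        rw [hM2, pow_one, eval_mul, eval_X]
        rcases Finset.mem_insert.1 hy with rfl | hy
        · rw [zero_mul]
        · rw [hP, hPz y hy, mul_zero]
      · exact hPnz _ htN
  refine ⟨N, w, hN, hw, ?_, hex⟩
  -- the reproducing kernel
  set ε := M % 2 with hε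
  set P' : ℝ[X] := X ^ ε * expand ℝ 2 P with hP'
  have hP'deg : P'.degree < (M + 1 : ℕ) := by
    by_cases hP0 : P = 0
    · rw [hP', hP0, map_zero, mul_zero, degree_zero]
      exact WithBot.bot_lt_coe _
    have h1 : P'.natDegree < M + 1 := by
      rw [hP', natDegree_mul (pow_ne_zero _ X_ne_zero) ((expand_ne_zero (by norm_num)).2 hP0), natDegree_X_pow,
        natDegree_expand]
      have := (natDegree_lt_iff_degree_lt hP0).2 hPd
      omega
    refine lt_of_le_of_lt degree_le_natDegree ?_
    exact_mod_cast h1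
  set Q : ℝ[X] := ∑ i ∈ range (M + 1) with i % 2 = M % 2, C ((S i).eval T) * S i with hQ
  have hQT : Q.eval T = D M T := by
    rw [hQ, eval_finsetSum, D]
    refine Finset.sum_congr rfl fun i _ => ?_
    rw [eval_mul, eval_C, sq]
  -- `S_i P'` is odd for `i` of the other parity
  have hP'neg : ∀ x, P'.eval (-x) = (-1) ^ ε * P'.eval x := by
    intro x
    rw [hP', eval_mul, eval_mul, eval_pow, eval_pow, eval_X, eval_X, expand_eval, expand_eval]
    rw [neg_pow x ε, neg_sq]
    ring
  have hodd : ∀ F : ℝ[X], (∀ x, F.eval (-x) = -F.eval x) → L F = 0 := by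
    intro F hF
    have h1 : L F = -L F := by
      conv_lhs => rw [L_apply]
      rw [L_apply, ← mul_neg, ← intervalIntegral.integral_neg]
      congr 1
      have h2 := intervalIntegral.integral_comp_sub_left (fun θ => F.eval (2 * cos θ) * sin θ ^ 2) π (a := 0) (b := π)
      rw [sub_self, sub_zero] at h2
      rw [← h2]
      apply intervalIntegral.integral_congr
      intro θ _
      simp only []
      rw [cos_pi_sub, sin_pi_sub, show 2 * -cos θ = -(2 * cos θ) by ring, hF]
      ring
    linarith
  have hPT : P'.eval T = T ^ ε * P.eval (T ^ 2) := by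
    rw [hP', eval_mul, eval_pow, eval_X, expand_eval]
  have hPT0 : P'.eval T ≠ 0 := by
    rw [hPT]
    have : T ≠ 0 := by linarith
    exact mul_ne_zero (pow_ne_zero _ this) hPt
  have hrep : L (Q * P') = P'.eval T := by
    have h1 := expansion M P' hP'deg
    have h2 : P'.eval T = ∑ i ∈ range (M + 1), L (S i * P') * (S i).eval T := by
      conv_lhs => rw [h1]
      rw [eval_finsetSum]
      refine Finset.sum_congr rfl fun i _ => ?_
      rw [eval_mul, eval_C]
    rw [h2, hQ, Finset.sum_mul, map_sum, Finset.sum_filter]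
    refine Finset.sum_congr rfl fun i _ => ?_
    split_ifs with h
    · rw [mul_assoc, ← smul_eq_C_mul, map_smul, smul_eq_mul, mul_comm]
    · rw [hodd, zero_mul]
      intro x
      have e1 : ∀ z, (S i * P').eval z = (S i).eval z * P'.eval z := fun z => eval_mul
      rw [e1, e1, S_eval_neg, hP'neg]
      have h5 : ((-1 : ℝ)) ^ i * (-1) ^ ε = -1 := by
        rw [← pow_add]
        apply Odd.neg_one_pow
        rw [Nat.odd_iff]
        omega
      linear_combination (S i).eval x * P'.eval x * h5
  -- `Q P'` is `expand` of a polynomial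
  have heven : ∃ G : ℝ[X], Q * P' = expand ℝ 2 G ∧ G.degree < (M + 1 : ℕ) := by
    have h1 : ∀ i ∈ (range (M + 1)).filter (fun i => i % 2 = M % 2), ∃ G : ℝ[X],
        C ((S i).eval T) * S i * P' = expand ℝ 2 G ∧ G.degree < (M + 1 : ℕ) := by
      intro i hi
      rw [Finset.mem_filter, Finset.mem_range] at hi
      obtain ⟨p, hp, hpd⟩ := (S_parity i).1
      refine ⟨C ((S i).eval T) * (X ^ ε * (p * P)), ?_, ?_⟩
      · generalize (S i).eval T = c
        rw [map_mul, map_mul, map_mul, map_pow, expand_X, expand_C, hP', hp, hi.2]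
        ring
      · by_cases hP0 : P = 0
        · rw [hP0]
          simp only [mul_zero, degree_zero]
          exact WithBot.bot_lt_coe _
        refine lt_of_le_of_lt degree_le_natDegree ?_
        have h3 : (C ((S i).eval T) * (X ^ ε * (p * P))).natDegree ≤ ε + (i / 2 + P.natDegree) := by
          refine (natDegree_C_mul_le _ _).trans ?_
          refine natDegree_mul_le.trans (add_le_add ?_ ?_)
          · rw [natDegree_X_pow]
          · exact natDegree_mul_le.trans (add_le_add hpd le_rfl)
        have h4 := (natDegree_lt_iff_degree_lt hP0).2 hPd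
        have h5 : ε + (i / 2 + P.natDegree) < M + 1 := by omega
        exact_mod_cast lt_of_le_of_lt h3 h5
    choose! G hG using h1
    refine ⟨∑ i ∈ range (M + 1) with i % 2 = M % 2, G i, ?_, ?_⟩
    · rw [hQ, Finset.sum_mul, map_sum]
      exact Finset.sum_congr rfl fun i hi => (hG i hi).1
    · refine lt_of_le_of_lt (degree_sum_le _ _) ?_
      rw [Finset.sup_lt_iff (WithBot.bot_lt_coe _)]
      intro i hi
      exact (hG i hi).2
  obtain ⟨G, hG, hGd⟩ := heven
  have hGeval : ∀ x, G.eval (x ^ 2) = Q.eval x * P'.eval x := by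
    intro x
    rw [← expand_eval, ← hG, eval_mul]
  rw [hG, hex G hGd, Finset.sum_eq_zero (fun y hy => by
    have hy0 := (hN y hy).1
    have h1 := hGeval (√y)
    rw [Real.sq_sqrt hy0] at h1
    have h2 : P'.eval (√y) = 0 := by
      rw [hP', eval_mul, eval_pow, eval_X, expand_eval, Real.sq_sqrt hy0]
      have h3 := hPz y hy
      rw [eval_mul, eval_pow, eval_X] at h3
      rcases mul_eq_zero.1 h3 with h4 | h4
      · rcases Nat.eq_zero_or_pos ε with h5 | h5
        · rw [h5, pow_zero] at h4
          exact absurd h4 one_ne_zero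
        · have h6 : y = 0 := eq_zero_of_pow_eq_zero h4
          rw [h6, Real.sqrt_zero, zero_pow h5.ne', zero_mul]
      · rw [h4, mul_zero]
    rw [h1, h2, mul_zero, mul_zero]), zero_add, hGeval, hQT] at hrep
  have h3 : (w (T ^ 2) * D M T - 1) * P'.eval T = 0 := by linear_combination hrep
  rcases mul_eq_zero.1 h3 with h | h
  · rw [eq_div_iff (by
      intro h0
      rw [h0, mul_zero] at h
      norm_num at h)]
    linarith
  · exact absurd h hPT0

theorem D₁_pos (M : ℕ) {T : ℝ} (hT : 2 ≤ T) : 0 < D₁ M T := by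
  unfold D₁
  have h : M ∈ range (M + 1) := by simp
  refine Finset.sum_pos' (fun i _ => sq_nonneg _) ⟨M, h, ?_⟩
  have := (S_mono M hT le_rfl).1.1
  positivity

end Pool.Agent.H2.Quad
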