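import Pool.Agent.H2.Eul
import Pool.Agent.H2.Semi

set_option autoImplicit false

namespace Pool.Agent.H2.Eul

open Finset Complex Filter Topology Pool.Agent.H2.SymDefs

/-- `x ↦ x + 1/x` and its inverse -/
theorem exists_root (y : ℝ) : ∃ a : ℂ, a ≠ 0 ∧ a + a⁻¹ = (y : ℂ) ∧
    ((|y| ≤ 2 ∧ ‖a‖ = 1) ∨ (2 < |y| ∧ a.im = 0 ∧ 1 < ‖a‖ ∧ ‖a‖ ≤ |y|)) := by
  rcases le_or_gt |y| 2 with hy | hy
  · have h4 : 0 ≤ 4 - y ^ 2 := by
      nlinarith [abs_nonneg y, sq_abs y]
    have hs : √(4 - y ^ 2) ^ 2 = 4 - y ^ 2 := Real.sq_sqrt h4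
    set a : ℂ := ⟨y / 2, √(4 - y ^ 2) / 2⟩ with ha
    have hn : normSq a = 1 := by
      rw [normSq_apply, ha]
      simp only []
      nlinarith
    have hn' : ‖a‖ = 1 := by
      have := normSq_eq_norm_sq a
      rw [hn] at this
      have h0 := norm_nonneg a
      nlinarith
    have ha0 : a ≠ 0 := by
      intro h
      rw [h, norm_zero] at hn'
      exact zero_ne_one hn'
    refine ⟨a, ha0, ?_, Or.inl ⟨hy, hn'⟩⟩
    rw [Complex.inv_def, hn]
    apply Complex.ext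
    · simp [ha]
    · simp [ha]
  · have h4 : 0 < y ^ 2 - 4 := by
      nlinarith [abs_nonneg y, sq_abs y]
    set t : ℝ := √(y ^ 2 - 4) with ht
    have hs : t ^ 2 = y ^ 2 - 4 := Real.sq_sqrt h4.le
    have ht0 : 0 < t := Real.sqrt_pos.2 h4
    have hty : t < |y| := by
      apply lt_of_pow_lt_pow_left₀ 2 (abs_nonneg y)
      rw [sq_abs, hs]
      linarith
    have key : ∀ z : ℝ, 2 < z → t ^ 2 = z ^ 2 - 4 → t < z → ∃ b : ℝ, 1 < b ∧ b ≤ z ∧ b + b⁻¹ = z := by
      intro z hz hz2 htz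
      refine ⟨(z + t) / 2, by linarith, by linarith, ?_⟩
      have h0 : (z + t) / 2 ≠ 0 := by positivity
      field_simp
      nlinarith
    obtain ⟨b, hb1, hby, hb⟩ := key |y| hy (by rw [sq_abs]; exact hs) hty
    have hb0 : b ≠ 0 := by linarith
    rcases abs_choice y with h | h
    · refine ⟨(b : ℂ), by exact_mod_cast hb0, ?_, Or.inr ⟨hy, ofReal_im b, ?_, ?_⟩⟩
      · rw [← ofReal_inv, ← ofReal_add, hb, h]
      · rw [norm_real, Real.norm_of_nonneg (by linarith)]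
        exact hb1
      · rw [norm_real, Real.norm_of_nonneg (by linarith)]
        exact hby
    · refine ⟨((-b : ℝ) : ℂ), by
        rw [ofReal_ne_zero]
        exact neg_ne_zero.2 hb0, ?_, Or.inr ⟨hy, ofReal_im _, ?_, ?_⟩⟩
      · rw [← ofReal_inv, ← ofReal_add, inv_neg, ← neg_add, hb, h, neg_neg]
      · rw [norm_real, norm_neg, Real.norm_of_nonneg (by linarith)]
        exact hb1
      · rw [norm_real, norm_neg, Real.norm_of_nonneg (by linarith)]
        exact hby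

theorem tr_eq_range (a : ℂ) (i : ℕ) : tr a i = ∑ l ∈ range (i + 1), a ^ ((i : ℤ) - 2 * (l : ℤ)) := by
  unfold tr eig
  exact Fin.sum_univ_eq_sum_range (fun l => a ^ ((i : ℤ) - 2 * (l : ℤ))) (i + 1)

theorem tr_rec {a : ℂ} (ha : a ≠ 0) (i : ℕ) : tr a (i + 2) = (a + a⁻¹) * tr a (i + 1) - tr a i := by
  rw [tr_eq_range, tr_eq_range, tr_eq_range, add_mul, Finset.mul_sum, Finset.mul_sum]
  have h1 : ∀ l ∈ range (i + 1 + 1), a * a ^ (((i + 1 : ℕ) : ℤ) - 2 * (l : ℤ)) = a ^ (((i + 2 : ℕ) : ℤ) - 2 * (l : ℤ)) := by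
    intro l _
    rw [← zpow_one_add₀ ha]
    congr 1
    push_cast
    ring
  have h2 : ∀ l ∈ range (i + 1 + 1), a⁻¹ * a ^ (((i + 1 : ℕ) : ℤ) - 2 * (l : ℤ)) = a ^ ((i : ℤ) - 2 * (l : ℤ)) := by
    intro l _
    rw [← zpow_neg_one, ← zpow_add₀ ha]
    congr 1
    push_cast
    ring
  rw [Finset.sum_congr rfl h1, Finset.sum_congr rfl h2, Finset.sum_range_succ _ (i + 2),
    Finset.sum_range_succ (fun l : ℕ => a ^ ((i : ℤ) - 2 * (l : ℤ))) (i + 1)]
  have h3 : a ^ (((i + 2 : ℕ) : ℤ) - 2 * ((i + 2 : ℕ) : ℤ)) = a ^ ((i : ℤ) - 2 * ((i + 1 : ℕ) : ℤ)) := by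
    congr 1
    push_cast
    ring
  rw [h3]
  ring

theorem tr_eq {a : ℂ} (ha : a ≠ 0) {y : ℝ} (hy : a + a⁻¹ = (y : ℂ)) (i : ℕ) :
    tr a i = (((Quad.S i).eval y : ℝ) : ℂ) := by
  induction i using Nat.twoStepInduction with
  | zero =>
    rw [Quad.S_zero, tr_eq_range]
    simp
  | one =>
    rw [Quad.S_one, tr_eq_range]
    simp only [Finset.sum_range_succ, Finset.sum_range_zero, Polynomial.eval_X]
    rw [← hy]
    simp only [Nat.cast_one, Nat.cast_zero, mul_zero, sub_zero, zpow_one, mul_one, zero_add]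
    norm_num
  | more n ih1 ih2 =>
    rw [tr_rec ha, ih1, ih2, Quad.S_succ_succ, hy]
    simp

theorem norm_eig {a : ℂ} (ha : 1 ≤ ‖a‖) {M i : ℕ} (hi : i ≤ M) (l : Fin (i + 1)) : ‖eig a i l‖ ≤ ‖a‖ ^ M := by
  unfold eig
  rw [norm_zpow, ← zpow_natCast]
  apply zpow_le_zpow_right₀ ha
  have := l.2
  omega

/-- the sum of the parameters of `τ` at `p` -/
noncomputable def coef (τ : EulerProduct) (p : Nat.Primes) : ℂ := ∑ m, τ.β p m

theorem norm_coef (τ : EulerProduct) (p : Nat.Primes) : ‖coef τ p‖ ≤ τ.deg := by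
  unfold coef
  refine (norm_sum_le _ _).trans ?_
  refine (Finset.sum_le_sum fun m _ => τ.norm_le p m).trans ?_
  simp

theorem tau_series (τ : EulerProduct) : ∃ R : ℂ → ℂ, DifferentiableOn ℂ R {s | 1 / 2 < s.re} ∧
    ∀ s : ℂ, 1 < s.re → ∃ ℓ : ℂ, HasSum (fun p => coef τ p * ((p : ℕ) : ℂ) ^ (-s)) ℓ ∧
      HasProd (fun p => τ.factor s p) (exp (R s + ℓ)) := by
  have h2 : (2 : ℝ) ^ (-(1 / 2) : ℝ) ≤ 3 / 4 := by
    rw [Real.rpow_neg (by norm_num), ← Real.sqrt_eq_rpow]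
    rw [inv_le_comm₀ (by positivity) (by norm_num)]
    apply Real.le_sqrt_of_sq_le
    norm_num
  have hp2 : ∀ p : Nat.Primes, ((p : ℕ) : ℝ) ^ (-(1 / 2) : ℝ) ≤ 3 / 4 := by
    intro p
    refine le_trans ?_ h2
    apply Real.rpow_le_rpow_of_nonpos (by norm_num) (by exact_mod_cast p.2.two_le) (by norm_num)
  obtain ⟨R, hR, hRs⟩ := euler τ.β 1 (3 / 4) τ.norm_le (by norm_num) (by
    intro p m
    have := τ.norm_le p m
    have h0 : 0 ≤ ((p : ℕ) : ℝ) ^ (-(1 / 2) : ℝ) := by positivity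
    calc ‖τ.β p m‖ * ((p : ℕ) : ℝ) ^ (-(1 / 2) : ℝ) ≤ 1 * (3 / 4) := mul_le_mul this (hp2 p) h0 zero_le_one
      _ = 3 / 4 := one_mul _)
  refine ⟨R, hR, fun s hs => ?_⟩
  have hsum : Summable fun p : Nat.Primes => coef τ p * ((p : ℕ) : ℂ) ^ (-s) := by
    apply Summable.of_norm_bounded (g := fun p : Nat.Primes => (τ.deg : ℝ) * ((p : ℕ) : ℝ) ^ (-s.re))
    · apply Summable.mul_left
      rw [Nat.Primes.summable_rpow]
      linarith
    · intro p
      rw [norm_mul, norm_p]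
      exact mul_le_mul_of_nonneg_right (norm_coef τ p) (by positivity)
  refine ⟨_, hsum.hasSum, ?_⟩
  have h3 := ((hRs s (by linarith)).add hsum.hasSum).cexp
  convert h3 using 1
  funext p
  rw [Function.comp_apply, coef, Finset.sum_mul, ← Finset.sum_add_distrib, Complex.exp_sum]
  unfold EulerProduct.factor
  refine Finset.prod_congr rfl fun m _ => ?_
  rw [sub_add_cancel, exp_neg, exp_log]
  intro h
  have h4 : ‖τ.β p m * ((p : ℕ) : ℂ) ^ (-s)‖ < 1 := by
    rw [norm_mul, norm_p]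
    have h5 : ((p : ℕ) : ℝ) ^ (-s.re) < 1 := Real.rpow_lt_one_of_one_lt_of_neg (by exact_mod_cast p.2.one_lt) (by linarith)
    have h6 : 0 ≤ ((p : ℕ) : ℝ) ^ (-s.re) := by positivity
    nlinarith [τ.norm_le p m, norm_nonneg (τ.β p m)]
  rw [← sub_eq_zero.1 h, norm_one] at h4
  exact lt_irrefl _ h4

/-- the Euler products of the symmetric powers -/
theorem main_euler (α : Nat.Primes → ℂ) (τ : EulerProduct) {M i j : ℕ} (hi : i ≤ M) (hj : j ≤ M) (B C : ℝ)
    (h1 : ∀ p, 1 ≤ ‖α p‖) (hB : ∀ p, ‖α p‖ ^ (2 * M) ≤ B)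
    (hκ : ∀ p, ‖α p‖ ^ (2 * M) * ((p : ℕ) : ℝ) ^ (-(1 / 2) : ℝ) ≤ 3 / 4)
    (hC : ∀ x : ℕ, ‖∑ p ∈ primesLE x, (tr (α p) i * tr (α p) j - if i = j then 1 else 0) * coef τ p‖ ≤ C * √x) :
    ∃ h : ℂ → ℂ, DifferentiableOn ℂ h {s | 1 / 2 < s.re} ∧ ∀ s : ℂ, 1 < s.re →
      HasProd (factor α i j τ s) ((if i = j then ∏' p, τ.factor s p else 1) * exp (h s)) := by
  set Z : Nat.Primes → Fin (i + 1) × Fin (j + 1) × Fin τ.deg → ℂ := fun p k =>
    eig (α p) i k.1 * eig (α p) j k.2.1 * τ.β p k.2.2 with hZ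
  have hZn : ∀ p k, ‖Z p k‖ ≤ ‖α p‖ ^ (2 * M) := by
    intro p k
    rw [hZ]
    simp only [norm_mul]
    rw [two_mul, pow_add]
    have h3 := norm_eig (h1 p) hi k.1
    have h4 := norm_eig (h1 p) hj k.2.1
    have h5 := τ.norm_le p k.2.2
    calc _ ≤ ‖α p‖ ^ M * ‖α p‖ ^ M * 1 := by gcongr
      _ = _ := mul_one _
  have hZB : ∀ p k, ‖Z p k‖ ≤ B := fun p k => (hZn p k).trans (hB p)
  have hZκ : ∀ p k, ‖Z p k‖ * ((p : ℕ) : ℝ) ^ (-(1 / 2) : ℝ) ≤ 3 / 4 := fun p k =>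
    (mul_le_mul_of_nonneg_right (hZn p k) (by positivity)).trans (hκ p)
  obtain ⟨R, hR, hRs⟩ := euler Z B (3 / 4) hZB (by norm_num) hZκ
  have hsumZ : ∀ p, ∑ k, Z p k = tr (α p) i * tr (α p) j * coef τ p := by
    intro p
    rw [Fintype.sum_prod_type]
    simp only [Fintype.sum_prod_type, hZ]
    unfold tr coef
    rw [Finset.sum_mul_sum, Finset.sum_mul]
    refine Finset.sum_congr rfl fun k _ => ?_
    rw [Finset.sum_mul]
    refine Finset.sum_congr rfl fun l _ => ?_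
    rw [Finset.mul_sum]
  have htr : ∀ p, ∀ i ≤ M, ‖tr (α p) i‖ ≤ (M + 1 : ℝ) * ‖α p‖ ^ M := by
    intro p i hi
    unfold tr
    refine (norm_sum_le _ _).trans ?_
    refine (Finset.sum_le_sum fun m _ => norm_eig (h1 p) hi m).trans ?_
    rw [Finset.sum_const, Finset.card_univ, Fintype.card_fin, nsmul_eq_mul]
    have : ((i + 1 : ℕ) : ℝ) ≤ (M + 1 : ℝ) := by
      push_cast
      have : (i : ℝ) ≤ M := by exact_mod_cast hi
      linarith
    exact mul_le_mul_of_nonneg_right this (by positivity)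
  obtain ⟨g, hg, hgs⟩ := prime_series (fun p => (tr (α p) i * tr (α p) j - if i = j then 1 else 0) * coef τ p)
    (((M + 1 : ℝ) ^ 2 * B + 1) * τ.deg) C (by
      intro p
      rw [norm_mul]
      apply mul_le_mul _ (norm_coef τ p) (norm_nonneg _)
      · have : 0 ≤ B := (by positivity : 0 ≤ ‖α p‖ ^ (2 * M)).trans (hB p)
        positivity
      · refine (norm_sub_le _ _).trans ?_
        apply add_le_add
        · rw [norm_mul]
          have h6 : 0 ≤ (M + 1 : ℝ) * ‖α p‖ ^ M := by positivity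
          calc ‖tr (α p) i‖ * ‖tr (α p) j‖ ≤ ((M + 1 : ℝ) * ‖α p‖ ^ M) * ((M + 1 : ℝ) * ‖α p‖ ^ M) :=
                mul_le_mul (htr p i hi) (htr p j hj) (norm_nonneg _) h6
            _ = (M + 1 : ℝ) ^ 2 * ‖α p‖ ^ (2 * M) := by rw [two_mul, pow_add]; ring
            _ ≤ _ := mul_le_mul_of_nonneg_left (hB p) (by positivity)
        · split_ifs <;> simp) hC
  obtain ⟨Rτ, hRτ, hτ⟩ := tau_series τ
  refine ⟨fun s => R s + g s - (if i = j then Rτ s else 0), ?_, ?_⟩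
  · apply (hR.add hg).sub
    by_cases hij : i = j
    · simpa only [hij, if_true] using hRτ
    · simp only [hij, if_false]
      exact differentiableOn_const 0
  · intro s hs
    obtain ⟨ℓ, hℓ, hprod⟩ := hτ s hs
    have h7 : HasSum (fun p => (tr (α p) i * tr (α p) j) * coef τ p * ((p : ℕ) : ℂ) ^ (-s))
        (g s + (if i = j then ℓ else 0)) := by
      have h8 := (hgs s hs).add (hℓ.mul_left (if i = j then 1 else 0))
      convert h8 using 1
      · funext p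
        ring
      · split_ifs <;> ring
    have h9 := ((hRs s (by linarith)).add h7).cexp
    have h10 : (if i = j then ∏' p, τ.factor s p else 1) * exp (R s + g s - (if i = j then Rτ s else 0)) =
        exp (R s + (g s + if i = j then ℓ else 0)) := by
      by_cases hij : i = j
      · simp only [hij, if_true]
        rw [hprod.tprod_eq, ← exp_add]
        congr 1
        ring
      · simp only [hij, if_false]
        rw [one_mul, sub_zero, add_zero]
    rw [h10]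
    convert h9 using 1
    funext p
    rw [Function.comp_apply, ← hsumZ, Finset.sum_mul, ← Finset.sum_add_distrib, Complex.exp_sum]
    unfold factor
    have h11 : ∀ k : Fin (i + 1) × Fin (j + 1) × Fin τ.deg,
        exp (-log (1 - Z p k * ((p : ℕ) : ℂ) ^ (-s)) - Z p k * ((p : ℕ) : ℂ) ^ (-s) + Z p k * ((p : ℕ) : ℂ) ^ (-s)) =
        (1 - Z p k * ((p : ℕ) : ℂ) ^ (-s))⁻¹ := by
      intro k
      rw [sub_add_cancel, exp_neg, exp_log]
      intro h
      have h12 : ‖Z p k * ((p : ℕ) : ℂ) ^ (-s)‖ < 1 := by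
        rw [norm_mul, norm_p]
        have h13 := mul_le_mul_of_nonneg_left (p_le (p := p) (σ := 1 / 2) (τ := s.re) (by linarith))
          (norm_nonneg (Z p k))
        have h14 := hZκ p k
        linarith
      rw [← sub_eq_zero.1 h, norm_one] at h12
      exact lt_irrefl _ h12
    rw [Finset.prod_congr rfl fun k _ => h11 k, Fintype.prod_prod_type]
    simp only [Fintype.prod_prod_type, hZ]

end Pool.Agent.H2.Eul
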