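import Pool.Agent.H2.GLnDefs
import Pool.Agent.H2.Nice

set_option autoImplicit false

namespace Pool.Agent.H2.GLn

open Finset Complex Filter Topology Pool.Agent.H2.SymDefs Pool.Agent.H2.Eul

theorem euler' (F : Nat.Primes → ℂ → ℂ) (σ₀ : ℝ) (W : Nat.Primes → ℝ) (hW : Summable W)
    (hd : ∀ p, DifferentiableOn ℂ (F p) {s | σ₀ < s.re}) (hb : ∀ p, ∀ s : ℂ, σ₀ < s.re → ‖F p s‖ ≤ W p) :
    ∃ R : ℂ → ℂ, DifferentiableOn ℂ R {s | σ₀ < s.re} ∧ ∀ s : ℂ, σ₀ < s.re → HasSum (fun p => F p s) (R s) := by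
  refine ⟨fun s => ∑' p, F p s, ?_, ?_⟩
  · apply differentiableOn_tsum_of_summable_norm hW hd (isOpen_lt continuous_const continuous_re)
    intro p s hs
    exact hb p s hs
  · intro s hs
    exact (Summable.of_norm_bounded hW fun p => hb p s hs).hasSum

theorem logTaylor_neg (z : ℂ) {m : ℕ} (hm : 2 ≤ m) : logTaylor m (-z) = -(z + ∑ k ∈ Ico 2 m, z ^ k / k) := by
  induction m, hm using Nat.le_induction with
  | base =>
    rw [logTaylor]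
    simp [Finset.sum_range_succ]
  | succ m hm ih =>
    rw [logTaylor_succ, Finset.sum_Ico_succ_top hm]
    simp only [Pi.add_apply]
    rw [ih]
    have h1 : (-1 : ℂ) ^ (m + 1) * (-z) ^ m = -z ^ m := by
      rw [neg_pow z, pow_succ]
      have : (-1 : ℂ) ^ m * (-1 : ℂ) ^ m = 1 := by
        rw [← mul_pow]
        simp
      linear_combination (-z ^ m) * this
    rw [h1]
    ring

theorem log_one (z : ℂ) (hz : ‖z‖ < 1) {m : ℕ} (hm : 2 ≤ m) :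
    ‖-log (1 - z) - z - ∑ k ∈ Ico 2 m, z ^ k / k‖ ≤ ‖z‖ ^ m * (1 - ‖z‖)⁻¹ := by
  have h1 := norm_log_sub_logTaylor_le (m - 1) (z := -z) (by rwa [norm_neg])
  rw [Nat.sub_add_cancel (by omega), logTaylor_neg z hm, norm_neg] at h1
  have h2 : ‖-log (1 - z) - z - ∑ k ∈ Ico 2 m, z ^ k / k‖ = ‖log (1 + -z) - -(z + ∑ k ∈ Ico 2 m, z ^ k / k)‖ := by
    rw [show log (1 + -z) - -(z + ∑ k ∈ Ico 2 m, z ^ k / k) = -(-log (1 - z) - z - ∑ k ∈ Ico 2 m, z ^ k / k) by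
      rw [← sub_eq_add_neg]; ring, norm_neg]
  rw [h2]
  refine h1.trans ?_
  apply div_le_self
  · have : 0 ≤ (1 - ‖z‖)⁻¹ := inv_nonneg.2 (by linarith)
    positivity
  · have : (0 : ℝ) ≤ ((m - 1 : ℕ) : ℝ) := Nat.cast_nonneg _
    linarith

theorem log_bound {ν : Type} [Fintype ν] (z : ν → ℂ) {m : ℕ} (hm : 2 ≤ m) {ρ κ : ℝ} (hκ : κ < 1) (hρ : ρ ≤ κ)
    (hz : ∀ i, ‖z i‖ ≤ ρ) :
    ‖∑ i, (-log (1 - z i) - z i)‖ ≤ ∑ k ∈ Ico 2 m, ‖∑ i, z i ^ k‖ + Fintype.card ν * (ρ ^ m * (1 - κ)⁻¹) := by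
  have h1 : ∑ i, (-log (1 - z i) - z i) = ∑ k ∈ Ico 2 m, (∑ i, z i ^ k) / k +
      ∑ i, (-log (1 - z i) - z i - ∑ k ∈ Ico 2 m, z i ^ k / k) := by
    have h2 : ∑ k ∈ Ico 2 m, (∑ i, z i ^ k) / k = ∑ i, ∑ k ∈ Ico 2 m, z i ^ k / k := by
      rw [Finset.sum_comm]
      refine Finset.sum_congr rfl fun k _ => ?_
      rw [Finset.sum_div]
    rw [h2, ← Finset.sum_add_distrib]
    refine Finset.sum_congr rfl fun i _ => ?_
    ring
  rw [h1]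
  refine (norm_add_le _ _).trans (add_le_add ?_ ?_)
  · refine (norm_sum_le _ _).trans (Finset.sum_le_sum fun k hk => ?_)
    rw [norm_div, Complex.norm_natCast]
    apply div_le_self (norm_nonneg _)
    have := (Finset.mem_Ico.1 hk).1
    have h3 : 1 ≤ k := by omega
    exact_mod_cast h3
  · refine (norm_sum_le _ _).trans ?_
    have h2 : ∀ i ∈ (univ : Finset ν), ‖-log (1 - z i) - z i - ∑ k ∈ Ico 2 m, z i ^ k / k‖ ≤ ρ ^ m * (1 - κ)⁻¹ := by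
      intro i _
      have h3 : ‖z i‖ < 1 := lt_of_le_of_lt ((hz i).trans hρ) hκ
      refine (log_one (z i) h3 hm).trans ?_
      apply mul_le_mul (pow_le_pow_left₀ (norm_nonneg _) (hz i) m)
      · apply inv_anti₀ (by linarith)
        linarith [hz i]
      · exact inv_nonneg.2 (by linarith)
      · exact pow_nonneg ((norm_nonneg _).trans (hz i)) m
    refine (Finset.sum_le_sum h2).trans ?_
    rw [Finset.sum_const, Finset.card_univ, nsmul_eq_mul]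

theorem tensor_euler {ν : Type} [Fintype ν] (V : Nat.Primes → ν → ℂ) (τ : EulerProduct) {m : ℕ} (hm : 2 ≤ m)
    (R : Nat.Primes → ℝ) {σ₀ κ C : ℝ} (hκ : κ < 1)
    (hV : ∀ p i, ‖V p i‖ ≤ R p ^ 2) (hVκ : ∀ p, R p ^ 2 * ((p : ℕ) : ℝ) ^ (-σ₀) ≤ κ)
    (hP : ∀ p k, 2 ≤ k → k < m → ‖∑ i, V p i ^ k‖ ≤ C * R p ^ (2 * (k - 1)))
    (hs1 : Summable fun p : Nat.Primes => (R p ^ 2 * ((p : ℕ) : ℝ) ^ (-σ₀)) ^ m)
    (hs2 : ∀ k, 2 ≤ k → k < m → Summable fun p : Nat.Primes => R p ^ (2 * (k - 1)) * (((p : ℕ) : ℝ) ^ (-σ₀)) ^ k) :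
    (∀ s : ℂ, σ₀ < s.re → ∀ p, ∀ k : ν × Fin τ.deg, ‖V p k.1 * τ.β p k.2 * ((p : ℕ) : ℂ) ^ (-s)‖ < 1) ∧
    ∃ G : ℂ → ℂ, DifferentiableOn ℂ G {s | σ₀ < s.re} ∧ ∀ s : ℂ, σ₀ < s.re →
      HasSum (fun p => ∑ k : ν × Fin τ.deg, (-log (1 - V p k.1 * τ.β p k.2 * ((p : ℕ) : ℂ) ^ (-s)) -
        V p k.1 * τ.β p k.2 * ((p : ℕ) : ℂ) ^ (-s))) (G s) := by
  have hz : ∀ s : ℂ, σ₀ < s.re → ∀ p, ∀ k : ν × Fin τ.deg,
      ‖V p k.1 * τ.β p k.2 * ((p : ℕ) : ℂ) ^ (-s)‖ ≤ R p ^ 2 * ((p : ℕ) : ℝ) ^ (-σ₀) := by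
    intro s hs p k
    rw [norm_mul, norm_mul, norm_p]
    have h1 := hV p k.1
    have h2 := τ.norm_le p k.2
    have h3 : ((p : ℕ) : ℝ) ^ (-s.re) ≤ ((p : ℕ) : ℝ) ^ (-σ₀) := p_le hs.le
    have h4 : 0 ≤ ((p : ℕ) : ℝ) ^ (-s.re) := by positivity
    calc ‖V p k.1‖ * ‖τ.β p k.2‖ * ((p : ℕ) : ℝ) ^ (-s.re) ≤ R p ^ 2 * 1 * ((p : ℕ) : ℝ) ^ (-σ₀) := by gcongr
      _ = _ := by rw [mul_one]
  have hlt : ∀ s : ℂ, σ₀ < s.re → ∀ p, ∀ k : ν × Fin τ.deg,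
      ‖V p k.1 * τ.β p k.2 * ((p : ℕ) : ℂ) ^ (-s)‖ < 1 := fun s hs p k =>
    lt_of_le_of_lt ((hz s hs p k).trans (hVκ p)) hκ
  refine ⟨hlt, ?_⟩
  set W : Nat.Primes → ℝ := fun p => ∑ k ∈ Ico 2 m, C * τ.deg * (R p ^ (2 * (k - 1)) * (((p : ℕ) : ℝ) ^ (-σ₀)) ^ k) +
    Fintype.card (ν × Fin τ.deg) * ((R p ^ 2 * ((p : ℕ) : ℝ) ^ (-σ₀)) ^ m * (1 - κ)⁻¹) with hW
  apply euler' _ σ₀ W
  · apply Summable.add
    · apply summable_sum
      intro k hk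
      rw [Finset.mem_Ico] at hk
      exact (hs2 k hk.1 hk.2).mul_left _
    · exact (hs1.mul_right _).mul_left _
  · intro p
    have hp0 : ((p : ℕ) : ℂ) ≠ 0 := by exact_mod_cast p.2.ne_zero
    have h1 : Differentiable ℂ fun s : ℂ => ((p : ℕ) : ℂ) ^ (-s) := by
      intro s
      exact DifferentiableAt.const_cpow differentiableAt_id.neg (Or.inl hp0)
    intro s hs
    apply DifferentiableAt.differentiableWithinAt
    apply DifferentiableAt.fun_sum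
    intro k _
    apply DifferentiableAt.sub
    · apply DifferentiableAt.neg
      apply DifferentiableAt.clog
      · exact (differentiableAt_const _).sub ((differentiableAt_const _).mul (h1 s))
      · rw [sub_eq_add_neg]
        apply mem_slitPlane_of_norm_lt_one
        rw [norm_neg]
        exact hlt s hs p k
    · exact (differentiableAt_const _).mul (h1 s)
  · intro p s hs
    refine (log_bound (fun k : ν × Fin τ.deg => V p k.1 * τ.β p k.2 * ((p : ℕ) : ℂ) ^ (-s)) hm hκ (hVκ p)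
      (hz s hs p)).trans ?_
    rw [hW]
    simp only []
    apply add_le_add_left
    refine Finset.sum_le_sum fun k hk => ?_
    rw [Finset.mem_Ico] at hk
    have h2 : ∑ i : ν × Fin τ.deg, (V p i.1 * τ.β p i.2 * ((p : ℕ) : ℂ) ^ (-s)) ^ k =
        (∑ i, V p i ^ k) * (∑ l, τ.β p l ^ k) * (((p : ℕ) : ℂ) ^ (-s)) ^ k := by
      rw [Fintype.sum_prod_type, Finset.sum_mul_sum, Finset.sum_mul]
      refine Finset.sum_congr rfl fun i _ => ?_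
      rw [Finset.sum_mul]
      refine Finset.sum_congr rfl fun l _ => ?_
      rw [mul_pow, mul_pow]
    have h3 : ‖∑ l, τ.β p l ^ k‖ ≤ τ.deg := by
      refine (norm_sum_le _ _).trans ?_
      have : ∀ l ∈ (univ : Finset (Fin τ.deg)), ‖τ.β p l ^ k‖ ≤ 1 := by
        intro l _
        rw [norm_pow]
        exact pow_le_one₀ (norm_nonneg _) (τ.norm_le p l)
      refine (Finset.sum_le_sum this).trans ?_
      simp
    rw [h2, norm_mul, norm_mul, norm_pow, norm_p]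
    have h4 : ((p : ℕ) : ℝ) ^ (-s.re) ≤ ((p : ℕ) : ℝ) ^ (-σ₀) := p_le hs.le
    have h5 : 0 ≤ ((p : ℕ) : ℝ) ^ (-s.re) := by positivity
    have h6 := hP p k hk.1 hk.2
    have h7 : 0 ≤ C * R p ^ (2 * (k - 1)) := (norm_nonneg _).trans h6
    calc ‖∑ i, V p i ^ k‖ * ‖∑ l, τ.β p l ^ k‖ * (((p : ℕ) : ℝ) ^ (-s.re)) ^ k ≤
        (C * R p ^ (2 * (k - 1))) * τ.deg * (((p : ℕ) : ℝ) ^ (-σ₀)) ^ k := by gcongr
      _ = _ := by ring

theorem prod_of_sums {ν : Type} [Fintype ν] (V : Nat.Primes → ν → ℂ) (τ : EulerProduct) (s : ℂ) {g ℓ : ℂ}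
    (hlt : ∀ p, ∀ k : ν × Fin τ.deg, ‖V p k.1 * τ.β p k.2 * ((p : ℕ) : ℂ) ^ (-s)‖ < 1)
    (h1 : HasSum (fun p => ∑ k : ν × Fin τ.deg, (-log (1 - V p k.1 * τ.β p k.2 * ((p : ℕ) : ℂ) ^ (-s)) -
        V p k.1 * τ.β p k.2 * ((p : ℕ) : ℂ) ^ (-s))) g)
    (h2 : HasSum (fun p => (∑ i, V p i) * coef τ p * ((p : ℕ) : ℂ) ^ (-s)) ℓ) :
    HasProd (factor V τ s) (exp (g + ℓ)) := by
  have h3 := (h1.add h2).cexp
  convert h3 using 1
  funext p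
  have h4 : (∑ i, V p i) * coef τ p * ((p : ℕ) : ℂ) ^ (-s) =
      ∑ k : ν × Fin τ.deg, V p k.1 * τ.β p k.2 * ((p : ℕ) : ℂ) ^ (-s) := by
    unfold coef
    rw [Fintype.sum_prod_type, Finset.sum_mul_sum, Finset.sum_mul]
    refine Finset.sum_congr rfl fun i _ => ?_
    rw [Finset.sum_mul]
  rw [Function.comp_apply, h4, ← Finset.sum_add_distrib, Complex.exp_sum, Fintype.prod_prod_type]
  unfold factor
  refine Finset.prod_congr rfl fun i _ => Finset.prod_congr rfl fun l _ => ?_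
  rw [sub_add_cancel, exp_neg, exp_log]
  intro h
  have h5 := hlt p (i, l)
  simp only [] at h5
  rw [← sub_eq_zero.1 h, norm_one] at h5
  exact lt_irrefl _ h5

end Pool.Agent.H2.GLn
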