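import Pool.Agent.H2.GLnLoc

set_option autoImplicit false

namespace Pool.Agent.H2.GLn

open Finset Complex ComplexConjugate

/-- parameters of size `R` with bounded trace and small power sums -/
theorem block (n : ℕ) (hn : 4 ≤ n) : ∃ C : ℝ, 1 ≤ C ∧ ∀ R : ℝ, 1 ≤ R → ∃ A : Fin n → ℂ,
    (∃ σ : Equiv.Perm (Fin n), ∀ i, A (σ i) * conj (A i) = 1) ∧ SelfDual A ∧
    (∃ i, ‖A i‖ = R) ∧ (∀ i, ‖A i‖ ≤ R) ∧ ∑ i, A i = 1 ∧
    ∀ k, 2 ≤ k → k < n / 2 → ‖∑ i, A i ^ k‖ ≤ C * R ^ (k - 1) := by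
  obtain ⟨C, hC0, hC⟩ := units (n / 2) (by omega)
  refine ⟨2 * C + 1, by linarith, fun R hR => ?_⟩
  have hR0 : 0 < R := by linarith
  have hRi : 0 < R⁻¹ := inv_pos.2 hR0
  have hRi1 : R⁻¹ ≤ 1 := inv_le_one_of_one_le₀ hR
  have hR2 : 2 ≤ R + R⁻¹ := by
    have h1 : R * R⁻¹ = 1 := mul_inv_cancel₀ hR0.ne'
    nlinarith [sq_nonneg (R - R⁻¹)]
  set ε : ℝ := if n % 2 = 0 then (R + R⁻¹)⁻¹ else 0 with hε
  have hε0 : 0 ≤ ε := by
    rw [hε]
    split_ifs <;> positivity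
  have hε1 : ε ≤ 1 / 2 := by
    rw [hε]
    split_ifs
    · rw [one_div]
      exact inv_anti₀ (by norm_num) hR2
    · norm_num
  have hεR : ε ≤ R⁻¹ := by
    rw [hε]
    split_ifs
    · exact inv_anti₀ hR0 (by linarith)
    · exact hRi.le
  have hεt : (R + R⁻¹) * ε + (n % 2 : ℕ) = 1 := by
    rw [hε]
    split_ifs with h
    · rw [h, mul_inv_cancel₀ (by linarith)]
      simp
    · have : n % 2 = 1 := by omega
      rw [this]
      simp
  obtain ⟨β, hβ1, hβ2, hβ3, hβ4⟩ := hC ε hε0 hε1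
  let B : (Fin (n / 2) × Bool) ⊕ Fin (n % 2) → ℂ :=
    Sum.elim (fun t => if t.2 then (R : ℂ) * β t.1 else ((R⁻¹ : ℝ) : ℂ) * β t.1) (fun _ => 1)
  have hBt : ∀ j, B (Sum.inl (j, true)) = (R : ℂ) * β j := fun j => rfl
  have hBf : ∀ j, B (Sum.inl (j, false)) = ((R⁻¹ : ℝ) : ℂ) * β j := fun j => rfl
  have hBr : ∀ j, B (Sum.inr j) = 1 := fun j => rfl
  have hRR : (R : ℂ) * ((R⁻¹ : ℝ) : ℂ) = 1 := by
    rw [← ofReal_mul, mul_inv_cancel₀ hR0.ne', ofReal_one]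
  have hββ : ∀ j, β j * conj (β j) = 1 := by
    intro j
    rw [mul_conj, normSq_eq_norm_sq, hβ1]
    simp
  have hsum : ∀ k : ℕ, ∑ x, B x ^ k = ((R ^ k + R⁻¹ ^ k : ℝ) : ℂ) * ∑ j, β j ^ k + (n % 2 : ℕ) := by
    intro k
    rw [Fintype.sum_sum_type, Fintype.sum_prod_type]
    simp only [Fintype.sum_bool, hBt, hBf, hBr, one_pow]
    rw [Finset.sum_const, Finset.card_univ, Fintype.card_fin, nsmul_eq_mul, mul_one, Finset.mul_sum]
    congr 1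
    refine Finset.sum_congr rfl fun j _ => ?_
    rw [mul_pow, mul_pow]
    push_cast
    ring
  have hcard : Fintype.card ((Fin (n / 2) × Bool) ⊕ Fin (n % 2)) = n := by
    rw [Fintype.card_sum, Fintype.card_prod, Fintype.card_fin, Fintype.card_bool, Fintype.card_fin]
    omega
  let e : Fin n ≃ (Fin (n / 2) × Bool) ⊕ Fin (n % 2) := (Fintype.equivFinOfCardEq hcard).symm
  have hnorm : ∀ x, ‖B x‖ ≤ R := by
    rintro (⟨j, b⟩ | j)
    · cases b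
      · rw [hBf, norm_mul, hβ1, mul_one, norm_real, Real.norm_of_nonneg hRi.le]
        linarith
      · rw [hBt, norm_mul, hβ1, mul_one, norm_real, Real.norm_of_nonneg hR0.le]
    · rw [hBr, norm_one]
      exact hR
  refine ⟨fun i => B (e i), ⟨?_, ?_⟩, ⟨?_, ?_⟩, ?_, fun i => hnorm _, ?_, ?_⟩
  · exact e.trans ((Equiv.sumCongr (Equiv.prodCongr (Equiv.refl _) Equiv.boolNot) (Equiv.refl _)).trans e.symm)
  · intro i
    simp only [Equiv.trans_apply, Equiv.apply_symm_apply]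
    rcases e i with ⟨j, b⟩ | j
    · cases b
      · show (R : ℂ) * β j * conj (((R⁻¹ : ℝ) : ℂ) * β j) = 1
        rw [map_mul, conj_ofReal]
        calc (R : ℂ) * β j * (((R⁻¹ : ℝ) : ℂ) * conj (β j)) = ((R : ℂ) * ((R⁻¹ : ℝ) : ℂ)) * (β j * conj (β j)) := by ring
          _ = 1 := by rw [hRR, hββ, one_mul]
      · show ((R⁻¹ : ℝ) : ℂ) * β j * conj ((R : ℂ) * β j) = 1
        rw [map_mul, conj_ofReal]
        calc ((R⁻¹ : ℝ) : ℂ) * β j * ((R : ℂ) * conj (β j)) = ((R : ℂ) * ((R⁻¹ : ℝ) : ℂ)) * (β j * conj (β j)) := by ring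
          _ = 1 := by rw [hRR, hββ, one_mul]
    · show (1 : ℂ) * conj (1 : ℂ) = 1
      simp
  · exact e.trans ((Equiv.sumCongr (Equiv.prodCongr Fin.revPerm Equiv.boolNot) (Equiv.refl _)).trans e.symm)
  · intro i
    simp only [Equiv.trans_apply, Equiv.apply_symm_apply]
    rcases e i with ⟨j, b⟩ | j
    · cases b
      · show (R : ℂ) * β j.rev * (((R⁻¹ : ℝ) : ℂ) * β j) = 1
        rw [hβ2]
        calc (R : ℂ) * conj (β j) * (((R⁻¹ : ℝ) : ℂ) * β j) = ((R : ℂ) * ((R⁻¹ : ℝ) : ℂ)) * (β j * conj (β j)) := by ring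
          _ = 1 := by rw [hRR, hββ, one_mul]
      · show ((R⁻¹ : ℝ) : ℂ) * β j.rev * ((R : ℂ) * β j) = 1
        rw [hβ2]
        calc ((R⁻¹ : ℝ) : ℂ) * conj (β j) * ((R : ℂ) * β j) = ((R : ℂ) * ((R⁻¹ : ℝ) : ℂ)) * (β j * conj (β j)) := by ring
          _ = 1 := by rw [hRR, hββ, one_mul]
    · show (1 : ℂ) * 1 = 1
      simp
  · refine ⟨e.symm (Sum.inl (⟨0, by omega⟩, true)), ?_⟩
    show ‖B (e (e.symm (Sum.inl (⟨0, by omega⟩, true))))‖ = R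
    rw [Equiv.apply_symm_apply, hBt, norm_mul, hβ1, mul_one, norm_real, Real.norm_of_nonneg hR0.le]
  · rw [Equiv.sum_comp e B]
    have h1 := hsum 1
    simp only [pow_one] at h1
    rw [h1, hβ3, ← ofReal_mul]
    have h2 : (((R + R⁻¹) * ε + (n % 2 : ℕ) : ℝ) : ℂ) = 1 := by rw [hεt, ofReal_one]
    rw [← h2]
    push_cast
    ring
  · intro k hk1 hk2
    rw [Equiv.sum_comp e (fun x => B x ^ k), hsum k]
    have h1 := hβ4 k (by omega) hk2
    have h2 : R⁻¹ ^ k ≤ R ^ k := pow_le_pow_left₀ hRi.le (by linarith) k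
    have h3 : ‖((R ^ k + R⁻¹ ^ k : ℝ) : ℂ)‖ ≤ 2 * R ^ k := by
      rw [norm_real, Real.norm_of_nonneg (by positivity)]
      linarith
    have h4 : (1 : ℝ) ≤ R ^ (k - 1) := one_le_pow₀ hR
    have h5 : R ^ k * R⁻¹ = R ^ (k - 1) := by
      obtain ⟨l, rfl⟩ : ∃ l, k = l + 1 := ⟨k - 1, by omega⟩
      rw [Nat.add_sub_cancel, pow_succ, mul_assoc, mul_inv_cancel₀ hR0.ne', mul_one]
    have h6 : ‖((n % 2 : ℕ) : ℂ)‖ ≤ 1 := by
      rw [Complex.norm_natCast]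
      have : n % 2 ≤ 1 := by omega
      exact_mod_cast this
    calc ‖((R ^ k + R⁻¹ ^ k : ℝ) : ℂ) * ∑ j, β j ^ k + (n % 2 : ℕ)‖ ≤
        ‖((R ^ k + R⁻¹ ^ k : ℝ) : ℂ) * ∑ j, β j ^ k‖ + ‖((n % 2 : ℕ) : ℂ)‖ := norm_add_le _ _
      _ ≤ (2 * R ^ k) * (C * R⁻¹) + 1 := by
          rw [norm_mul]
          apply add_le_add _ h6
          apply mul_le_mul h3 (h1.trans (mul_le_mul_of_nonneg_left hεR hC0)) (norm_nonneg _) (by positivity)
      _ = 2 * C * (R ^ k * R⁻¹) + 1 := by ring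
      _ ≤ (2 * C + 1) * R ^ (k - 1) := by
          rw [h5]
          linarith

end Pool.Agent.H2.GLn
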