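import Pool.Agent.H2.SymDefs

/-!
# Systems of Satake parameters of `GL(n)` over `ℚ`
-/

set_option autoImplicit false

namespace Pool.Agent.H2.GLn

open Finset Pool.Agent.H2.SymDefs ComplexConjugate

/-- `a_1, …, a_n` are the Satake parameters of an irreducible unitary generic unramified representation of `GL_n(ℚ_p)`
(Tadić): the multiset is stable under `a ↦ 1 / conj a`, and `|a_i| < p^(1/2)`. -/
def UnitaryGeneric {n : ℕ} (p : ℕ) (a : Fin n → ℂ) : Prop :=
  (∃ σ : Equiv.Perm (Fin n), ∀ i, a (σ i) * conj (a i) = 1) ∧ ∀ i, ‖a i‖ < (p : ℝ) ^ (1 / 2 : ℝ)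

/-- The parameters of the representation are stable under `a ↦ 1 / a`. -/
def SelfDual {n : ℕ} (a : Fin n → ℂ) : Prop := ∃ σ : Equiv.Perm (Fin n), ∀ i, a (σ i) * a i = 1

/-- The parameters of the tensor product of two systems. -/
def tensor {n : ℕ} (a b : Nat.Primes → Fin n → ℂ) (p : Nat.Primes) (k : Fin n × Fin n) : ℂ := a p k.1 * b p k.2

/-- The parameters of the contragredient system (for unitary representations). -/
def dual {n : ℕ} (a : Nat.Primes → Fin n → ℂ) (p : Nat.Primes) (i : Fin n) : ℂ := conj (a p i)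

/-- The local factor of `L(s, V × τ)` at `p`, where the parameters of `V_p` are the `V p i`. -/
noncomputable def factor {ν : Type} [Fintype ν] (V : Nat.Primes → ν → ℂ) (τ : EulerProduct) (s : ℂ)
    (p : Nat.Primes) : ℂ :=
  ∏ i, ∏ l, (1 - V p i * τ.β p l * ((p : ℕ) : ℂ) ^ (-s))⁻¹

/-- For `Re s > 1` the Euler product converges to `M(s)` times a function which extends to a holomorphic function without
zeros on `Re s > 1 - η`. -/
def NiceUpTo (η : ℝ) (E : ℂ → Nat.Primes → ℂ) (M : ℂ → ℂ) : Prop :=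
  ∃ h : ℂ → ℂ, DifferentiableOn ℂ h {s | 1 - η < s.re} ∧
    ∀ s : ℂ, 1 < s.re → HasProd (E s) (M s * Complex.exp (h s))

/-- `L(s, τ)`. -/
noncomputable def LFun (τ : EulerProduct) (s : ℂ) : ℂ := ∏' p, τ.factor s p

/-- The largest of the `|a_{p, i}|` is `p ^ θ_p`, for every prime `p`. -/
def HasExponents {n : ℕ} (a : Nat.Primes → Fin n → ℂ) (θ : Nat.Primes → ℝ) : Prop :=
  ∀ p : Nat.Primes, (∃ i, ‖a p i‖ = ((p : ℕ) : ℝ) ^ θ p) ∧ ∀ i, ‖a p i‖ ≤ ((p : ℕ) : ℝ) ^ θ p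

/-- `L(s, Π × τ)`, `L(s, Π × Π × τ)`, `L(s, Π × Π~ × τ)` behave like `1`, `1`, `L(s, τ)` on `Re s > 1 - η`, as for a
cuspidal `Π` which is not self-dual and has nothing to do with `τ`. -/
def NiceGeneral {n : ℕ} (a : Nat.Primes → Fin n → ℂ) (η : ℝ) (τ : EulerProduct) : Prop :=
  NiceUpTo η (factor a τ) (fun _ => 1) ∧ NiceUpTo η (factor (tensor a a) τ) (fun _ => 1) ∧
    NiceUpTo η (factor (tensor a (dual a)) τ) (LFun τ)

/-- `L(s, Π × τ)`, `L(s, Π × Π × τ)`, `L(s, Π × Π~ × τ)` behave like `1`, `L(s, τ)`, `L(s, τ)` on `Re s > 1 - η`, as for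
a self-dual cuspidal `Π` which has nothing to do with `τ`. -/
def NiceSelfDual {n : ℕ} (a : Nat.Primes → Fin n → ℂ) (η : ℝ) (τ : EulerProduct) : Prop :=
  NiceUpTo η (factor a τ) (fun _ => 1) ∧ NiceUpTo η (factor (tensor a a) τ) (LFun τ) ∧
    NiceUpTo η (factor (tensor a (dual a)) τ) (LFun τ)

end Pool.Agent.H2.GLn
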