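import Mathlib

set_option autoImplicit false

namespace Pool.Agent.H2.GLn

open Finset Filter Topology

theorem exists_low {α : Type} (s : Finset α) (f : α → ℝ) (hf : ∀ x, 0 < f x) : ∃ δ : ℝ, 0 < δ ∧ ∀ x ∈ s, δ ≤ f x := by
  classical
  induction s using Finset.induction with
  | empty => exact ⟨1, one_pos, by simp⟩
  | insert a s _ ih =>
    obtain ⟨δ, hδ, h⟩ := ih
    refine ⟨min δ (f a), lt_min hδ (hf a), fun x hx => ?_⟩
    rcases Finset.mem_insert.1 hx with rfl | hx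
    · exact min_le_right _ _
    · exact (min_le_left _ _).trans (h x hx)

theorem young {m k θ σ : ℝ} (hk : 2 ≤ k) (hkm : k < m) (hσ : 0 ≤ σ) :
    2 * (k - 1) * θ - k * σ ≤ m * (2 * θ - σ) ∨ 2 * (k - 1) * θ - k * σ ≤ -(σ * m / (m - 1)) := by
  have hm1 : 0 < m - 1 := by linarith
  by_contra h
  push Not at h
  obtain ⟨h1, h2⟩ := h
  have hid : m * (2 * (k - 1) * θ - k * σ) = (k - 1) * (m * (2 * θ - σ)) - m * σ := by ring
  set x := 2 * (k - 1) * θ - k * σ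
  set A := m * (2 * θ - σ)
  -- `(m - k + 1) x < - m σ`
  have h3 : (m - k + 1) * x < -(m * σ) := by
    have : (k - 1) * A < (k - 1) * x := mul_lt_mul_of_pos_left h1 (by linarith)
    nlinarith
  have h4 : -(σ * m) < x * (m - 1) := by
    rw [← neg_div, div_lt_iff₀ hm1] at h2
    exact h2
  have h5 : x < 0 := by
    by_contra hx
    push Not at hx
    have : 0 ≤ (m - k + 1) * x := mul_nonneg (by linarith) hx
    have h6 : 0 ≤ m * σ := mul_nonneg (by linarith) hσ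
    linarith
  nlinarith

theorem exponents (m : ℕ) (hm : 2 ≤ m) (θ : Nat.Primes → ℝ) (h1 : ∀ p, θ p < 1 / 2) {ε : ℝ}
    (hε : 0 < ε) (hs : Summable fun p : Nat.Primes => ((p : ℕ) : ℝ) ^ (-(m : ℝ) * (1 - 2 * θ p) + ε)) :
    ∃ η κ : ℝ, 0 < η ∧ η ≤ 1 / 2 ∧ κ < 1 ∧
      (∀ p : Nat.Primes, (((p : ℕ) : ℝ) ^ θ p) ^ 2 * ((p : ℕ) : ℝ) ^ (-(1 - η)) ≤ κ) ∧
      (Summable fun p : Nat.Primes => ((((p : ℕ) : ℝ) ^ θ p) ^ 2 * ((p : ℕ) : ℝ) ^ (-(1 - η))) ^ m) ∧
      ∀ k : ℕ, 2 ≤ k → k < m → Summable fun p : Nat.Primes =>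
        (((p : ℕ) : ℝ) ^ θ p) ^ (2 * (k - 1)) * (((p : ℕ) : ℝ) ^ (-(1 - η))) ^ k := by
  have hp1 : ∀ p : Nat.Primes, (1 : ℝ) < ((p : ℕ) : ℝ) := fun p => by exact_mod_cast p.2.one_lt
  have hp0 : ∀ p : Nat.Primes, (0 : ℝ) < ((p : ℕ) : ℝ) := fun p => by linarith [hp1 p]
  have hm0 : (2 : ℝ) ≤ m := by exact_mod_cast hm
  -- the exponents stay away from `1/2`
  have hev : ∀ᶠ p : Nat.Primes in cofinite, ((p : ℕ) : ℝ) ^ (-(m : ℝ) * (1 - 2 * θ p) + ε) < 1 :=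
    hs.tendsto_cofinite_zero.eventually_lt_const one_pos
  have hfin : Set.Finite {p : Nat.Primes | ¬ ((p : ℕ) : ℝ) ^ (-(m : ℝ) * (1 - 2 * θ p) + ε) < 1} := hev
  obtain ⟨δ₁, hδ₁, hδ₁'⟩ := exists_low hfin.toFinset (fun p => 1 - 2 * θ p)
    (fun p => by have := h1 p; linarith)
  set δ : ℝ := min δ₁ (ε / m) with hδ
  have hδ0 : 0 < δ := lt_min hδ₁ (by positivity)
  have hδθ : ∀ p, δ ≤ 1 - 2 * θ p := by
    intro p
    by_cases hp : p ∈ hfin.toFinset
    · exact (min_le_left _ _).trans (hδ₁' p hp)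
    · rw [Set.Finite.mem_toFinset] at hp
      have hp' : ((p : ℕ) : ℝ) ^ (-(m : ℝ) * (1 - 2 * θ p) + ε) < 1 := by
        by_contra h
        exact hp h
      rw [Real.rpow_lt_one_iff_of_pos (hp0 p)] at hp'
      have h2 : -(m : ℝ) * (1 - 2 * θ p) + ε < 0 := by
        rcases hp' with h | h
        · exact h.2
        · linarith [hp1 p, h.1]
      refine (min_le_right _ _).trans ?_
      rw [div_le_iff₀ (by linarith)]
      linarith
  set η : ℝ := min (ε / m) (min (1 / (2 * m)) (δ / 2)) with hη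
  have hη0 : 0 < η := lt_min (by positivity) (lt_min (by positivity) (by positivity))
  have hη1 : η ≤ ε / m := min_le_left _ _
  have hη2 : η ≤ 1 / (2 * m) := (min_le_right _ _).trans (min_le_left _ _)
  have hη3 : η ≤ δ / 2 := (min_le_right _ _).trans (min_le_right _ _)
  have hη4 : η ≤ 1 / 4 := by
    refine hη2.trans ?_
    rw [div_le_div_iff₀ (by linarith) (by norm_num)]
    linarith
  have hη5 : m * η ≤ ε := by
    rw [le_div_iff₀ (by linarith)] at hη1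
    linarith
  have hη6 : m * η ≤ 1 / 2 := by
    rw [le_div_iff₀ (by linarith)] at hη2
    linarith
  have hprod : ∀ p : Nat.Primes, (((p : ℕ) : ℝ) ^ θ p) ^ 2 * ((p : ℕ) : ℝ) ^ (-(1 - η)) =
      ((p : ℕ) : ℝ) ^ (2 * θ p - (1 - η)) := by
    intro p
    rw [← Real.rpow_natCast (((p : ℕ) : ℝ) ^ θ p), ← Real.rpow_mul (hp0 p).le, ← Real.rpow_add (hp0 p)]
    congr 1
    push_cast
    ring
  refine ⟨η, (2 : ℝ) ^ (-(δ / 2)), hη0, by linarith, ?_, ?_, ?_, ?_⟩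
  · exact Real.rpow_lt_one_of_one_lt_of_neg (by norm_num) (by linarith)
  · intro p
    rw [hprod]
    have h2 : ((p : ℕ) : ℝ) ^ (2 * θ p - (1 - η)) ≤ ((p : ℕ) : ℝ) ^ (-(δ / 2)) := by
      apply Real.rpow_le_rpow_of_exponent_le (hp1 p).le
      have := hδθ p
      linarith
    refine h2.trans ?_
    exact Real.rpow_le_rpow_of_nonpos (by norm_num) (by exact_mod_cast p.2.two_le) (by linarith)
  · refine Summable.of_nonneg_of_le (fun p => by have := hp0 p; positivity) (fun p => ?_) hs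
    rw [hprod, ← Real.rpow_natCast, ← Real.rpow_mul (hp0 p).le]
    apply Real.rpow_le_rpow_of_exponent_le (hp1 p).le
    nlinarith
  · intro k hk hkm
    have hk' : (2 : ℝ) ≤ k := by exact_mod_cast hk
    have hkm' : (k : ℝ) < m := by exact_mod_cast hkm
    have hb : 1 < (1 - η) * m / (m - 1) := by
      rw [lt_div_iff₀ (by linarith)]
      linarith
    have hs2 : Summable fun p : Nat.Primes => ((p : ℕ) : ℝ) ^ (-((1 - η) * m / (m - 1))) := by
      rw [Nat.Primes.summable_rpow]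
      linarith
    refine Summable.of_nonneg_of_le (fun p => by have := hp0 p; positivity) (fun p => ?_) (hs.add hs2)
    have h2 : (((p : ℕ) : ℝ) ^ θ p) ^ (2 * (k - 1)) * (((p : ℕ) : ℝ) ^ (-(1 - η))) ^ k =
        ((p : ℕ) : ℝ) ^ (2 * ((k : ℝ) - 1) * θ p - k * (1 - η)) := by
      rw [← Real.rpow_natCast (((p : ℕ) : ℝ) ^ θ p), ← Real.rpow_natCast (((p : ℕ) : ℝ) ^ (-(1 - η))),
        ← Real.rpow_mul (hp0 p).le, ← Real.rpow_mul (hp0 p).le, ← Real.rpow_add (hp0 p)]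
      congr 1
      rw [Nat.cast_mul, Nat.cast_sub (by omega)]
      push_cast
      ring
    rw [h2]
    have hA : 0 < ((p : ℕ) : ℝ) ^ (-(m : ℝ) * (1 - 2 * θ p) + ε) := Real.rpow_pos_of_pos (hp0 p) _
    have hB : 0 < ((p : ℕ) : ℝ) ^ (-((1 - η) * m / (m - 1))) := Real.rpow_pos_of_pos (hp0 p) _
    rcases young (θ := θ p) hk' hkm' (by linarith : 0 ≤ 1 - η) with h3 | h3
    · have h4 : ((p : ℕ) : ℝ) ^ (2 * ((k : ℝ) - 1) * θ p - k * (1 - η)) ≤
          ((p : ℕ) : ℝ) ^ (-(m : ℝ) * (1 - 2 * θ p) + ε) := by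
        apply Real.rpow_le_rpow_of_exponent_le (hp1 p).le
        nlinarith
      linarith
    · have h4 : ((p : ℕ) : ℝ) ^ (2 * ((k : ℝ) - 1) * θ p - k * (1 - η)) ≤
          ((p : ℕ) : ℝ) ^ (-((1 - η) * m / (m - 1))) :=
        Real.rpow_le_rpow_of_exponent_le (hp1 p).le h3
      linarith

end Pool.Agent.H2.GLn
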