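import Pool.Agent.H2.Semi

set_option autoImplicit false

namespace Pool.Agent.H2.Quad

open Polynomial Finset Real

/-- the traces `S_i` of the symmetric powers of degree at most `M` are orthonormal for the probability measure
`∑ w_k δ_{x_k}` -/
def Orth (M : ℕ) {ι : Type} [Fintype ι] (w x : ι → ℝ) : Prop :=
  ∀ i j : ℕ, i ≤ M → j ≤ M → ∑ k, w k * ((S i).eval (x k) * (S j).eval (x k)) = if i = j then 1 else 0

/-- the extremal symmetric measure -/
theorem exists_two (M : ℕ) {T : ℝ} (hT : 2 ≤ T) : ∃ (ι : Type) (_ : Fintype ι) (w x : ι → ℝ), (∀ k, 0 ≤ w k) ∧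
    Orth M w x ∧ (∀ k, |x k| < 2 ∨ |x k| = T) ∧ ∑ k, (if 2 ≤ |x k| then w k else 0) = 1 / D M T := by
  classical
  obtain ⟨N, w, hN, hw, hwt, hex⟩ := two_sided M hT
  let xx : Option {y // y ∈ N} → ℝ := fun o => o.elim T fun y => √y.1
  let ww : Option {y // y ∈ N} → ℝ := fun o => o.elim (w (T ^ 2) / 2) fun y => w y.1 / 2
  have hD := D_pos M hT
  have hT0 : 0 ≤ T := by linarith
  have hsum : ∀ f : Option {y // y ∈ N} → ℝ, ∑ o, f o = f none + ∑ y : {y // y ∈ N}, f (some y) := by
    intro f
    rw [Fintype.sum_option]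
  have hlt : ∀ y : {y // y ∈ N}, |√y.1| < 2 := by
    intro y
    rw [abs_of_nonneg (Real.sqrt_nonneg _)]
    rw [show (2 : ℝ) = √4 by rw [show (4 : ℝ) = 2 ^ 2 by norm_num]; rw [Real.sqrt_sq (by norm_num)]]
    exact Real.sqrt_lt_sqrt (hN y.1 y.2).1 (hN y.1 y.2).2
  refine ⟨Option {y // y ∈ N} × Bool, inferInstance, fun k => ww k.1, fun k => if k.2 then xx k.1 else -xx k.1,
    ?_, ?_, ?_, ?_⟩
  · rintro ⟨o, b⟩
    cases o with
    | none =>
      show 0 ≤ w (T ^ 2) / 2
      rw [hwt]
      positivity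
    | some y =>
      show 0 ≤ w y.1 / 2
      have := hw y.1 y.2
      positivity
  · intro i j hi hj
    rw [Fintype.sum_prod_type]
    have h1 : ∀ o, ∑ b : Bool, ww o * ((S i).eval (if b then xx o else -xx o) * (S j).eval (if b then xx o else -xx o)) =
        (1 + (-1) ^ (i + j)) * (ww o * ((S i).eval (xx o) * (S j).eval (xx o))) := by
      intro o
      rw [Fintype.sum_bool]
      simp only [if_true, Bool.false_eq_true, if_false]
      rw [S_eval_neg, S_eval_neg, pow_add]
      ring
    rw [Finset.sum_congr rfl (fun o _ => h1 o), ← Finset.mul_sum]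
    by_cases hij : i % 2 = j % 2
    · obtain ⟨G, hG, hGd⟩ := S_mul_even hi hj hij
      have h2 : ∀ z, (S i).eval z * (S j).eval z = G.eval (z ^ 2) := by
        intro z
        rw [← expand_eval, ← hG, eval_mul]
      have h3 : ((-1 : ℝ)) ^ (i + j) = 1 := by
        apply Even.neg_one_pow
        rw [Nat.even_iff]
        omega
      have h4 := hex G hGd
      rw [← hG, L_orth] at h4
      rw [h3, h4, hsum]
      show (1 + 1) * (w (T ^ 2) / 2 * ((S i).eval T * (S j).eval T) +
        ∑ y : {y // y ∈ N}, w y.1 / 2 * ((S i).eval (√y.1) * (S j).eval (√y.1))) = _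
      rw [Finset.sum_coe_sort N (fun y => w y / 2 * ((S i).eval (√y) * (S j).eval (√y)))]
      rw [Finset.sum_congr rfl (fun y hy => show w y / 2 * ((S i).eval (√y) * (S j).eval (√y)) =
        (w y * G.eval y) / 2 by
          rw [h2, Real.sq_sqrt (hN y hy).1]
          ring), ← Finset.sum_div]
      rw [h2]
      ring
    · have h3 : ((-1 : ℝ)) ^ (i + j) = -1 := by
        apply Odd.neg_one_pow
        rw [Nat.odd_iff]
        omega
      rw [h3, if_neg (fun h => hij (by rw [h]))]
      ring
  · rintro ⟨o, b⟩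
    cases o with
    | none =>
      right
      cases b
      · show |(-T)| = T
        rw [abs_neg, abs_of_nonneg hT0]
      · show |T| = T
        rw [abs_of_nonneg hT0]
    | some y =>
      left
      cases b
      · show |-(√y.1)| < 2
        rw [abs_neg]
        exact hlt y
      · exact hlt y
  · rw [Fintype.sum_prod_type, hsum, Fintype.sum_bool]
    have hz : ∀ y : {y // y ∈ N}, ∑ b : Bool, (if 2 ≤ |(if b then xx (some y) else -xx (some y))| then
        ww (some y) else 0) = 0 := by
      intro y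
      rw [Fintype.sum_bool]
      have := not_le.2 (hlt y)
      rw [if_neg (by exact this), if_neg (by
        show ¬ 2 ≤ |(-(√y.1))|
        rw [abs_neg]
        exact this), add_zero]
    have h1 : (2 : ℝ) ≤ |xx none| := by
      show 2 ≤ |T|
      rw [abs_of_nonneg hT0]
      exact hT
    have h2 : (2 : ℝ) ≤ |(-(xx none))| := by
      rw [abs_neg]
      exact h1
    calc _ = (if 2 ≤ |xx none| then ww none else 0) + (if 2 ≤ |(-(xx none))| then ww none else 0) +
        ∑ y : {y // y ∈ N}, ∑ b : Bool, (if 2 ≤ |(if b then xx (some y) else -xx (some y))| then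
        ww (some y) else 0) := rfl
      _ = 1 / D M T := by
        rw [Finset.sum_eq_zero (fun y _ => hz y), if_pos h1, if_pos h2, add_zero]
        show w (T ^ 2) / 2 + w (T ^ 2) / 2 = _
        rw [hwt]
        ring

/-- the extremal measure for one sign -/
theorem exists_one (M : ℕ) {T : ℝ} (hT : 2 ≤ T) : ∃ (ι : Type) (_ : Fintype ι) (w x : ι → ℝ), (∀ k, 0 ≤ w k) ∧
    Orth M w x ∧ (∀ k, |x k| < 2 ∨ x k = T) ∧ ∑ k, (if 2 ≤ |x k| then w k else 0) = 1 / D₁ M T := by
  classical
  obtain ⟨N, w, hN, hw, hwt, hex⟩ := one_sided M hT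
  have hD := D₁_pos M hT
  have hT0 : 0 ≤ T := by linarith
  have hlt : ∀ y : {y // y ∈ N}, |y.1| < 2 := fun y => abs_lt.2 (hN y.1 y.2)
  refine ⟨Option {y // y ∈ N}, inferInstance, fun o => o.elim (w T) fun y => w y.1,
    fun o => o.elim T fun y => y.1, ?_, ?_, ?_, ?_⟩
  · intro o
    cases o with
    | none =>
      show 0 ≤ w T
      rw [hwt]
      positivity
    | some y => exact (hw y.1 y.2).le
  · intro i j hi hj
    have h1 := hex (S i * S j) (by
      refine lt_of_le_of_lt degree_le_natDegree ?_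
      have := natDegree_mul_le (p := S i) (q := S j)
      rw [natDegree_S, natDegree_S] at this
      have h2 : (S i * S j).natDegree < 2 * M + 1 := by omega
      exact_mod_cast h2)
    rw [L_orth] at h1
    rw [h1, Fintype.sum_option]
    show w T * ((S i).eval T * (S j).eval T) + ∑ y : {y // y ∈ N}, w y.1 * ((S i).eval y.1 * (S j).eval y.1) = _
    rw [Finset.sum_coe_sort N (fun y => w y * ((S i).eval y * (S j).eval y)), eval_mul, add_comm]
    simp only [eval_mul]
  · intro o
    cases o with
    | none => right; rfl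
    | some y => left; exact hlt y
  · rw [Fintype.sum_option, Finset.sum_eq_zero (fun y _ => by
      have := not_le.2 (hlt y)
      exact if_neg this), add_zero]
    show (if 2 ≤ |T| then w T else 0) = _
    rw [if_pos (by rw [abs_of_nonneg hT0]; exact hT), hwt]

/-- **The upper bound** for a symmetric set: a lower bound for the square of the kernel. -/
theorem kernel_two (M : ℕ) {T x : ℝ} (hT : 2 ≤ T) (hx : T ≤ |x|) :
    D M T ^ 2 ≤ (∑ i ∈ range (M + 1) with i % 2 = M % 2, (S i).eval T * (S i).eval x) ^ 2 := by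
  have h1 : D M T ≤ ∑ i ∈ range (M + 1) with i % 2 = M % 2, (S i).eval T * (S i).eval |x| := by
    unfold D
    refine Finset.sum_le_sum fun i _ => ?_
    have h2 := S_mono i hT hx
    rw [sq]
    exact mul_le_mul_of_nonneg_left h2.1.2 (by linarith [h2.1.1])
  have h0 := (D_pos M hT).le
  have h3 : (∑ i ∈ range (M + 1) with i % 2 = M % 2, (S i).eval T * (S i).eval x) ^ 2 =
      (∑ i ∈ range (M + 1) with i % 2 = M % 2, (S i).eval T * (S i).eval |x|) ^ 2 := by
    rcases abs_choice x with h | h
    · rw [h]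
    · rw [h]
      have h4 : ∑ i ∈ range (M + 1) with i % 2 = M % 2, (S i).eval T * (S i).eval (-x) =
          (-1) ^ M * ∑ i ∈ range (M + 1) with i % 2 = M % 2, (S i).eval T * (S i).eval x := by
        rw [Finset.mul_sum]
        refine Finset.sum_congr rfl fun i hi => ?_
        rw [Finset.mem_filter] at hi
        rw [S_eval_neg]
        have h5 : ((-1 : ℝ)) ^ i = (-1) ^ M := by
          rw [← Nat.div_add_mod i 2, ← Nat.div_add_mod M 2, pow_add, pow_add, pow_mul, pow_mul, hi.2]
          simp
        rw [h5]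
        ring
      rw [h4, mul_pow, ← pow_mul, mul_comm M 2, pow_mul]
      simp
  rw [h3]
  exact pow_le_pow_left₀ h0 h1 2

theorem kernel_one (M : ℕ) {T x : ℝ} (hT : 2 ≤ T) (hx : T ≤ x) :
    D₁ M T ^ 2 ≤ (∑ i ∈ range (M + 1), (S i).eval T * (S i).eval x) ^ 2 := by
  have h1 : D₁ M T ≤ ∑ i ∈ range (M + 1), (S i).eval T * (S i).eval x := by
    unfold D₁
    refine Finset.sum_le_sum fun i _ => ?_
    have h2 := S_mono i hT hx
    rw [sq]
    exact mul_le_mul_of_nonneg_left h2.1.2 (by linarith [h2.1.1])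
  exact pow_le_pow_left₀ (D₁_pos M hT).le h1 2

end Pool.Agent.H2.Quad
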