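import Mathlib

set_option autoImplicit false

namespace Pool.Agent.H2.Pot

open Finset

section

variable {ι : Type} [Fintype ι] (w : ι → ℝ) (g : ℕ → ι → ℂ) (c : ℕ → ℕ → ℂ) (B : ℕ → ℝ)

/-- one step -/
theorem exists_pick (hw : ∀ k, 0 ≤ w k) (hw1 : ∑ k, w k = 1) (hg : ∀ m, ∑ k, (w k : ℂ) * g m k = 0)
    (hB : ∀ m n k, ‖g m k * c m n‖ ≤ B m) (ε : ℕ → ℝ) (hε : ∀ m, 0 ≤ ε m) (n : ℕ) (s : ℕ → ℂ) :
    ∃ k, ∑ m ∈ range (n + 1), ε m * ‖s m + g m k * c m n‖ ^ 2 ≤
      ∑ m ∈ range (n + 1), ε m * (‖s m‖ ^ 2 + B m ^ 2) := by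
  by_contra h
  push Not at h
  set R := ∑ m ∈ range (n + 1), ε m * (‖s m‖ ^ 2 + B m ^ 2) with hR
  have h1 : ∑ k, w k * (∑ m ∈ range (n + 1), ε m * ‖s m + g m k * c m n‖ ^ 2) ≤ R := by
    have h2 : ∀ m, ∑ k, w k * ‖s m + g m k * c m n‖ ^ 2 ≤ ‖s m‖ ^ 2 + B m ^ 2 := by
      intro m
      have h3 : ∀ k, ‖s m + g m k * c m n‖ ^ 2 =
          ‖s m‖ ^ 2 + 2 * (starRingEnd ℂ (s m) * (g m k * c m n)).re + ‖g m k * c m n‖ ^ 2 := by
        intro k
        rw [← Complex.normSq_eq_norm_sq, ← Complex.normSq_eq_norm_sq, ← Complex.normSq_eq_norm_sq,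
          Complex.normSq_add]
        have : (s m * starRingEnd ℂ (g m k * c m n)).re = (starRingEnd ℂ (s m) * (g m k * c m n)).re := by
          rw [← Complex.conj_re]
          simp
        rw [this]
        ring
      have h4 : ∑ k, w k * (2 * (starRingEnd ℂ (s m) * (g m k * c m n)).re) = 0 := by
        have h5 : ∑ k, w k * (2 * (starRingEnd ℂ (s m) * (g m k * c m n)).re) =
            2 * (starRingEnd ℂ (s m) * c m n * ∑ k, (w k : ℂ) * g m k).re := by
          rw [Finset.mul_sum, Complex.re_sum, Finset.mul_sum]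
          refine Finset.sum_congr rfl fun k _ => ?_
          rw [show starRingEnd ℂ (s m) * c m n * ((w k : ℂ) * g m k) =
            (w k : ℂ) * (starRingEnd ℂ (s m) * (g m k * c m n)) by ring, Complex.re_ofReal_mul]
          ring
        rw [h5, hg, mul_zero, Complex.zero_re, mul_zero]
      calc ∑ k, w k * ‖s m + g m k * c m n‖ ^ 2
          = ∑ k, w k * ‖s m‖ ^ 2 + ∑ k, w k * (2 * (starRingEnd ℂ (s m) * (g m k * c m n)).re) +
            ∑ k, w k * ‖g m k * c m n‖ ^ 2 := by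
            rw [← Finset.sum_add_distrib, ← Finset.sum_add_distrib]
            refine Finset.sum_congr rfl fun k _ => ?_
            rw [h3]
            ring
        _ ≤ ‖s m‖ ^ 2 + 0 + B m ^ 2 := by
            rw [h4, ← Finset.sum_mul, hw1, one_mul]
            gcongr
            calc ∑ k, w k * ‖g m k * c m n‖ ^ 2 ≤ ∑ k, w k * B m ^ 2 := by
                  refine Finset.sum_le_sum fun k _ => ?_
                  have := hB m n k
                  have h0 := hw k
                  gcongr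
              _ = B m ^ 2 := by rw [← Finset.sum_mul, hw1, one_mul]
        _ = _ := by ring
    calc ∑ k, w k * (∑ m ∈ range (n + 1), ε m * ‖s m + g m k * c m n‖ ^ 2)
        = ∑ m ∈ range (n + 1), ε m * ∑ k, w k * ‖s m + g m k * c m n‖ ^ 2 := by
          simp_rw [Finset.mul_sum]
          rw [Finset.sum_comm]
          refine Finset.sum_congr rfl fun m _ => Finset.sum_congr rfl fun k _ => ?_
          ring
      _ ≤ R := by
          rw [hR]
          refine Finset.sum_le_sum fun m _ => ?_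
          exact mul_le_mul_of_nonneg_left (h2 m) (hε m)
  obtain ⟨k₀, hk₀⟩ : ∃ k, 0 < w k := by
    by_contra hne
    push Not at hne
    have : ∑ k, w k ≤ 0 := Finset.sum_nonpos fun k _ => hne k
    linarith
  have h2 : 0 < ∑ k, w k * ((∑ m ∈ range (n + 1), ε m * ‖s m + g m k * c m n‖ ^ 2) - R) := by
    refine Finset.sum_pos' (fun k _ => mul_nonneg (hw k) (sub_nonneg.2 (h k).le)) ⟨k₀, Finset.mem_univ _, ?_⟩
    exact mul_pos hk₀ (sub_pos.2 (h k₀))
  have h3 : ∑ k, w k * ((∑ m ∈ range (n + 1), ε m * ‖s m + g m k * c m n‖ ^ 2) - R) =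
      ∑ k, w k * (∑ m ∈ range (n + 1), ε m * ‖s m + g m k * c m n‖ ^ 2) - R := by
    simp_rw [mul_sub]
    rw [Finset.sum_sub_distrib, ← Finset.sum_mul, hw1, one_mul]
  linarith

theorem sq_le_two_pow (n : ℕ) : n ^ 2 ≤ 2 * 2 ^ n := by
  have h : ∀ n : ℕ, 2 * n + 1 ≤ 2 * 2 ^ n := by
    intro n
    induction n with
    | zero => norm_num
    | succ n ih => rw [pow_succ]; omega
  induction n with
  | zero => norm_num
  | succ n ih =>
    have := h n
    have h2 : 2 ^ (n + 1) = 2 * 2 ^ n := by ring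
    nlinarith

/-- **Simultaneous square root cancellation.** -/
theorem exists_choice (hw : ∀ k, 0 ≤ w k) (hw1 : ∑ k, w k = 1) (hg : ∀ m, ∑ k, (w k : ℂ) * g m k = 0)
    (hB : ∀ m n k, ‖g m k * c m n‖ ≤ B m) :
    ∃ k : ℕ → ι, ∀ m, ∃ C : ℝ, ∀ N : ℕ, ‖∑ n ∈ range N, g m (k n) * c m n‖ ≤ C * √N := by
  have hne : Nonempty ι := by
    by_contra h
    rw [not_nonempty_iff] at h
    simp at hw1
  have hB0 : ∀ m, 0 ≤ B m := fun m => (norm_nonneg _).trans (hB m 0 hne.some)
  set ε : ℕ → ℝ := fun m => (1 / 2) ^ m / (1 + B m ^ 2) with hε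
  have hε0 : ∀ m, 0 < ε m := fun m => by
    have : 0 < 1 + B m ^ 2 := by positivity
    positivity
  have hεB : ∀ m, ε m * B m ^ 2 ≤ (1 / 2) ^ m := by
    intro m
    rw [hε]
    simp only []
    rw [div_mul_eq_mul_div, div_le_iff₀ (by positivity)]
    have : (0 : ℝ) ≤ (1 / 2) ^ m := by positivity
    nlinarith [sq_nonneg (B m)]
  choose pick hpick using fun (n : ℕ) (s : ℕ → ℂ) => exists_pick w g c B hw hw1 hg hB ε (fun m => (hε0 m).le) n s
  let S : ℕ → ℕ → ℂ := fun n => Nat.rec (fun _ => 0) (fun n s m => s m + g m (pick n s) * c m n) n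
  have hS0 : ∀ m, S 0 m = 0 := fun m => rfl
  have hS1 : ∀ n m, S (n + 1) m = S n m + g m (pick n (S n)) * c m n := fun n m => rfl
  have hsum : ∀ n m, S n m = ∑ l ∈ range n, g m (pick l (S l)) * c m l := by
    intro n m
    induction n with
    | zero => simp [hS0]
    | succ n ih => rw [hS1, ih, Finset.sum_range_succ]
  have htriv : ∀ n m, ‖S n m‖ ≤ n * B m := by
    intro n m
    induction n with
    | zero => simp [hS0]
    | succ n ih =>
      rw [hS1]
      refine (norm_add_le _ _).trans ?_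
      have := hB m n (pick n (S n))
      push_cast
      linarith
  have hΦ : ∀ n, ∑ m ∈ range n, ε m * ‖S n m‖ ^ 2 ≤ 4 * n := by
    intro n
    induction n with
    | zero => simp
    | succ n ih =>
      have h1 := hpick n (S n)
      have h2 : ∑ m ∈ range (n + 1), ε m * (‖S n m‖ ^ 2 + B m ^ 2) ≤ 4 * n + 4 := by
        have h3 : ∑ m ∈ range (n + 1), ε m * (‖S n m‖ ^ 2 + B m ^ 2) =
            ∑ m ∈ range n, ε m * ‖S n m‖ ^ 2 + ε n * ‖S n n‖ ^ 2 + ∑ m ∈ range (n + 1), ε m * B m ^ 2 := by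
          simp_rw [mul_add]
          rw [Finset.sum_add_distrib, Finset.sum_range_succ (fun m => ε m * ‖S n m‖ ^ 2)]
        have h4 : ∑ m ∈ range (n + 1), ε m * B m ^ 2 ≤ 2 := by
          calc ∑ m ∈ range (n + 1), ε m * B m ^ 2 ≤ ∑ m ∈ range (n + 1), (1 / 2 : ℝ) ^ m :=
                Finset.sum_le_sum fun m _ => hεB m
            _ ≤ 2 := by
                have := sum_geometric_two_le (n + 1)
                exact this
        have h5 : ε n * ‖S n n‖ ^ 2 ≤ 2 := by
          have h6 : ‖S n n‖ ^ 2 ≤ (n * B n) ^ 2 := pow_le_pow_left₀ (norm_nonneg _) (htriv n n) 2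
          have h7 : ε n * ‖S n n‖ ^ 2 ≤ n ^ 2 * (ε n * B n ^ 2) := by
            have := mul_le_mul_of_nonneg_left h6 (hε0 n).le
            linarith
          have h8 : (n : ℝ) ^ 2 * (ε n * B n ^ 2) ≤ n ^ 2 * (1 / 2) ^ n := by
            have := hεB n
            gcongr
          have h9 : (n : ℝ) ^ 2 * (1 / 2) ^ n ≤ 2 := by
            have h10 : ((n : ℝ)) ^ 2 ≤ 2 * 2 ^ n := by exact_mod_cast sq_le_two_pow n
            rw [one_div, inv_pow, ← div_eq_mul_inv, div_le_iff₀ (by positivity)]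
            exact h10
          linarith
        rw [h3]
        linarith
      push_cast
      calc _ ≤ _ := h1
        _ ≤ 4 * n + 4 := h2
        _ = _ := by ring
  refine ⟨fun n => pick n (S n), fun m => ⟨√(4 / ε m) + √m * B m, fun N => ?_⟩⟩
  rw [← hsum]
  rcases lt_or_ge m N with h | h
  · have h1 : ε m * ‖S N m‖ ^ 2 ≤ 4 * N :=
      (Finset.single_le_sum (f := fun m => ε m * ‖S N m‖ ^ 2)
        (fun i _ => mul_nonneg (hε0 i).le (sq_nonneg _)) (Finset.mem_range.2 h)).trans (hΦ N)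
    have h2 : ‖S N m‖ ^ 2 ≤ (4 / ε m) * N := by
      rw [div_mul_eq_mul_div, le_div_iff₀ (hε0 m)]
      linarith
    have h3 : ‖S N m‖ ≤ √(4 / ε m) * √N := by
      rw [← Real.sqrt_mul (by have := hε0 m; positivity)]
      exact Real.le_sqrt_of_sq_le h2
    have h4 : 0 ≤ √m * B m * √N := by
      have := hB0 m
      positivity
    linarith
  · have h1 := htriv N m
    have h2 : (N : ℝ) ≤ √m * √N := by
      rw [← Real.sqrt_mul (Nat.cast_nonneg _)]
      apply Real.le_sqrt_of_sq_le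
      rw [sq]
      have : (N : ℝ) ≤ m := by exact_mod_cast h
      gcongr
    have h3 : 0 ≤ √(4 / ε m) * √N := by positivity
    have h4 : (N : ℝ) * B m ≤ √m * √N * B m := mul_le_mul_of_nonneg_right h2 (hB0 m)
    linarith

end

/-- the version for a countable family -/
theorem exists_choice' {ι J : Type} [Fintype ι] [Countable J] (w : ι → ℝ) (g : J → ι → ℂ) (c : J → ℕ → ℂ) (B : J → ℝ)
    (hw : ∀ k, 0 ≤ w k) (hw1 : ∑ k, w k = 1) (hg : ∀ m, ∑ k, (w k : ℂ) * g m k = 0)
    (hB : ∀ m n k, ‖g m k * c m n‖ ≤ B m) :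
    ∃ k : ℕ → ι, ∀ m, ∃ C : ℝ, ∀ N : ℕ, ‖∑ n ∈ range N, g m (k n) * c m n‖ ≤ C * √N := by
  rcases isEmpty_or_nonempty J with hJ | hJ
  · have hne : Nonempty ι := by
      by_contra h
      rw [not_nonempty_iff] at h
      simp at hw1
    exact ⟨fun _ => hne.some, fun m => (hJ.false m).elim⟩
  · obtain ⟨e, he⟩ := exists_surjective_nat J
    obtain ⟨k, hk⟩ := exists_choice w (fun m => g (e m)) (fun m => c (e m)) (fun m => B (e m)) hw hw1
      (fun m => hg _) (fun m n k => hB _ _ _)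
    refine ⟨k, fun m => ?_⟩
    obtain ⟨m', rfl⟩ := he m
    exact hk m'

end Pool.Agent.H2.Pot
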