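import Pool.Agent.H2.Nice
import Pool.Agent.H2.Meas
import Pool.Agent.H2.Pot

set_option autoImplicit false

namespace Pool.Agent.H2.Real

open Finset Complex Filter Topology Pool.Agent.H2.SymDefs Pool.Agent.H2.Eul

/-- the `n`-th prime -/
noncomputable def P (n : ℕ) : Nat.Primes := ⟨Nat.nth Nat.Prime n, Nat.prime_nth_prime n⟩

/-- the number of primes `≤ x` -/
def cnt (x : ℕ) : ℕ := Nat.count Nat.Prime (x + 1)

theorem mem_primesLE (x : ℕ) (p : Nat.Primes) : p ∈ primesLE x ↔ (p : ℕ) < x + 1 :=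
  Finset.mem_subtype.trans Finset.mem_range

theorem sum_primesLE {R : Type} [AddCommMonoid R] (f : Nat.Primes → R) (x : ℕ) :
    ∑ p ∈ primesLE x, f p = ∑ n ∈ range (cnt x), f (P n) := by
  symm
  refine Finset.sum_nbij P ?_ ?_ ?_ fun n _ => rfl
  · intro n hn
    rw [Finset.mem_range] at hn
    rw [mem_primesLE]
    exact Nat.nth_lt_of_lt_count hn
  · intro m _ n _ h
    exact Nat.nth_injective Nat.infinite_setOfPred_prime (congrArg Subtype.val h)
  · intro p hp
    rw [Finset.mem_coe, mem_primesLE] at hp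
    refine ⟨Nat.count Nat.Prime p, ?_, ?_⟩
    · rw [Finset.mem_coe, Finset.mem_range]
      exact Nat.count_strict_mono p.2 hp
    · exact Subtype.ext (Nat.nth_count p.2)

theorem card_primesLE (x : ℕ) : (primesLE x).card = cnt x := by
  have := sum_primesLE (fun _ => (1 : ℕ)) x
  simpa using this

theorem cnt_le (x : ℕ) : cnt x ≤ x := by
  unfold cnt
  induction x with
  | zero => decide
  | succ x ih =>
    rw [Nat.count_succ]
    split_ifs <;> omega

theorem tendsto_cnt : Tendsto (fun x : ℕ => (cnt x : ℝ)) atTop atTop := by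
  have h1 : Tendsto (fun x : ℕ => cnt x) atTop atTop := Nat.tendsto_primeCounting
  exact tendsto_natCast_atTop_atTop.comp h1

/-- a summable error does no harm -/
theorem add_error (f g : Nat.Primes → ℂ) (C : ℝ) (hg : ∀ x : ℕ, ‖∑ p ∈ primesLE x, g p‖ ≤ C * √(cnt x))
    (he : Summable fun p => ‖f p - g p‖) : ∃ C' : ℝ, 0 ≤ C' ∧ ∀ x : ℕ, ‖∑ p ∈ primesLE x, f p‖ ≤ C' * √(cnt x) := by
  refine ⟨|C| + ∑' p, ‖f p - g p‖, by positivity, fun x => ?_⟩
  rcases Nat.eq_zero_or_pos (cnt x) with h | h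
  · have h1 : primesLE x = ∅ := by
      rw [← Finset.card_eq_zero, card_primesLE, h]
    rw [h1, h]
    simp
  · have h1 : (1 : ℝ) ≤ √(cnt x) := by
      rw [Real.one_le_sqrt]
      exact_mod_cast h
    have h2 : ‖∑ p ∈ primesLE x, (f p - g p)‖ ≤ ∑' p, ‖f p - g p‖ :=
      (norm_sum_le _ _).trans (he.sum_le_tsum _ fun _ _ => norm_nonneg _)
    have h3 : ∑ p ∈ primesLE x, f p = ∑ p ∈ primesLE x, g p + ∑ p ∈ primesLE x, (f p - g p) := by
      rw [← Finset.sum_add_distrib]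
      refine Finset.sum_congr rfl fun p _ => ?_
      ring
    have h4 : 0 ≤ ∑' p, ‖f p - g p‖ := tsum_nonneg fun _ => norm_nonneg _
    calc ‖∑ p ∈ primesLE x, f p‖ ≤ ‖∑ p ∈ primesLE x, g p‖ + ‖∑ p ∈ primesLE x, (f p - g p)‖ := by
          rw [h3]
          exact norm_add_le _ _
      _ ≤ |C| * √(cnt x) + (∑' p, ‖f p - g p‖) * √(cnt x) := by
          apply add_le_add
          · exact (hg x).trans (mul_le_mul_of_nonneg_right (le_abs_self C) (by positivity))
          · exact h2.trans (le_mul_of_one_le_right h4 h1)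
      _ = _ := by ring

theorem tendsto_of_bound (f : Nat.Primes → ℂ) (C : ℝ) (d : ℂ)
    (hf : ∀ x : ℕ, ‖∑ p ∈ primesLE x, (f p - d)‖ ≤ C * √(cnt x)) :
    Tendsto (fun x : ℕ => (∑ p ∈ primesLE x, f p) / ((primesLE x).card : ℂ)) atTop (𝓝 d) := by
  rw [tendsto_iff_norm_sub_tendsto_zero]
  have h1 : Tendsto (fun x : ℕ => C / √(cnt x)) atTop (𝓝 0) :=
    Tendsto.const_div_atTop (Real.tendsto_sqrt_atTop.comp tendsto_cnt) C
  refine squeeze_zero' (Eventually.of_forall fun x => norm_nonneg _) ?_ h1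
  filter_upwards [tendsto_cnt.eventually_ge_atTop 1] with x hx
  have h2 : (0 : ℝ) < cnt x := by linarith
  have h3 : ((cnt x : ℕ) : ℂ) ≠ 0 := by
    rw [Nat.cast_ne_zero]
    intro h
    rw [h] at h2
    simp at h2
  rw [card_primesLE]
  have h4 : (∑ p ∈ primesLE x, f p) / ((cnt x : ℕ) : ℂ) - d = (∑ p ∈ primesLE x, (f p - d)) / ((cnt x : ℕ) : ℂ) := by
    rw [Finset.sum_sub_distrib, Finset.sum_const, card_primesLE, nsmul_eq_mul]
    field_simp
  rw [h4, norm_div, Complex.norm_natCast, div_le_div_iff₀ h2 (Real.sqrt_pos.2 h2)]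
  have h5 : √((cnt x : ℕ) : ℝ) * √((cnt x : ℕ) : ℝ) = cnt x := Real.mul_self_sqrt h2.le
  calc _ ≤ C * √(cnt x) * √(cnt x) := mul_le_mul_of_nonneg_right (hf x) (by positivity)
    _ = _ := by rw [mul_assoc, h5]

theorem share_eq (A : Set Nat.Primes) [DecidablePred (· ∈ A)] (x : ℕ) :
    ((share A x : ℝ) : ℂ) = (∑ p ∈ primesLE x, (if p ∈ A then 1 else 0 : ℂ)) / ((primesLE x).card : ℂ) := by
  unfold share
  rw [Finset.sum_ite, Finset.sum_const, Finset.sum_const_zero, add_zero, nsmul_eq_mul, mul_one]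
  push_cast
  congr 3
  apply Finset.filter_congr_decidable

theorem share_tendsto (A : Set Nat.Primes) [DecidablePred (· ∈ A)] (C d : ℝ)
    (h : ∀ x : ℕ, ‖∑ p ∈ primesLE x, ((if p ∈ A then 1 else 0 : ℂ) - d)‖ ≤ C * √(cnt x)) :
    Tendsto (share A) atTop (𝓝 d) := by
  have h1 := tendsto_of_bound _ C d h
  have h2 : Tendsto (fun x => ((share A x : ℝ) : ℂ)) atTop (𝓝 (d : ℂ)) := by
    refine h1.congr fun x => ?_
    rw [share_eq]
  have h3 := (continuous_re.tendsto (d : ℂ)).comp h2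
  simpa [Function.comp_def] using h3

theorem poly_bound (F : Polynomial ℝ) (K : ℝ) : ∃ L : ℝ, 0 ≤ L ∧ ∀ y z : ℝ, |y| ≤ K → |z| ≤ K →
    |F.eval y - F.eval z| ≤ L * |y - z| := by
  obtain ⟨L, hL⟩ := isCompact_Icc.exists_bound_of_continuousOn (s := Set.Icc (-K) K)
    (f := fun t => (Polynomial.derivative F).eval t) (Polynomial.continuous _).continuousOn
  refine ⟨|L|, abs_nonneg _, fun y z hy hz => ?_⟩
  have h1 := Convex.norm_image_sub_le_of_norm_deriv_le (𝕜 := ℝ) (f := fun t => F.eval t) (s := Set.Icc (-K) K)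
    (x := z) (y := y) (C := |L|) (fun t _ => F.differentiableAt) (fun t ht => by
      rw [Polynomial.deriv]
      exact (hL t ht).trans (le_abs_self L)) (convex_Icc _ _) (abs_le.1 hz) (abs_le.1 hy)
  simpa [Real.norm_eq_abs] using h1

open Classical in
/-- **Realization.** -/
theorem realize (M : ℕ) (hM : 1 ≤ M) {T : ℝ} (hT : 2 ≤ T) {ι : Type} [Fintype ι] (w x : ι → ℝ) (hw : ∀ k, 0 ≤ w k)
    (ho : Quad.Orth M w x) (hx : ∀ k, |x k| ≤ T) {J : Type} [Countable J] (τ : J → EulerProduct) :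
    ∃ (κ : Nat.Primes → ι) (α : Nat.Primes → ℂ) (p₀ : ℕ), Unitary α ∧ Orthonormal α M ∧ (∀ m, Nice α M (τ m)) ∧
      (∀ p : Nat.Primes, (p : ℕ) < p₀ → lam α p = 0) ∧
      (∀ p : Nat.Primes, p₀ ≤ (p : ℕ) → lam α p =
        if 2 ≤ |x (κ p)| then x (κ p) * (1 + 1 / ((p : ℕ) : ℝ) ^ 2) else x (κ p)) ∧
      (∀ p, 2 < |lam α p| → ‖α p‖ ≠ 1) ∧
      ∀ a, ∃ C : ℝ, ∀ X : ℕ, ‖∑ p ∈ primesLE X, ((if κ p = a then 1 else 0 : ℂ) - w a)‖ ≤ C * √(cnt X) := by
  classical
  have hw1 : ∑ k, w k = 1 := by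
    have := ho 0 0 (Nat.zero_le _) (Nat.zero_le _)
    simpa [Quad.S_zero] using this
  have hne : Nonempty ι := by
    by_contra h
    rw [not_nonempty_iff] at h
    simp at hw1
  let τ' : Option J → EulerProduct := fun o => o.elim ⟨1, fun _ _ => 1, fun _ _ => by simp⟩ τ
  let g : (Fin (M + 1) × Fin (M + 1) × Option J) ⊕ ι → ι → ℂ :=
    Sum.elim (fun t k => (((Quad.S (t.1 : ℕ)).eval (x k) * (Quad.S (t.2.1 : ℕ)).eval (x k) : ℝ) : ℂ) -
      if (t.1 : ℕ) = (t.2.1 : ℕ) then 1 else 0) (fun a k => (if k = a then 1 else 0) - (w a : ℂ))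
  let c : (Fin (M + 1) × Fin (M + 1) × Option J) ⊕ ι → Nat.Primes → ℂ :=
    Sum.elim (fun t p => coef (τ' t.2.2) p) (fun _ _ => 1)
  let b : (Fin (M + 1) × Fin (M + 1) × Option J) ⊕ ι → ℝ := Sum.elim (fun t => (τ' t.2.2).deg) (fun _ => 1)
  have hcb : ∀ m p, ‖c m p‖ ≤ b m := by
    rintro (t | a) p
    · exact norm_coef _ _
    · show ‖(1 : ℂ)‖ ≤ 1
      simp
  have hg : ∀ m, ∑ k, (w k : ℂ) * g m k = 0 := by
    rintro (t | a)
    · have h1 := ho t.1 t.2.1 (by have := t.1.2; omega) (by have := t.2.1.2; omega)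
      show ∑ k, (w k : ℂ) * ((((Quad.S (t.1 : ℕ)).eval (x k) * (Quad.S (t.2.1 : ℕ)).eval (x k) : ℝ) : ℂ) -
        if (t.1 : ℕ) = (t.2.1 : ℕ) then 1 else 0) = 0
      simp only [mul_sub]
      rw [Finset.sum_sub_distrib, ← Finset.sum_mul]
      have h2 : ∑ k, (w k : ℂ) * (((Quad.S (t.1 : ℕ)).eval (x k) * (Quad.S (t.2.1 : ℕ)).eval (x k) : ℝ) : ℂ) =
          if (t.1 : ℕ) = (t.2.1 : ℕ) then 1 else 0 := by
        have h4 := congrArg (fun r : ℝ => (r : ℂ)) h1
        push_cast at h4 ⊢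
        rw [h4]
        split_ifs <;> simp
      have h3 : ∑ k, (w k : ℂ) = 1 := by exact_mod_cast congrArg (fun r : ℝ => (r : ℂ)) hw1
      rw [h2, h3, one_mul, sub_self]
    · show ∑ k, (w k : ℂ) * ((if k = a then 1 else 0) - (w a : ℂ)) = 0
      have h3 : ∑ k, (w k : ℂ) = 1 := by exact_mod_cast congrArg (fun r : ℝ => (r : ℂ)) hw1
      simp only [mul_sub]
      rw [Finset.sum_sub_distrib, ← Finset.sum_mul, h3]
      simp
  obtain ⟨k, hk⟩ := Pot.exists_choice' w g (fun m n => c m (P n)) (fun m => (∑ k, ‖g m k‖) * b m) hw hw1 hg (by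
    intro m n k
    rw [norm_mul]
    apply mul_le_mul _ (hcb _ _) (norm_nonneg _) (Finset.sum_nonneg fun _ _ => norm_nonneg _)
    exact Finset.single_le_sum (f := fun k => ‖g m k‖) (fun _ _ => norm_nonneg _) (Finset.mem_univ k))
  set κ : Nat.Primes → ι := fun p => k (Nat.count Nat.Prime (p : ℕ)) with hκdef
  have hκ : ∀ n, κ (P n) = k n := by
    intro n
    show k (Nat.count Nat.Prime (Nat.nth Nat.Prime n)) = k n
    rw [Nat.count_nth_of_infinite Nat.infinite_setOfPred_prime]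
  have hsum : ∀ m, ∃ C : ℝ, ∀ X : ℕ, ‖∑ p ∈ primesLE X, g m (κ p) * c m p‖ ≤ C * √(cnt X) := by
    intro m
    obtain ⟨C, hC⟩ := hk m
    refine ⟨C, fun X => ?_⟩
    rw [sum_primesLE]
    simp only [hκ]
    exact hC _
  -- the threshold
  set A : ℝ := (2 * T) ^ (2 * M) with hA
  have hA0 : 2 * T ≤ A := by
    rw [hA]
    exact le_self_pow₀ (by linarith) (by omega)
  obtain ⟨p₀, hp₀⟩ := exists_nat_ge ((2 * A) ^ 2)
  have hpA : ∀ p : Nat.Primes, p₀ ≤ (p : ℕ) → A * 2 ≤ ((p : ℕ) : ℝ) ^ (1 / 2 : ℝ) := by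
    intro p hp
    rw [← Real.sqrt_eq_rpow]
    apply Real.le_sqrt_of_sq_le
    have : (p₀ : ℝ) ≤ ((p : ℕ) : ℝ) := by exact_mod_cast hp
    nlinarith
  set y : Nat.Primes → ℝ := fun p => if (p : ℕ) < p₀ then 0 else
    if 2 ≤ |x (κ p)| then x (κ p) * (1 + 1 / ((p : ℕ) : ℝ) ^ 2) else x (κ p) with hy
  have hyT : ∀ p, |y p| ≤ 2 * T := by
    intro p
    have h1 := hx (κ p)
    have hp1 : (1 : ℝ) ≤ ((p : ℕ) : ℝ) ^ 2 := by
      have : (1 : ℝ) ≤ ((p : ℕ) : ℝ) := by exact_mod_cast p.2.one_lt.le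
      nlinarith
    have h2 : 1 / ((p : ℕ) : ℝ) ^ 2 ≤ 1 := by
      rw [div_le_one (by linarith)]
      exact hp1
    have h3 : 0 ≤ 1 / ((p : ℕ) : ℝ) ^ 2 := by positivity
    rw [hy]
    simp only []
    split_ifs
    · rw [abs_zero]
      linarith
    · rw [abs_mul, abs_of_nonneg (by linarith : 0 ≤ 1 + 1 / ((p : ℕ) : ℝ) ^ 2)]
      have := abs_nonneg (x (κ p))
      nlinarith
    · linarith
  choose α hα0 hαy hα using fun p => exists_root (y p)
  have hlam : ∀ p, lam α p = y p := by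
    intro p
    unfold lam
    rw [hαy, ofReal_re]
  have h1α : ∀ p, 1 ≤ ‖α p‖ := by
    intro p
    rcases hα p with h | h
    · exact h.2.ge
    · exact h.2.2.1.le
  have hαT : ∀ p, ‖α p‖ ≤ 2 * T := by
    intro p
    rcases hα p with h | h
    · rw [h.2]
      linarith
    · exact h.2.2.2.trans (hyT p)
  have hαp : ∀ p : Nat.Primes, (p : ℕ) < p₀ → ‖α p‖ = 1 := by
    intro p hp
    rcases hα p with h | h
    · exact h.2
    · have : y p = 0 := by
        rw [hy]
        simp only []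
        rw [if_pos hp]
      rw [this, abs_zero] at h
      exact absurd h.1 (by norm_num)
  -- the error
  have herr : ∀ i j : ℕ, ∀ σ : EulerProduct, Summable fun p : Nat.Primes =>
      ‖(tr (α p) i * tr (α p) j - if i = j then 1 else 0) * coef σ p -
        ((((Quad.S i).eval (x (κ p)) * (Quad.S j).eval (x (κ p)) : ℝ) : ℂ) - if i = j then 1 else 0) * coef σ p‖ := by
    intro i j σ
    obtain ⟨L, hL0, hL⟩ := poly_bound (Quad.S i * Quad.S j) (2 * T)
    have hs : Summable fun p : Nat.Primes => L * T * σ.deg * ((p : ℕ) : ℝ) ^ (-2 : ℝ) := by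
      apply Summable.mul_left
      rw [Nat.Primes.summable_rpow]
      norm_num
    refine Summable.of_norm_bounded_eventually hs ?_
    have hfin : Set.Finite {p : Nat.Primes | (p : ℕ) < p₀} := by
      apply Set.Finite.preimage (Subtype.val_injective.injOn) (Set.finite_lt_nat p₀)
    filter_upwards [hfin.compl_mem_cofinite] with p hp
    have hp' : ¬ (p : ℕ) < p₀ := hp
    rw [norm_norm, ← sub_mul, norm_mul, tr_eq (hα0 p) (hαy p), tr_eq (hα0 p) (hαy p), sub_sub_sub_cancel_right,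
      ← ofReal_mul, ← ofReal_sub, norm_real, Real.norm_eq_abs]
    have hxT := hx (κ p)
    have h1 := hL (y p) (x (κ p)) (hyT p) (by linarith)
    rw [Polynomial.eval_mul, Polynomial.eval_mul] at h1
    have hr : ((p : ℕ) : ℝ) ^ (-2 : ℝ) = 1 / ((p : ℕ) : ℝ) ^ 2 := by
      rw [Real.rpow_neg (by positivity), one_div]
      norm_cast
    have h2 : |y p - x (κ p)| ≤ T * ((p : ℕ) : ℝ) ^ (-2 : ℝ) := by
      have hr0 : 0 ≤ 1 / ((p : ℕ) : ℝ) ^ 2 := by positivity
      rw [hr, hy]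
      simp only []
      rw [if_neg hp']
      split_ifs
      · rw [mul_add, mul_one, add_sub_cancel_left, abs_mul, abs_of_nonneg hr0]
        exact mul_le_mul_of_nonneg_right hxT hr0
      · rw [sub_self, abs_zero]
        positivity
    calc _ ≤ (L * (T * ((p : ℕ) : ℝ) ^ (-2 : ℝ))) * σ.deg := by
          apply mul_le_mul (h1.trans (mul_le_mul_of_nonneg_left h2 hL0)) (norm_coef σ p) (norm_nonneg _)
          positivity
      _ = _ := by ring
  have hmain : ∀ i j : ℕ, i ≤ M → j ≤ M → ∀ m : Option J, ∃ C : ℝ, 0 ≤ C ∧ ∀ X : ℕ,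
      ‖∑ p ∈ primesLE X, (tr (α p) i * tr (α p) j - if i = j then 1 else 0) * coef (τ' m) p‖ ≤ C * √(cnt X) := by
    intro i j hi hj m
    obtain ⟨C, hC⟩ := hsum (Sum.inl (⟨i, by omega⟩, ⟨j, by omega⟩, m))
    exact add_error _ _ C hC (herr i j (τ' m))
  refine ⟨κ, α, p₀, ?_, ?_, ?_, ?_, ?_, ?_, ?_⟩
  · intro p
    rcases hα p with h | h
    · exact Or.inl h.2
    · right
      have hp : ¬ (p : ℕ) < p₀ := by
        intro hp
        have := hαp p hp
        linarith [h.2.2.1]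
      have h3 : ‖α p‖ < ((p : ℕ) : ℝ) ^ (1 / 2 : ℝ) := by
        have h4 := hpA p (not_lt.1 hp)
        have h5 := hαT p
        linarith
      refine ⟨h.2.1, ?_, h3⟩
      have h4 : ((p : ℕ) : ℝ) ^ (-(1 / 2) : ℝ) < 1 :=
        Real.rpow_lt_one_of_one_lt_of_neg (by exact_mod_cast p.2.one_lt) (by norm_num)
      linarith [h.2.2.1]
  · intro i j hi hj
    obtain ⟨C, hC0, hC⟩ := hmain i j hi hj none
    apply tendsto_of_bound _ C
    intro X
    refine le_trans (le_of_eq ?_) (hC X)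
    congr 1
    refine Finset.sum_congr rfl fun p _ => ?_
    have : coef (τ' none) p = 1 := by
      show ∑ m : Fin 1, (1 : ℂ) = 1
      simp
    rw [this, mul_one]
  · intro m i j hi hj
    obtain ⟨C, hC0, hC⟩ := hmain i j hi hj (some m)
    have hC' : ∀ X : ℕ, ‖∑ p ∈ primesLE X, (tr (α p) i * tr (α p) j - if i = j then 1 else 0) * coef (τ m) p‖ ≤ C * √X := by
      intro X
      refine (hC X).trans (mul_le_mul_of_nonneg_left ?_ hC0)
      exact Real.sqrt_le_sqrt (by exact_mod_cast cnt_le X)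
    refine ⟨⟨C, hC'⟩, ?_⟩
    refine main_euler α (τ m) hi hj A C h1α ?_ ?_ hC'
    · intro p
      exact pow_le_pow_left₀ (norm_nonneg _) (hαT p) _
    · intro p
      by_cases hp : (p : ℕ) < p₀
      · rw [hαp p hp, one_pow, one_mul]
        have h2 : (2 : ℝ) ^ (-(1 / 2) : ℝ) ≤ 3 / 4 := by
          rw [Real.rpow_neg (by norm_num), ← Real.sqrt_eq_rpow]
          rw [inv_le_comm₀ (by positivity) (by norm_num)]
          apply Real.le_sqrt_of_sq_le
          norm_num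
        refine le_trans ?_ h2
        apply Real.rpow_le_rpow_of_nonpos (by norm_num) (by exact_mod_cast p.2.two_le) (by norm_num)
      · have h4 := hpA p (not_lt.1 hp)
        have h5 : ‖α p‖ ^ (2 * M) ≤ A := pow_le_pow_left₀ (norm_nonneg _) (hαT p) _
        have h6 : 0 < ((p : ℕ) : ℝ) ^ (1 / 2 : ℝ) := by
          have := p.2.pos
          positivity
        rw [Real.rpow_neg (by positivity), ← div_eq_mul_inv, div_le_iff₀ h6]
        linarith
  · intro p hp
    rw [hlam, hy]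
    simp only []
    rw [if_pos hp]
  · intro p hp
    rw [hlam, hy]
    simp only []
    rw [if_neg (not_lt.2 hp)]
  · intro p hp
    rw [hlam] at hp
    rcases hα p with h | h
    · exact absurd hp (not_lt.2 h.1)
    · exact h.2.2.1.ne'
  · intro a
    obtain ⟨C, hC⟩ := hsum (Sum.inr a)
    refine ⟨C, fun X => le_trans (le_of_eq ?_) (hC X)⟩
    congr 1
    refine Finset.sum_congr rfl fun p _ => ?_
    have h1 : g (Sum.inr a) (κ p) * c (Sum.inr a) p = ((if κ p = a then 1 else 0) - (w a : ℂ)) * 1 := rfl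
    rw [h1, mul_one]

end Pool.Agent.H2.Real
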