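import Pool.Agent.H2.GLnDefs
import Pool.Agent.H2.Real

set_option autoImplicit false

namespace Pool.Agent.H2.GLn

open Finset Complex ComplexConjugate

/-- the `m`-th roots of `-1` -/
noncomputable def om (m : ℕ) (j : Fin m) : ℂ := exp (((Real.pi * (2 * (j : ℕ) + 1) / m : ℝ) : ℂ) * I)

theorem om_rev {m : ℕ} (j : Fin m) : om m j.rev = conj (om m j) := by
  unfold om
  rw [← exp_conj, map_mul, conj_I, conj_ofReal]
  have hm : (m : ℝ) ≠ 0 := by
    have := j.2
    have : m ≠ 0 := by omega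
    exact_mod_cast this
  have h1 : ((j.rev : ℕ) : ℝ) = m - 1 - (j : ℕ) := by
    rw [Fin.val_rev]
    have := j.2
    rw [Nat.cast_sub (by omega)]
    push_cast
    ring
  have h2 : Real.pi * (2 * ((j.rev : ℕ) : ℝ) + 1) / m = 2 * Real.pi - Real.pi * (2 * (j : ℕ) + 1) / m := by
    rw [h1]
    field_simp
    ring
  rw [h2]
  have h3 : (((2 * Real.pi - Real.pi * (2 * (j : ℕ) + 1) / m : ℝ)) : ℂ) * I =
      ((Real.pi * (2 * (j : ℕ) + 1) / m : ℝ) : ℂ) * -I + 2 * Real.pi * I := by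
    push_cast
    ring
  rw [h3, exp_periodic]

theorem norm_om {m : ℕ} (j : Fin m) : ‖om m j‖ = 1 := norm_exp_ofReal_mul_I _

theorem sum_om {m k : ℕ} (hk : 0 < k) (hkm : k < m) : ∑ j, om m j ^ k = 0 := by
  have hm : m ≠ 0 := by omega
  have hζ := Complex.isPrimitiveRoot_exp m hm
  set ζ := exp (2 * Real.pi * I / m) with hζd
  have h1 : ζ ^ k ≠ 1 := hζ.pow_ne_one_of_pos_of_lt hk.ne' hkm
  have hm' : (m : ℂ) ≠ 0 := by exact_mod_cast hm
  have h2 : ∀ j : Fin m, om m j ^ k = exp (Real.pi * I * k / m) * (ζ ^ k) ^ (j : ℕ) := by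
    intro j
    unfold om
    rw [hζd, ← exp_nat_mul, ← exp_nat_mul, ← exp_nat_mul, ← exp_add]
    congr 1
    push_cast
    field_simp
    ring
  rw [Finset.sum_congr rfl fun j _ => h2 j, ← Finset.mul_sum, Fin.sum_univ_eq_sum_range (fun j => (ζ ^ k) ^ j) m,
    geom_sum_eq h1, ← pow_mul, mul_comm k m, pow_mul, hζ.pow_eq_one, one_pow, sub_self, zero_div, mul_zero]

theorem pair_pow (φ : ℝ) (k : ℕ) : exp (φ * I) ^ k + conj (exp (φ * I)) ^ k =
    ((2 * (Polynomial.Chebyshev.T ℝ k).eval (Real.cos φ) : ℝ) : ℂ) := by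
  rw [← map_pow, add_conj, ← exp_nat_mul, Polynomial.Chebyshev.T_real_cos]
  congr 2
  have : (k : ℂ) * (φ * I) = ((k * φ : ℝ) : ℂ) * I := by
    push_cast
    ring
  rw [this, exp_ofReal_mul_I_re]
  push_cast
  rfl

theorem units (m : ℕ) (hm : 2 ≤ m) : ∃ C : ℝ, 0 ≤ C ∧ ∀ ε : ℝ, 0 ≤ ε → ε ≤ 1 / 2 → ∃ β : Fin m → ℂ,
    (∀ j, ‖β j‖ = 1) ∧ (∀ j, β j.rev = conj (β j)) ∧ ∑ j, β j = (ε : ℂ) ∧
    ∀ k : ℕ, 1 ≤ k → k < m → ‖∑ j, β j ^ k‖ ≤ C * ε := by
  choose L hL0 hL using fun k : ℕ => Real.poly_bound (Polynomial.Chebyshev.T ℝ k) 1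
  have hC0 : 0 ≤ ∑ k ∈ range m, L k := Finset.sum_nonneg fun k _ => hL0 k
  refine ⟨∑ k ∈ range m, L k, hC0, fun ε hε0 hε1 => ?_⟩
  set a : Fin m := ⟨m / 2 - 1, by omega⟩ with ha
  have hab : a ≠ a.rev := by
    intro h
    have := congrArg (fun i : Fin m => (i : ℕ)) h
    simp only [Fin.val_rev, ha] at this
    omega
  set φ₀ : ℝ := Real.pi * (2 * (a : ℕ) + 1) / m with hφ₀
  have hm0 : (0 : ℝ) < m := by
    have : 0 < m := by omega
    exact_mod_cast this
  have hcos : Real.cos φ₀ ≤ 1 / 2 := by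
    rw [← Real.cos_pi_div_three]
    apply Real.cos_le_cos_of_nonneg_of_le_pi (by positivity)
    · rw [hφ₀, div_le_iff₀ hm0]
      have h1 : 2 * (a : ℕ) + 1 ≤ m := by
        rw [ha]
        simp only []
        omega
      have h2 : (2 * ((a : ℕ) : ℝ) + 1) ≤ m := by exact_mod_cast h1
      exact mul_le_mul_of_nonneg_left h2 Real.pi_pos.le
    · rw [hφ₀, div_le_div_iff₀ (by norm_num) hm0]
      have h1 : m ≤ (2 * (a : ℕ) + 1) * 3 := by
        rw [ha]
        simp only []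
        omega
      have h2 : (m : ℝ) ≤ (2 * ((a : ℕ) : ℝ) + 1) * 3 := by exact_mod_cast h1
      nlinarith [Real.pi_pos]
  have hcos1 := Real.neg_one_le_cos φ₀
  set c : ℝ := Real.cos φ₀ + ε / 2 with hc
  have hc1 : -1 ≤ c := by linarith
  have hc2 : c ≤ 1 := by linarith
  set z : ℂ := exp (Real.arccos c * I) with hz
  have hzc : Real.cos (Real.arccos c) = c := Real.cos_arccos hc1 hc2
  have hoa : om m a = exp (φ₀ * I) := rfl
  set β : Fin m → ℂ := fun j => if j = a then z else if j = a.rev then conj z else om m j with hβ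
  have hsum : ∀ k : ℕ, ∑ j, β j ^ k = ∑ j, om m j ^ k +
      (((2 * (Polynomial.Chebyshev.T ℝ k).eval c : ℝ) : ℂ) -
        ((2 * (Polynomial.Chebyshev.T ℝ k).eval (Real.cos φ₀) : ℝ) : ℂ)) := by
    intro k
    have h1 : ∀ j, β j ^ k = om m j ^ k + ((if j = a then z ^ k - om m a ^ k else 0) +
        (if j = a.rev then conj z ^ k - om m a.rev ^ k else 0)) := by
      intro j
      rw [hβ]
      simp only []
      by_cases h1 : j = a
      · rw [if_pos h1, if_pos h1, if_neg (by rw [h1]; exact hab), h1]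
        ring
      · rw [if_neg h1, if_neg h1]
        by_cases h2 : j = a.rev
        · rw [if_pos h2, if_pos h2, h2]
          ring
        · rw [if_neg h2, if_neg h2]
          ring
    rw [Finset.sum_congr rfl fun j _ => h1 j, Finset.sum_add_distrib, Finset.sum_add_distrib, Finset.sum_ite_eq',
      Finset.sum_ite_eq', if_pos (Finset.mem_univ _), if_pos (Finset.mem_univ _)]
    congr 1
    rw [om_rev, hoa]
    have h2 := pair_pow (Real.arccos c) k
    have h3 := pair_pow φ₀ k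
    rw [hzc] at h2
    rw [← h2, ← h3, ← hz]
    ring
  refine ⟨β, ?_, ?_, ?_, ?_⟩
  · intro j
    rw [hβ]
    simp only []
    split_ifs
    · exact norm_exp_ofReal_mul_I _
    · rw [norm_conj]
      exact norm_exp_ofReal_mul_I _
    · exact norm_om j
  · intro j
    rw [hβ]
    simp only []
    by_cases h1 : j = a
    · rw [h1, if_neg hab.symm, if_pos rfl, if_pos rfl]
    · by_cases h2 : j = a.rev
      · rw [h2, Fin.rev_rev, if_pos rfl, if_neg hab.symm, if_pos rfl, conj_conj]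
      · rw [if_neg (fun h => h2 (by rw [← h, Fin.rev_rev])), if_neg (fun h => h1 (Fin.rev_injective h)), if_neg h1,
          if_neg h2, om_rev]
  · have h1 := hsum 1
    simp only [pow_one] at h1
    have h2 := sum_om (m := m) one_pos (by omega)
    simp only [pow_one] at h2
    rw [h1, h2, zero_add, Nat.cast_one, Polynomial.Chebyshev.T_one, Polynomial.eval_X, Polynomial.eval_X, hc]
    push_cast
    ring
  · intro k hk1 hkm
    rw [hsum k, sum_om (by omega) hkm, zero_add, ← ofReal_sub, norm_real, Real.norm_eq_abs, ← mul_sub, abs_mul, abs_two]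
    have h1 := hL k c (Real.cos φ₀) (abs_le.2 ⟨hc1, hc2⟩) (Real.abs_cos_le_one _)
    have h2 : |c - Real.cos φ₀| = ε / 2 := by
      rw [hc, add_sub_cancel_left, abs_of_nonneg (by linarith)]
    rw [h2] at h1
    have h3 : L k ≤ ∑ k ∈ range m, L k := Finset.single_le_sum (fun k _ => hL0 k) (Finset.mem_range.2 hkm)
    calc 2 * |(Polynomial.Chebyshev.T ℝ k).eval c - (Polynomial.Chebyshev.T ℝ k).eval (Real.cos φ₀)| ≤
        2 * (L k * (ε / 2)) := by linarith
      _ = L k * ε := by ring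
      _ ≤ _ := mul_le_mul_of_nonneg_right h3 hε0

end Pool.Agent.H2.GLn
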