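import Pool.Agent.H2.GLnBlock
import Pool.Agent.H2.GLnAna
import Pool.Agent.H2.GLnExp

set_option autoImplicit false

namespace Pool.Agent.H2.GLn

open Finset Complex Filter Topology ComplexConjugate Pool.Agent.H2.SymDefs Pool.Agent.H2.Eul Pool.Agent.H2.Real

/-- `r`-th roots of unity without correlations with the twists -/
theorem exists_units (r : ℕ) (hr : 2 ≤ r) {J : Type} [Countable J] (τ : J → EulerProduct) :
    ∃ u : Nat.Primes → ℂ, (∀ p, u p ^ r = 1) ∧ ∀ j, ∀ e : ℕ, 1 ≤ e → e < r →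
      ∃ C : ℝ, ∀ x : ℕ, ‖∑ p ∈ primesLE x, u p ^ e * coef (τ j) p‖ ≤ C * √x := by
  have hζ := Complex.isPrimitiveRoot_exp r (by omega)
  set ζ := exp (2 * Real.pi * I / r) with hζd
  have hr0 : (r : ℝ) ≠ 0 := by
    have : r ≠ 0 := by omega
    exact_mod_cast this
  have hr0' : (r : ℂ) ≠ 0 := by exact_mod_cast hr0
  have hζn : ∀ k : ℕ, ‖ζ ^ k‖ = 1 := by
    intro k
    rw [norm_pow, hζ.norm'_eq_one (by omega), one_pow]
  let g : J × Fin r → Fin r → ℂ := fun t k => if (t.2 : ℕ) = 0 then 0 else (ζ ^ (k : ℕ)) ^ (t.2 : ℕ)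
  have hg1 : ∀ t k, ‖g t k‖ ≤ 1 := by
    intro t k
    show ‖if (t.2 : ℕ) = 0 then (0 : ℂ) else (ζ ^ (k : ℕ)) ^ (t.2 : ℕ)‖ ≤ 1
    split_ifs
    · simp
    · rw [norm_pow, hζn, one_pow]
  obtain ⟨k, hk⟩ := Pot.exists_choice' (fun _ : Fin r => (1 / r : ℝ)) g (fun t n => coef (τ t.1) (P n))
    (fun t => 1 * (τ t.1).deg) (fun _ => by positivity) (by simp [hr0]) (by
      intro t
      show ∑ k : Fin r, ((1 / r : ℝ) : ℂ) * (if (t.2 : ℕ) = 0 then (0 : ℂ) else (ζ ^ (k : ℕ)) ^ (t.2 : ℕ)) = 0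
      by_cases h : (t.2 : ℕ) = 0
      · simp [h]
      · simp only [h, if_false]
        rw [← Finset.mul_sum]
        have h1 : ∀ k : Fin r, (ζ ^ (k : ℕ)) ^ (t.2 : ℕ) = (ζ ^ (t.2 : ℕ)) ^ (k : ℕ) := by
          intro k
          rw [← pow_mul, ← pow_mul, mul_comm]
        have h2 : ζ ^ (t.2 : ℕ) ≠ 1 := hζ.pow_ne_one_of_pos_of_lt h t.2.2
        rw [Finset.sum_congr rfl fun k _ => h1 k, Fin.sum_univ_eq_sum_range (fun k => (ζ ^ (t.2 : ℕ)) ^ k) r,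
          geom_sum_eq h2, ← pow_mul, mul_comm (t.2 : ℕ) r, pow_mul, hζ.pow_eq_one, one_pow, sub_self, zero_div,
          mul_zero]) (by
      intro t n k
      rw [norm_mul]
      exact mul_le_mul (hg1 t k) (norm_coef _ _) (norm_nonneg _) zero_le_one)
  refine ⟨fun p => ζ ^ ((k (Nat.count Nat.Prime (p : ℕ)) : Fin r) : ℕ), fun p => ?_, ?_⟩
  · rw [← pow_mul, mul_comm, pow_mul, hζ.pow_eq_one, one_pow]
  · intro j e he1 her
    obtain ⟨C, hC⟩ := hk (j, ⟨e, her⟩)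
    refine ⟨|C|, fun x => ?_⟩
    rw [sum_primesLE]
    have h1 : ∀ n, (ζ ^ ((k (Nat.count Nat.Prime ((P n : Nat.Primes) : ℕ)) : Fin r) : ℕ)) ^ e * coef (τ j) (P n) =
        g (j, ⟨e, her⟩) (k n) * coef (τ j) (P n) := by
      intro n
      have h2 : Nat.count Nat.Prime ((P n : Nat.Primes) : ℕ) = n :=
        Nat.count_nth_of_infinite Nat.infinite_setOfPred_prime n
      rw [h2]
      show _ = (if e = 0 then (0 : ℂ) else (ζ ^ ((k n : Fin r) : ℕ)) ^ e) * coef (τ j) (P n)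
      rw [if_neg (by omega)]
    rw [Finset.sum_congr rfl fun n _ => h1 n]
    refine (hC (cnt x)).trans ?_
    have h3 : √(cnt x) ≤ √x := Real.sqrt_le_sqrt (by exact_mod_cast cnt_le x)
    calc C * √(cnt x) ≤ |C| * √(cnt x) := mul_le_mul_of_nonneg_right (le_abs_self C) (by positivity)
      _ ≤ |C| * √x := mul_le_mul_of_nonneg_left h3 (abs_nonneg C)

theorem nice_cancel {ν : Type} [Fintype ν] (V : Nat.Primes → ν → ℂ) (τ : EulerProduct) {η : ℝ} (hη0 : 0 < η)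
    (hη : η ≤ 1 / 2)
    (hlt : ∀ s : ℂ, 1 - η < s.re → ∀ p, ∀ k : ν × Fin τ.deg, ‖V p k.1 * τ.β p k.2 * ((p : ℕ) : ℂ) ^ (-s)‖ < 1)
    (hG : ∃ G : ℂ → ℂ, DifferentiableOn ℂ G {s | 1 - η < s.re} ∧ ∀ s : ℂ, 1 - η < s.re →
      HasSum (fun p => ∑ k : ν × Fin τ.deg, (-log (1 - V p k.1 * τ.β p k.2 * ((p : ℕ) : ℂ) ^ (-s)) -
        V p k.1 * τ.β p k.2 * ((p : ℕ) : ℂ) ^ (-s))) (G s))
    (h1 : ∀ p, ‖∑ i, V p i‖ ≤ 1) (C : ℝ) (hC : ∀ x : ℕ, ‖∑ p ∈ primesLE x, (∑ i, V p i) * coef τ p‖ ≤ C * √x) :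
    NiceUpTo η (factor V τ) fun _ => 1 := by
  obtain ⟨G, hGd, hGs⟩ := hG
  obtain ⟨g, hgd, hgs⟩ := prime_series (fun p => (∑ i, V p i) * coef τ p) (1 * τ.deg) C (fun p => by
    rw [norm_mul]
    exact mul_le_mul (h1 p) (norm_coef _ _) (norm_nonneg _) zero_le_one) hC
  refine ⟨fun s => G s + g s, ?_, fun s hs => ?_⟩
  · apply hGd.add
    apply hgd.mono
    intro s hs
    have : 1 - η < s.re := hs
    show 1 / 2 < s.re
    linarith
  · rw [one_mul]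
    exact prod_of_sums V τ s (hlt s (by linarith)) (hGs s (by linarith)) (hgs s hs)

theorem nice_trivial {ν : Type} [Fintype ν] (V : Nat.Primes → ν → ℂ) (τ : EulerProduct) {η : ℝ} (hη0 : 0 < η)
    (hη : η ≤ 1 / 2)
    (hlt : ∀ s : ℂ, 1 - η < s.re → ∀ p, ∀ k : ν × Fin τ.deg, ‖V p k.1 * τ.β p k.2 * ((p : ℕ) : ℂ) ^ (-s)‖ < 1)
    (hG : ∃ G : ℂ → ℂ, DifferentiableOn ℂ G {s | 1 - η < s.re} ∧ ∀ s : ℂ, 1 - η < s.re →
      HasSum (fun p => ∑ k : ν × Fin τ.deg, (-log (1 - V p k.1 * τ.β p k.2 * ((p : ℕ) : ℂ) ^ (-s)) -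
        V p k.1 * τ.β p k.2 * ((p : ℕ) : ℂ) ^ (-s))) (G s))
    (h1 : ∀ p, ∑ i, V p i = 1) :
    NiceUpTo η (factor V τ) (LFun τ) := by
  obtain ⟨G, hGd, hGs⟩ := hG
  obtain ⟨Rτ, hRd, hR⟩ := tau_series τ
  refine ⟨fun s => G s - Rτ s, ?_, fun s hs => ?_⟩
  · apply hGd.sub
    apply hRd.mono
    intro s hs
    have : 1 - η < s.re := hs
    show 1 / 2 < s.re
    linarith
  · obtain ⟨ℓ, hℓ, hprod⟩ := hR s hs
    have h2 : HasSum (fun p => (∑ i, V p i) * coef τ p * ((p : ℕ) : ℂ) ^ (-s)) ℓ := by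
      simpa only [h1, one_mul] using hℓ
    have h3 := prod_of_sums V τ s (hlt s (by linarith)) (hGs s (by linarith)) h2
    have h4 : LFun τ s * exp (G s - Rτ s) = exp (G s + ℓ) := by
      unfold LFun
      rw [hprod.tprod_eq, ← exp_add]
      congr 1
      ring
    rw [h4]
    exact h3

theorem main (n : ℕ) (hn : 4 ≤ n) (θ : Nat.Primes → ℝ) (h0 : ∀ p, 0 ≤ θ p) (h1 : ∀ p, θ p < 1 / 2) {ε : ℝ}
    (hε : 0 < ε) (hs : Summable fun p : Nat.Primes => ((p : ℕ) : ℝ) ^ (-((n / 2 : ℕ) : ℝ) * (1 - 2 * θ p) + ε))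
    (r : ℕ) (hr : r = 2 ∨ r = 3) {J : Type} [Countable J] (τ : J → EulerProduct) :
    ∃ A : Nat.Primes → Fin n → ℂ, (∀ p : Nat.Primes, UnitaryGeneric (p : ℕ) (A p) ∧ (r = 2 → SelfDual (A p)) ∧
      (∃ i, ‖A p i‖ = ((p : ℕ) : ℝ) ^ θ p) ∧ (∀ i, ‖A p i‖ ≤ ((p : ℕ) : ℝ) ^ θ p) ∧ (∑ i, A p i) ^ r = 1) ∧
      ∃ η : ℝ, 0 < η ∧ ∀ j, NiceUpTo η (factor A (τ j)) (fun _ => 1) ∧
        NiceUpTo η (factor (tensor A A) (τ j)) (if r = 2 then LFun (τ j) else fun _ => 1) ∧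
        NiceUpTo η (factor (tensor A (dual A)) (τ j)) (LFun (τ j)) := by
  obtain ⟨C, hC1, hC⟩ := block n hn
  obtain ⟨u, hu, huτ⟩ := exists_units r (by omega) τ
  obtain ⟨η, κ, hη0, hη, hκ, e1, e2, e3⟩ := exponents (n / 2) (by omega) θ h1 hε hs
  have hp1 : ∀ p : Nat.Primes, (1 : ℝ) < ((p : ℕ) : ℝ) := fun p => by exact_mod_cast p.2.one_lt
  have hR1 : ∀ p : Nat.Primes, 1 ≤ ((p : ℕ) : ℝ) ^ θ p := fun p => Real.one_le_rpow (hp1 p).le (h0 p)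
  choose A₀ hA using fun p : Nat.Primes => hC (((p : ℕ) : ℝ) ^ θ p) (hR1 p)
  have hun : ∀ p, ‖u p‖ = 1 := by
    intro p
    have h2 : ‖u p‖ ^ r = 1 := by rw [← norm_pow, hu, norm_one]
    exact (pow_eq_one_iff_of_nonneg (norm_nonneg _) (by omega)).1 h2
  have huu : ∀ p, u p * conj (u p) = 1 := by
    intro p
    rw [mul_conj, normSq_eq_norm_sq, hun]
    simp
  set A : Nat.Primes → Fin n → ℂ := fun p i => u p * A₀ p i with hAdef
  have hAn : ∀ p i, ‖A p i‖ = ‖A₀ p i‖ := fun p i => by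
    rw [hAdef]
    simp only []
    rw [norm_mul, hun, one_mul]
  have hsum1 : ∀ p, ∑ i, A p i = u p := by
    intro p
    obtain ⟨-, -, -, -, h, -⟩ := hA p
    rw [hAdef]
    simp only []
    rw [← Finset.mul_sum, h, mul_one]
  have hpow : ∀ p k, 2 ≤ k → k < n / 2 → ‖∑ i, A p i ^ k‖ ≤ C * (((p : ℕ) : ℝ) ^ θ p) ^ (k - 1) := by
    intro p k hk1 hk2
    obtain ⟨-, -, -, -, -, h⟩ := hA p
    have h2 : ∑ i, A p i ^ k = u p ^ k * ∑ i, A₀ p i ^ k := by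
      rw [Finset.mul_sum]
      refine Finset.sum_congr rfl fun i _ => ?_
      rw [hAdef]
      simp only []
      rw [mul_pow]
    rw [h2, norm_mul, norm_pow, hun, one_pow, one_mul]
    exact h k hk1 hk2
  have hle : ∀ p i, ‖A p i‖ ≤ ((p : ℕ) : ℝ) ^ θ p := fun p i => by
    obtain ⟨-, -, -, h, -, -⟩ := hA p
    rw [hAn]
    exact h i
  have hsq : ∀ (p : Nat.Primes) (k : ℕ), 2 ≤ k → (C * (((p : ℕ) : ℝ) ^ θ p) ^ (k - 1)) ^ 2 =
      C ^ 2 * (((p : ℕ) : ℝ) ^ θ p) ^ (2 * (k - 1)) := by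
    intro p k _
    rw [mul_pow, ← pow_mul, mul_comm (k - 1) 2]
  refine ⟨A, fun p => ⟨⟨?_, ?_⟩, ?_, ?_, fun i => hle p i, ?_⟩, η, hη0, fun j => ⟨?_, ?_, ?_⟩⟩
  · obtain ⟨⟨σ, hσ⟩, -⟩ := hA p
    refine ⟨σ, fun i => ?_⟩
    show u p * A₀ p (σ i) * conj (u p * A₀ p i) = 1
    rw [map_mul]
    calc u p * A₀ p (σ i) * (conj (u p) * conj (A₀ p i)) = (u p * conj (u p)) * (A₀ p (σ i) * conj (A₀ p i)) := by ring
      _ = 1 := by rw [huu, hσ, one_mul]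
  · intro i
    refine lt_of_le_of_lt (hle p i) ?_
    exact Real.rpow_lt_rpow_of_exponent_lt (hp1 p) (h1 p)
  · intro hr2
    obtain ⟨-, ⟨σ, hσ⟩, -⟩ := hA p
    refine ⟨σ, fun i => ?_⟩
    show u p * A₀ p (σ i) * (u p * A₀ p i) = 1
    have h2 := hu p
    rw [hr2] at h2
    calc u p * A₀ p (σ i) * (u p * A₀ p i) = u p ^ 2 * (A₀ p (σ i) * A₀ p i) := by ring
      _ = 1 := by rw [h2, hσ, one_mul]
  · obtain ⟨-, -, ⟨i, hi⟩, -⟩ := hA p
    exact ⟨i, by rw [hAn, hi]⟩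
  · rw [hsum1, hu]
  · -- the standard `L`-function
    obtain ⟨hlt, hG⟩ := tensor_euler A (τ j) (m := n / 2) (by omega) (fun p => ((p : ℕ) : ℝ) ^ θ p) (σ₀ := 1 - η)
      (κ := κ) (C := C ^ 2) hκ (fun p i => (hle p i).trans (le_self_pow₀ (hR1 p) (by norm_num))) e1 (by
        intro p k hk1 hk2
        refine (hpow p k hk1 hk2).trans ?_
        rw [← hsq p k hk1]
        apply le_self_pow₀ _ (by norm_num)
        exact one_le_mul_of_one_le_of_one_le hC1 (one_le_pow₀ (hR1 p))) e2 e3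
    obtain ⟨C', hC'⟩ := huτ j 1 le_rfl (by omega)
    apply nice_cancel A (τ j) hη0 hη hlt hG (fun p => by rw [hsum1, hun]) C'
    intro x
    refine le_trans (le_of_eq ?_) (hC' x)
    congr 1
    refine Finset.sum_congr rfl fun p _ => ?_
    rw [hsum1, pow_one]
  · -- `Π × Π`
    have hV : ∀ p (k : ℕ), ∑ x : Fin n × Fin n, tensor A A p x ^ k = (∑ i, A p i ^ k) ^ 2 := by
      intro p k
      rw [Fintype.sum_prod_type, sq, Finset.sum_mul_sum]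
      refine Finset.sum_congr rfl fun i _ => Finset.sum_congr rfl fun l _ => ?_
      show (A p i * A p l) ^ k = _
      rw [mul_pow]
    obtain ⟨hlt, hG⟩ := tensor_euler (tensor A A) (τ j) (m := n / 2) (by omega) (fun p => ((p : ℕ) : ℝ) ^ θ p)
      (σ₀ := 1 - η) (κ := κ) (C := C ^ 2) hκ (fun p i => by
        show ‖A p i.1 * A p i.2‖ ≤ _
        rw [norm_mul, sq]
        exact mul_le_mul (hle p _) (hle p _) (norm_nonneg _) (by linarith [hR1 p])) e1 (by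
        intro p k hk1 hk2
        rw [hV, norm_pow, ← hsq p k hk1]
        exact pow_le_pow_left₀ (norm_nonneg _) (hpow p k hk1 hk2) 2) e2 e3
    have hV1 : ∀ p, ∑ x : Fin n × Fin n, tensor A A p x = u p ^ 2 := by
      intro p
      have := hV p 1
      simp only [pow_one] at this
      rw [this, hsum1]
    rcases hr with hr2 | hr3
    · rw [if_pos hr2]
      apply nice_trivial (tensor A A) (τ j) hη0 hη hlt hG
      intro p
      have := hu p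
      rw [hr2] at this
      rw [hV1, this]
    · rw [if_neg (by omega)]
      obtain ⟨C', hC'⟩ := huτ j 2 (by norm_num) (by omega)
      apply nice_cancel (tensor A A) (τ j) hη0 hη hlt hG (fun p => by rw [hV1, norm_pow, hun, one_pow]) C'
      intro x
      refine le_trans (le_of_eq ?_) (hC' x)
      congr 1
      refine Finset.sum_congr rfl fun p _ => ?_
      rw [hV1]
  · -- `Π × Π~`
    have hV : ∀ p (k : ℕ), ∑ x : Fin n × Fin n, tensor A (dual A) p x ^ k = (∑ i, A p i ^ k) * conj (∑ i, A p i ^ k) := by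
      intro p k
      rw [Fintype.sum_prod_type, map_sum, Finset.sum_mul_sum]
      refine Finset.sum_congr rfl fun i _ => Finset.sum_congr rfl fun l _ => ?_
      show (A p i * conj (A p l)) ^ k = _
      rw [mul_pow, map_pow]
    obtain ⟨hlt, hG⟩ := tensor_euler (tensor A (dual A)) (τ j) (m := n / 2) (by omega)
      (fun p => ((p : ℕ) : ℝ) ^ θ p) (σ₀ := 1 - η) (κ := κ) (C := C ^ 2) hκ (fun p i => by
        show ‖A p i.1 * conj (A p i.2)‖ ≤ _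
        rw [norm_mul, norm_conj, sq]
        exact mul_le_mul (hle p _) (hle p _) (norm_nonneg _) (by linarith [hR1 p])) e1 (by
        intro p k hk1 hk2
        rw [hV, norm_mul, norm_conj, ← sq, ← hsq p k hk1]
        exact pow_le_pow_left₀ (norm_nonneg _) (hpow p k hk1 hk2) 2) e2 e3
    apply nice_trivial (tensor A (dual A)) (τ j) hη0 hη hlt hG
    intro p
    have := hV p 1
    simp only [pow_one] at this
    rw [this, hsum1, huu]

/-- **The exponents which Rankin–Selberg theory allows.** -/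
theorem exponents_allowed (n : ℕ) (hn : 4 ≤ n) (θ : Nat.Primes → ℝ) (hθ : ∀ p, 0 ≤ θ p ∧ θ p < 1 / 2)
    (hs : ∃ ε : ℝ, 0 < ε ∧
      Summable fun p : Nat.Primes => ((p : ℕ) : ℝ) ^ (-((n / 2 : ℕ) : ℝ) * (1 - 2 * θ p) + ε))
    (J : Type) [Countable J] (τ : J → EulerProduct) :
    (∃ a : Nat.Primes → Fin n → ℂ, (∀ p : Nat.Primes, UnitaryGeneric (p : ℕ) (a p)) ∧ HasExponents a θ ∧
      ∃ η : ℝ, 0 < η ∧ ∀ j, NiceGeneral a η (τ j)) ∧
    ∃ a : Nat.Primes → Fin n → ℂ, (∀ p : Nat.Primes, UnitaryGeneric (p : ℕ) (a p) ∧ SelfDual (a p)) ∧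
      HasExponents a θ ∧ ∃ η : ℝ, 0 < η ∧ ∀ j, NiceSelfDual a η (τ j) := by
  obtain ⟨ε, hε, hs⟩ := hs
  constructor
  · obtain ⟨a, h1, η, hη, h2⟩ := main n hn θ (fun p => (hθ p).1) (fun p => (hθ p).2) hε hs 3 (Or.inr rfl) τ
    refine ⟨a, fun p => (h1 p).1, fun p => ⟨(h1 p).2.2.1, (h1 p).2.2.2.1⟩, η, hη, fun j => ?_⟩
    have h3 := h2 j
    rw [if_neg (by norm_num)] at h3
    exact h3
  · obtain ⟨a, h1, η, hη, h2⟩ := main n hn θ (fun p => (hθ p).1) (fun p => (hθ p).2) hε hs 2 (Or.inl rfl) τ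
    refine ⟨a, fun p => ⟨(h1 p).1, (h1 p).2.1 rfl⟩, fun p => ⟨(h1 p).2.2.1, (h1 p).2.2.2.1⟩, η, hη, fun j => ?_⟩
    have h3 := h2 j
    rw [if_pos rfl] at h3
    exact h3

theorem constant_summable (n : ℕ) (hn : 4 ≤ n) {θ : ℝ} (hθ : θ < 1 / 2 - 1 / (2 * ((n / 2 : ℕ) : ℝ))) :
    ∃ ε : ℝ, 0 < ε ∧ Summable fun p : Nat.Primes => ((p : ℕ) : ℝ) ^ (-((n / 2 : ℕ) : ℝ) * (1 - 2 * θ) + ε) := by
  have hm : (0 : ℝ) < ((n / 2 : ℕ) : ℝ) := by
    have : 0 < n / 2 := by omega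
    exact_mod_cast this
  have h1 : 1 < ((n / 2 : ℕ) : ℝ) * (1 - 2 * θ) := by
    have h2 : 1 / (2 * ((n / 2 : ℕ) : ℝ)) < 1 / 2 - θ := by linarith
    rw [div_lt_iff₀ (by positivity)] at h2
    linarith
  refine ⟨(((n / 2 : ℕ) : ℝ) * (1 - 2 * θ) - 1) / 2, by linarith, ?_⟩
  rw [Nat.Primes.summable_rpow]
  linarith

end Pool.Agent.H2.GLn
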