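import Mathlib

set_option autoImplicit false

namespace Pool.Agent.H2.Quad

open Polynomial Finset

/-- a polynomial without roots in the open interval has constant sign on the closed interval -/
theorem sign_of_no_root {a b : ℝ} (hab : a < b) (f : ℝ[X]) (hf : ∀ x ∈ Set.Ioo a b, f.eval x ≠ 0) :
    (∀ x ∈ Set.Icc a b, 0 ≤ f.eval x) ∨ (∀ x ∈ Set.Icc a b, f.eval x ≤ 0) := by
  by_cases h : ∃ x ∈ Set.Ioo a b, 0 < f.eval x
  · left
    obtain ⟨x, hx, hx0⟩ := h
    have h1 : ∀ y ∈ Set.Ioo a b, 0 < f.eval y := by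
      intro y hy
      by_contra hy0
      have hy0' : f.eval y < 0 := lt_of_le_of_ne (not_lt.1 hy0) (hf y hy)
      have hc : ContinuousOn (fun z => f.eval z) (Set.uIcc y x) := f.continuous.continuousOn
      have h0 : (0 : ℝ) ∈ Set.uIcc (f.eval y) (f.eval x) := by
        rw [Set.mem_uIcc]
        left
        exact ⟨hy0'.le, hx0.le⟩
      obtain ⟨z, hz, hz0⟩ := intermediate_value_uIcc hc h0
      have hz' : z ∈ Set.Ioo a b := by
        have hconv : Set.uIcc y x ⊆ Set.Ioo a b := by
          intro w hw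
          rw [Set.mem_uIcc] at hw
          rcases hw with hw | hw
          · exact ⟨lt_of_lt_of_le hy.1 hw.1, lt_of_le_of_lt hw.2 hx.2⟩
          · exact ⟨lt_of_lt_of_le hx.1 hw.1, lt_of_le_of_lt hw.2 hy.2⟩
        exact hconv hz
      exact hf z hz' hz0
    have h2 : Set.Icc a b ⊆ {y | 0 ≤ f.eval y} := by
      rw [← closure_Ioo hab.ne]
      refine closure_minimal (fun y hy => (h1 y hy).le) ?_
      exact isClosed_le continuous_const f.continuous
    exact fun x hx => h2 hx
  · right
    push Not at h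
    have h2 : Set.Icc a b ⊆ {y | f.eval y ≤ 0} := by
      rw [← closure_Ioo hab.ne]
      refine closure_minimal (fun y hy => h y hy) ?_
      exact isClosed_le f.continuous continuous_const
    exact fun x hx => h2 hx

/-- a polynomial all of whose roots in the open interval have even multiplicity has constant sign -/
theorem sign_of_even {a b : ℝ} (hab : a < b) : ∀ (n : ℕ) (f : ℝ[X]), f ≠ 0 → f.natDegree ≤ n →
    (∀ x ∈ Set.Ioo a b, Even (f.rootMultiplicity x)) →
    (∀ x ∈ Set.Icc a b, 0 ≤ f.eval x) ∨ (∀ x ∈ Set.Icc a b, f.eval x ≤ 0) := by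
  intro n
  induction n with
  | zero =>
    intro f hf hn _
    apply sign_of_no_root hab
    intro x _ h0
    have h1 : f = C (f.coeff 0) := eq_C_of_natDegree_eq_zero (by omega)
    rw [h1, eval_C] at h0
    apply hf
    rw [h1, h0, C_0]
  | succ n ih =>
    intro f hf hn he
    by_cases h : ∃ x ∈ Set.Ioo a b, f.eval x = 0
    · obtain ⟨z, hz, hz0⟩ := h
      have hpos : 0 < f.rootMultiplicity z := (rootMultiplicity_pos hf).2 hz0
      obtain ⟨k, hk⟩ := he z hz
      have hk1 : 2 ≤ f.rootMultiplicity z := by omega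
      obtain ⟨g, hg⟩ : (X - C z) ^ 2 ∣ f :=
        (pow_dvd_pow _ hk1).trans (pow_rootMultiplicity_dvd f z)
      have hg0 : g ≠ 0 := by
        rintro rfl
        exact hf (by rw [hg, mul_zero])
      have hX : (X - C z) ^ 2 ≠ 0 := pow_ne_zero _ (X_sub_C_ne_zero z)
      have hdeg : f.natDegree = 2 + g.natDegree := by
        rw [hg, natDegree_mul hX hg0, natDegree_pow, natDegree_X_sub_C]
      have hmult : ∀ x, f.rootMultiplicity x = ((X - C z) ^ 2 : ℝ[X]).rootMultiplicity x + g.rootMultiplicity x := by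
        intro x
        rw [hg, rootMultiplicity_mul (by rw [← hg]; exact hf)]
      have hsq : ∀ x, Even (((X - C z) ^ 2 : ℝ[X]).rootMultiplicity x) := by
        intro x
        rw [← count_roots, roots_pow, Multiset.count_nsmul]
        exact ⟨_, by ring⟩
      have hge : ∀ x ∈ Set.Ioo a b, Even (g.rootMultiplicity x) := by
        intro x hx
        have h1 := he x hx
        rw [hmult x] at h1
        exact (Nat.even_add.1 h1).1 (hsq x)
      rcases ih g hg0 (by omega) hge with h1 | h1
      · left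
        intro x hx
        rw [hg, eval_mul, eval_pow]
        exact mul_nonneg (sq_nonneg _) (h1 x hx)
      · right
        intro x hx
        rw [hg, eval_mul, eval_pow]
        exact mul_nonpos_of_nonneg_of_nonpos (sq_nonneg _) (h1 x hx)
    · push Not at h
      exact sign_of_no_root hab f h

/-- positivity of a functional with respect to the interval `[a, b]` -/
def Pos (Λ : ℝ[X] →ₗ[ℝ] ℝ) (a b : ℝ) : Prop :=
  ∀ F : ℝ[X], F ≠ 0 → (∀ x ∈ Set.Icc a b, 0 ≤ F.eval x) → 0 < Λ F

/-- existence of a polynomial of degree at most `m` which is orthogonal to all polynomials of degree `< m` for the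
functional `F ↦ Λ ((t - X) F)` -/
theorem exists_orth (Λ : ℝ[X] →ₗ[ℝ] ℝ) (t : ℝ) (m : ℕ) : ∃ q : ℝ[X], q ≠ 0 ∧ q.degree < (m + 1 : ℕ) ∧
    ∀ A : ℝ[X], A.degree < m → Λ (q * ((C t - X) * A)) = 0 := by
  classical
  let φ : degreeLT ℝ (m + 1) →ₗ[ℝ] (Fin m → ℝ) :=
    LinearMap.pi fun j => Λ ∘ₗ (LinearMap.mulRight ℝ ((C t - X) * X ^ (j : ℕ))) ∘ₗ (degreeLT ℝ (m + 1)).subtype
  have hφ : ∀ q : degreeLT ℝ (m + 1), ∀ j : Fin m, φ q j = Λ (q.1 * ((C t - X) * X ^ (j : ℕ))) := fun q j => rfl
  have hker : LinearMap.ker φ ≠ ⊥ := by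
    have : FiniteDimensional ℝ (degreeLT ℝ (m + 1)) := (degreeLTEquiv ℝ (m + 1)).symm.finiteDimensional
    apply LinearMap.ker_ne_bot_of_finrank_lt
    rw [(degreeLTEquiv ℝ (m + 1)).finrank_eq]
    simp
  obtain ⟨q, hq, hq0⟩ := (Submodule.ne_bot_iff _).1 hker
  refine ⟨q.1, fun h => hq0 (Subtype.ext h), mem_degreeLT.1 q.2, ?_⟩
  intro A hA
  have hq' : ∀ j : Fin m, Λ (q.1 * ((C t - X) * X ^ (j : ℕ))) = 0 := by
    intro j
    rw [← hφ, LinearMap.mem_ker.1 hq]
    rfl
  by_cases hA0 : A = 0
  · rw [hA0, mul_zero, mul_zero, map_zero]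
  rw [A.as_sum_range' m ((natDegree_lt_iff_degree_lt hA0).2 hA)]
  rw [Finset.mul_sum, Finset.mul_sum, map_sum]
  apply Finset.sum_eq_zero
  intro i hi
  rw [← C_mul_X_pow_eq_monomial]
  have : q.1 * ((C t - X) * (C (A.coeff i) * X ^ i)) = A.coeff i • (q.1 * ((C t - X) * X ^ i)) := by
    rw [smul_eq_C_mul]
    ring
  rw [this, map_smul, hq' ⟨i, Finset.mem_range.1 hi⟩, smul_zero]

/-- the polynomial of `exists_orth` has `m` different roots in the open interval -/
theorem exists_roots {Λ : ℝ[X] →ₗ[ℝ] ℝ} {a b t : ℝ} (hab : a < b) (hbt : b ≤ t) (hΛ : Pos Λ a b) {m : ℕ}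
    {q : ℝ[X]} (hq0 : q ≠ 0) (horth : ∀ A : ℝ[X], A.degree < m → Λ (q * ((C t - X) * A)) = 0) :
    ∃ N : Finset ℝ, m ≤ N.card ∧ (∀ x ∈ N, x ∈ Set.Ioo a b) ∧ ∀ x ∈ N, q.eval x = 0 := by
  classical
  set Z : Finset ℝ := q.roots.toFinset.filter (fun x => x ∈ Set.Ioo a b ∧ Odd (q.rootMultiplicity x)) with hZ
  have hZm : ∀ x, x ∈ Z ↔ x ∈ Set.Ioo a b ∧ Odd (q.rootMultiplicity x) := by
    intro x
    rw [hZ, Finset.mem_filter, Multiset.mem_toFinset, mem_roots hq0]
    constructor
    · rintro ⟨-, h⟩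
      exact h
    · intro h
      refine ⟨?_, h⟩
      exact (rootMultiplicity_pos hq0).1 h.2.pos
  refine ⟨Z, ?_, fun x hx => ((hZm x).1 hx).1, fun x hx => (rootMultiplicity_pos hq0).1 ((hZm x).1 hx).2.pos⟩
  by_contra hlt
  push Not at hlt
  set A : ℝ[X] := ∏ z ∈ Z, (X - C z) with hA
  have hA0 : A ≠ 0 := Finset.prod_ne_zero_iff.2 fun z _ => X_sub_C_ne_zero z
  have hAdeg : A.degree = (Z.card : ℕ) := by
    rw [hA, degree_prod]
    simp
  have hAroots : A.roots = Z.val := by
    rw [hA]
    exact roots_prod_X_sub_C Z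
  have h0 := horth A (by rw [hAdeg]; exact_mod_cast hlt)
  have hf0 : q * A ≠ 0 := mul_ne_zero hq0 hA0
  have heven : ∀ x ∈ Set.Ioo a b, Even ((q * A).rootMultiplicity x) := by
    intro x hx
    rw [rootMultiplicity_mul hf0]
    have hAx : A.rootMultiplicity x = if x ∈ Z then 1 else 0 := by
      rw [← count_roots, hAroots]
      by_cases hxZ : x ∈ Z
      · rw [if_pos hxZ]
        exact Multiset.count_eq_one_of_mem Z.nodup hxZ
      · rw [if_neg hxZ]
        exact Multiset.count_eq_zero_of_notMem hxZ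
    rw [hAx]
    by_cases hxZ : x ∈ Z
    · rw [if_pos hxZ]
      have := ((hZm x).1 hxZ).2
      exact this.add_one
    · rw [if_neg hxZ, add_zero]
      by_contra hne
      exact hxZ ((hZm x).2 ⟨hx, Nat.not_even_iff_odd.1 hne⟩)
  have htX : C t - X ≠ (0 : ℝ[X]) := by
    intro h
    have : (X : ℝ[X]) = C t := (sub_eq_zero.1 h).symm
    exact X_ne_C t this
  have hfac : ∀ x ∈ Set.Icc a b, 0 ≤ (C t - X : ℝ[X]).eval x := by
    intro x hx
    rw [eval_sub, eval_C, eval_X]
    linarith [hx.2]
  rcases sign_of_even hab _ (q * A) hf0 le_rfl heven with hs | hs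
  · have h1 := hΛ (q * A * (C t - X)) (mul_ne_zero hf0 htX) fun x hx => by
      rw [eval_mul]
      exact mul_nonneg (hs x hx) (hfac x hx)
    rw [show q * A * (C t - X) = q * ((C t - X) * A) by ring, h0] at h1
    exact lt_irrefl _ h1
  · have h1 := hΛ (-(q * A) * (C t - X)) (mul_ne_zero (neg_ne_zero.2 hf0) htX) fun x hx => by
      rw [eval_mul, eval_neg]
      exact mul_nonneg (neg_nonneg.2 (hs x hx)) (hfac x hx)
    rw [show -(q * A) * (C t - X) = -(q * ((C t - X) * A)) by ring, map_neg, h0, neg_zero] at h1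
    exact lt_irrefl _ h1

/-- **Gauss-Radau quadrature** for a positive functional, with the prescribed node `t ≥ b`. -/
theorem radau {Λ : ℝ[X] →ₗ[ℝ] ℝ} {a b t : ℝ} (hab : a < b) (hbt : b ≤ t) (hΛ : Pos Λ a b) (m : ℕ) :
    ∃ (N : Finset ℝ) (w : ℝ → ℝ), N.card = m ∧ (∀ x ∈ N, x ∈ Set.Ioo a b) ∧ (∀ x ∈ N, 0 < w x) ∧ 0 < w t ∧
      ∀ F : ℝ[X], F.degree < (2 * m + 1 : ℕ) → Λ F = ∑ x ∈ N, w x * F.eval x + w t * F.eval t := by
  classical
  obtain ⟨q, hq0, hqdeg, horth⟩ := exists_orth Λ t m
  obtain ⟨N, hNm, hN, hNq⟩ := exists_roots hab hbt hΛ hq0 horth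
  have hqroots : N.val ≤ q.roots := by
    rw [Multiset.le_iff_subset N.nodup]
    intro x hx
    exact (mem_roots hq0).2 (hNq x hx)
  have hqn : q.natDegree ≤ m := by
    have := (natDegree_lt_iff_degree_lt hq0).2 hqdeg
    omega
  have hcard : N.card = m := by
    have h1 : N.card ≤ Multiset.card q.roots := Multiset.card_le_card hqroots
    have h2 := q.card_roots'
    omega
  -- the node polynomial divides `q`
  set P : ℝ[X] := ∏ z ∈ N, (X - C z) with hP
  have hPdvd : P ∣ q := by
    have := (Multiset.prod_X_sub_C_dvd_iff_le_roots hq0 N.val).2 hqroots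
    exact this
  have hP0 : P ≠ 0 := Finset.prod_ne_zero_iff.2 fun z _ => X_sub_C_ne_zero z
  have hPdeg : P.degree = (m : ℕ) := by
    rw [hP, degree_prod, ← hcard]
    simp
  have hPmonic : P.Monic := monic_prod_of_monic _ _ fun z _ => monic_X_sub_C z
  obtain ⟨c, hc⟩ : ∃ c : ℝ, c ≠ 0 ∧ q = C c * P := by
    obtain ⟨g, hg⟩ := hPdvd
    have hg0 : g ≠ 0 := by
      rintro rfl
      exact hq0 (by rw [hg, mul_zero])
    have h1 : q.natDegree = P.natDegree + g.natDegree := by rw [hg, natDegree_mul hP0 hg0]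
    have h2 : P.natDegree = m := natDegree_eq_of_degree_eq_some hPdeg
    have h3 : g.natDegree = 0 := by omega
    have h4 := eq_C_of_natDegree_eq_zero h3
    refine ⟨g.coeff 0, ?_, ?_⟩
    · intro h
      rw [h, C_0] at h4
      exact hg0 h4
    · rw [hg, ← h4, mul_comm]
  have hPorth : ∀ A : ℝ[X], A.degree < m → Λ (P * ((X - C t) * A)) = 0 := by
    intro A hA
    have h1 := horth A hA
    rw [hc.2, show C c * P * ((C t - X) * A) = (-c) • (P * ((X - C t) * A)) by
      rw [smul_eq_C_mul, C_neg]; ring, map_smul, smul_eq_mul] at h1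
    rcases mul_eq_zero.1 h1 with h | h
    · exact absurd (neg_eq_zero.1 h) hc.1
    · exact h
  have htN : t ∉ N := fun h => by
    have := (hN t h).2
    linarith
  set N' : Finset ℝ := insert t N with hN'
  set w : ℝ → ℝ := fun x => Λ (Lagrange.basis N' id x) with hw
  set G : ℝ[X] := P * (X - C t) with hG
  have hGmonic : G.Monic := hPmonic.mul (monic_X_sub_C t)
  have hGdeg : G.degree = (m + 1 : ℕ) := by
    rw [hG, degree_mul, hPdeg, degree_X_sub_C]
    norm_cast
  have hN'card : N'.card = m + 1 := by rw [hN', Finset.card_insert_of_notMem htN, hcard]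
  have hGN' : ∀ x ∈ N', G.eval x = 0 := by
    intro x hx
    rw [hN', Finset.mem_insert] at hx
    rw [hG, eval_mul]
    rcases hx with rfl | hx
    · simp
    · rw [hP, eval_prod, Finset.prod_eq_zero hx (by simp), zero_mul]
  have key : ∀ F : ℝ[X], F.degree < (2 * m + 1 : ℕ) → Λ F = ∑ x ∈ N', w x * F.eval x := by
    intro F hF
    have hdiv := modByMonic_add_div F G
    set A := F /ₘ G with hA
    set B := F %ₘ G with hB
    have hBdeg : B.degree < (N'.card : ℕ) := by
      rw [hN'card, ← hGdeg]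
      exact degree_modByMonic_lt F hGmonic
    have hAdeg : A.degree < m ∨ A = 0 := by
      by_cases hA0 : A = 0
      · right; exact hA0
      left
      have h1 : G.degree + A.degree = F.degree := by
        rw [hA]
        apply degree_add_divByMonic hGmonic
        by_contra hlt
        push Not at hlt
        exact hA0 ((divByMonic_eq_zero_iff hGmonic).2 hlt)
      rw [← h1, hGdeg, degree_eq_natDegree hA0] at hF
      rw [degree_eq_natDegree hA0]
      have h2 : m + 1 + A.natDegree < 2 * m + 1 := by exact_mod_cast hF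
      have h3 : A.natDegree < m := by omega
      exact_mod_cast h3
    have hGA : Λ (G * A) = 0 := by
      rcases hAdeg with h | h
      · rw [hG, mul_assoc]
        exact hPorth A h
      · rw [h, mul_zero, map_zero]
    have hBint : B = ∑ x ∈ N', C (B.eval x) * Lagrange.basis N' id x := by
      have := Lagrange.eq_interpolate (s := N') (v := id) (f := B) (Set.injOn_id _) hBdeg
      rw [Lagrange.interpolate_apply] at this
      simpa using this
    rw [← hdiv, map_add, hGA, add_zero]
    have h5 : Λ B = ∑ x ∈ N', w x * B.eval x := by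
      conv_lhs => rw [hBint]
      rw [map_sum]
      refine Finset.sum_congr rfl fun x _ => ?_
      rw [← smul_eq_C_mul, map_smul, smul_eq_mul, mul_comm]
    rw [h5]
    refine Finset.sum_congr rfl fun x hx => ?_
    rw [eval_add, eval_mul, hGN' x hx, zero_mul, add_zero]
  refine ⟨N, w, hcard, hN, ?_, ?_, ?_⟩
  · intro x hx
    set R : ℝ[X] := ∏ z ∈ N.erase x, (X - C z) with hR
    have hR0 : R ≠ 0 := Finset.prod_ne_zero_iff.2 fun z _ => X_sub_C_ne_zero z
    have hm1 : 1 ≤ m := by
      rw [← hcard]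
      exact Finset.card_pos.2 ⟨x, hx⟩
    have hRdeg : R.degree = (m - 1 : ℕ) := by
      rw [hR, degree_prod, ← hcard, ← Finset.card_erase_of_mem hx]
      simp
    have htX : C t - X ≠ (0 : ℝ[X]) := by
      intro h
      have : (X : ℝ[X]) = C t := (sub_eq_zero.1 h).symm
      exact X_ne_C t this
    have htXdeg : (C t - X : ℝ[X]).degree = 1 := by
      rw [show (C t - X : ℝ[X]) = -(X - C t) by ring, degree_neg, degree_X_sub_C]
    have h1 := hΛ (R ^ 2 * (C t - X)) (mul_ne_zero (pow_ne_zero _ hR0) htX) fun y hy => by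
      rw [eval_mul, eval_pow, eval_sub, eval_C, eval_X]
      exact mul_nonneg (sq_nonneg _) (by linarith [hy.2])
    rw [key _ (by
      rw [degree_mul, degree_pow, hRdeg, htXdeg, nsmul_eq_mul]
      have : 2 * (m - 1) + 1 < 2 * m + 1 := by omega
      exact_mod_cast this), hN', Finset.sum_insert htN,
      Finset.sum_eq_single_of_mem x hx (fun y hy hyx => by
        rw [eval_mul, eval_pow, hR, eval_prod,
          Finset.prod_eq_zero (Finset.mem_erase.2 ⟨hyx, hy⟩) (by simp)]
        simp)] at h1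
    have h2 : (R ^ 2 * (C t - X)).eval t = 0 := by simp
    rw [h2, mul_zero, zero_add] at h1
    have h3 : 0 < (R ^ 2 * (C t - X)).eval x := by
      rw [eval_mul, eval_pow, eval_sub, eval_C, eval_X]
      apply mul_pos
      · have : R.eval x ≠ 0 := by
          rw [hR, eval_prod]
          refine Finset.prod_ne_zero_iff.2 fun z hz => ?_
          rw [eval_sub, eval_X, eval_C]
          exact sub_ne_zero.2 (Finset.ne_of_mem_erase hz).symm
        positivity
      · have := (hN x hx).2
        linarith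
    exact (pos_iff_pos_of_mul_pos h1).2 h3
  · have h1 := hΛ (P ^ 2) (pow_ne_zero _ hP0) fun y _ => by
      rw [eval_pow]
      exact sq_nonneg _
    rw [key _ (by
      rw [degree_pow, hPdeg, nsmul_eq_mul]
      have : 2 * m < 2 * m + 1 := by omega
      exact_mod_cast this), hN', Finset.sum_insert htN, Finset.sum_eq_zero (fun y hy => by
        rw [eval_pow, hP, eval_prod, Finset.prod_eq_zero hy (by simp)]
        simp), add_zero] at h1
    have h3 : 0 < (P ^ 2).eval t := by
      rw [eval_pow]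
      have : P.eval t ≠ 0 := by
        rw [hP, eval_prod]
        refine Finset.prod_ne_zero_iff.2 fun z hz => ?_
        rw [eval_sub, eval_X, eval_C]
        intro h
        have h4 : t = z := sub_eq_zero.1 h
        exact htN (h4 ▸ hz)
      positivity
    exact (pos_iff_pos_of_mul_pos h1).2 h3
  · intro F hF
    rw [key F hF, hN', Finset.sum_insert htN, add_comm]

end Pool.Agent.H2.Quad
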